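import Pool.Agent.P.MP_df609a_nt.Ct.Base

/-! Spacing of fractions and the count of solutions with a given unitary divisor. -/

namespace Pool.Agent.P.MP_df609a_nt.Ct

open Finset

namespace Farey

/-- Close fractions with small denominators are equal. -/
theorem cross_eq {b c s t : ℕ} {B : ℝ} (hb : 1 ≤ b) (hc : 1 ≤ c) (hbB : (b : ℝ) ^ 2 ≤ B)
    (hcB : (c : ℝ) ^ 2 ≤ B) (h : ((s : ℝ) / b - t / c) * B < 1) : s * c ≤ t * b := by
  by_contra hh
  have h1 : t * b + 1 ≤ s * c := by omega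
  have h2 : (t : ℝ) * b + 1 ≤ s * c := by exact_mod_cast h1
  have hb' : (0 : ℝ) < b := by exact_mod_cast hb
  have hc' : (0 : ℝ) < c := by exact_mod_cast hc
  have h3 : (b : ℝ) * c ≤ B := by nlinarith [sq_nonneg ((b : ℝ) - c)]
  have h4 : (1 : ℝ) / (b * c) ≤ (s : ℝ) / b - t / c := by
    rw [div_sub_div _ _ hb'.ne' hc'.ne']
    exact div_le_div_of_nonneg_right (by linarith) (by positivity)
  have h5 : (1 : ℝ) / (b * c) * (b * c) ≤ ((s : ℝ) / b - t / c) * B :=
    mul_le_mul h4 h3 (by positivity) (le_trans (by positivity) h4)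
  rw [one_div_mul_cancel (by positivity)] at h5
  linarith

/-- Equal fractions with the same common factor have the same denominator. -/
theorem eq_of_gcd {b c s t : ℕ} (hb : 1 ≤ b) (h : s * c = t * b)
    (hg : Nat.gcd b s = Nat.gcd c t) : b = c := by
  have h1 : b * Nat.gcd c t = c * Nat.gcd b s := by
    rw [← Nat.gcd_mul_left, ← Nat.gcd_mul_left, mul_comm b c, mul_comm b t, ← h, mul_comm s c]
  rw [← hg] at h1
  exact Nat.eq_of_mul_eq_mul_right (Nat.gcd_pos_of_pos_left _ hb) h1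

theorem sub_lt_of_floor {x y : ℝ} (hy : 0 ≤ y) (h : ⌊x⌋₊ = ⌊y⌋₊) : x - y < 1 := by
  have h1 := Nat.lt_floor_add_one x
  have h2 := Nat.floor_le hy
  rw [h] at h1
  linarith

end Farey

open Farey

theorem p_Farey : S_Farey := by
  intro a u η B N ha hη hB hN
  have key : N.card ≤ (range (⌊η * B⌋₊ + 1) ×ˢ Icc 1 a).card := by
    refine card_le_card_of_injOn (fun b => (⌊(ab b - u) * B⌋₊, Nat.gcd b (sg b))) ?_ ?_
    · intro b hb
      obtain ⟨h1, -, h3, -, h5⟩ := hN b hb
      simp only [coe_product, coe_range, coe_Icc, Set.mem_prod, Set.mem_Iio, Set.mem_Icc]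
      refine ⟨Nat.lt_succ_of_le (Nat.floor_le_floor ?_), Nat.gcd_pos_of_pos_left _ h1,
        Nat.le_of_dvd ha h3⟩
      exact mul_le_mul_of_nonneg_right (by linarith) hB
    · intro b hb c hc h
      obtain ⟨h1, h2, -, h4, -⟩ := hN b hb
      obtain ⟨g1, g2, -, g4, -⟩ := hN c hc
      obtain ⟨e1, e2⟩ := Prod.mk.inj h
      have k1 := sub_lt_of_floor (mul_nonneg (sub_nonneg.2 g4) hB) e1
      have k2 := sub_lt_of_floor (mul_nonneg (sub_nonneg.2 h4) hB) e1.symm
      have l1 : sg b * c ≤ sg c * b := cross_eq h1 g1 h2 g2 (by unfold ab at k1; linarith)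
      have l2 : sg c * b ≤ sg b * c := cross_eq g1 h1 g2 h2 (by unfold ab at k2; linarith)
      exact eq_of_gcd h1 (le_antisymm l1 l2) e2
  rw [card_product, card_range, Nat.card_Icc, Nat.add_sub_cancel] at key
  have h1 : (N.card : ℝ) ≤ (⌊η * B⌋₊ + 1) * a := by exact_mod_cast key
  have h2 : (⌊η * B⌋₊ : ℝ) ≤ η * B := Nat.floor_le (mul_nonneg hη hB)
  have h3 : (0 : ℝ) ≤ a := Nat.cast_nonneg _
  nlinarith

namespace Farey

/-- The count for one unitary divisor. -/
theorem one (h : S_Farey) {a k X D : ℕ} {ρ : ℝ} {N : Finset ℕ} (ha : 1 ≤ a) (hρ : 0 ≤ ρ)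
    (hN : ∀ n ∈ N, Sol a k X n ∧ Un D n ∧ Bal X D ρ) :
    (N.card : ℝ) ≤ 3 * a ^ 2 * √X * (ρ / D) := by
  rcases N.eq_empty_or_nonempty with rfl | ⟨m, hm⟩
  · rw [card_empty, Nat.cast_zero]; positivity
  obtain ⟨m1, m2, hB⟩ := hN m hm
  have hD : 1 ≤ D := (m2.le m1.pos).1
  have hD' : (0 : ℝ) < D := by exact_mod_cast hD
  have hX : (0 : ℝ) < X := by exact_mod_cast m1.pos.trans m1.hi
  have ha' : (1 : ℝ) ≤ a := by exact_mod_cast ha
  have hA : 1 ≤ ab D := one_le_ab hD
  have hinj : Set.InjOn (fun n => n / D) N := by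
    intro n hn n' hn' e
    obtain ⟨f, rfl, -⟩ := (hN n hn).2.1
    obtain ⟨f', rfl, -⟩ := (hN n' hn').2.1
    simp only [Nat.mul_div_cancel_left _ hD] at e
    rw [e]
  have key := h a (k / ab D) (2 * a / X) ((X / D) ^ 2) (N.image fun n => n / D) ha
    (by positivity) (by positivity) (by
      intro f hf
      obtain ⟨n, hn, rfl⟩ := mem_image.1 hf
      obtain ⟨s, ⟨f, rfl, hc⟩, -⟩ := hN n hn
      simp only [Nat.mul_div_cancel_left _ hD]
      have hu : Un f (D * f) := ⟨D, mul_comm _ _, hc.symm⟩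
      have hf1 : 1 ≤ f := (hu.le s.pos).1
      have hf' : (0 : ℝ) < f := by exact_mod_cast hf1
      have hi : (D : ℝ) * f ≤ X := by exact_mod_cast s.hi
      have lo : (X : ℝ) < 2 * (D * f) := by exact_mod_cast s.lo
      have e1 : ab D * ab f = k + a / (D * f) := by
        rw [← ab_mul hc, ab, s.eq]
        push_cast
        field_simp
      have e2 : ab f = k / ab D + a / (D * f) / ab D := by
        rw [← add_div, ← e1, mul_div_cancel_left₀ _ (by linarith)]
      have e3 : (a : ℝ) / (D * f) ≤ 2 * a / X := by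
        rw [div_le_div_iff₀ (by positivity) hX]
        nlinarith
      have e4 : (a : ℝ) / (D * f) / ab D ≤ a / (D * f) := div_le_self (by positivity) hA
      have e5 : (0 : ℝ) ≤ a / (D * f) / ab D := by positivity
      refine ⟨hf1, ?_, s.gcd_dvd hu, by linarith, by linarith⟩
      refine pow_le_pow_left₀ hf'.le ?_ 2
      rw [le_div_iff₀ hD']
      linarith)
  rw [card_image_of_injOn hinj] at key
  refine key.trans ?_
  have hq : √(X : ℝ) * √X = X := Real.mul_self_sqrt hX.le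
  have hs : 0 ≤ √(X : ℝ) := Real.sqrt_nonneg _
  have b1 : 1 ≤ √X * (ρ / D) := by
    rw [← mul_div_assoc, le_div_iff₀ hD']
    linarith [hB.2]
  have b2 : (X : ℝ) / D ^ 2 ≤ √X * (ρ / D) := by
    rw [← mul_div_assoc, div_le_div_iff₀ (by positivity) hD']
    have := mul_le_mul_of_nonneg_left hB.1 (mul_nonneg hs hD'.le)
    nlinarith
  have b3 : (2 * a / X * (X / D) ^ 2 : ℝ) = 2 * a * (X / D ^ 2) := by field_simp
  rw [b3, mul_assoc (3 * (a : ℝ) ^ 2)]
  generalize √(X : ℝ) * (ρ / D) = t at b1 b2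
  generalize (X : ℝ) / D ^ 2 = v at b2
  have b4 : (a : ℝ) * v ≤ a * t := mul_le_mul_of_nonneg_left b2 (by linarith)
  have b5 : (1 : ℝ) ≤ a * t := by nlinarith
  nlinarith

end Farey

theorem p_Code (h : S_Farey) : S_Code := by
  intro ι a k X I D ρ N ha hρ hN
  classical
  have hsub : N ⊆ I.biUnion fun i => N.filter fun n => Un (D i) n ∧ Bal X (D i) (ρ i) := by
    intro n hn
    obtain ⟨i, hi, h1⟩ := (hN n hn).2
    exact mem_biUnion.2 ⟨i, hi, mem_filter.2 ⟨hn, h1⟩⟩
  have h1 := (card_le_card hsub).trans card_biUnion_le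
  have h2 : (N.card : ℝ) ≤
      ∑ i ∈ I, ((N.filter fun n => Un (D i) n ∧ Bal X (D i) (ρ i)).card : ℝ) := by
    exact_mod_cast h1
  rw [mul_sum]
  refine h2.trans (sum_le_sum fun i hi => Farey.one (k := k) h ha (hρ i hi) fun n hn => ?_)
  exact ⟨(hN n (mem_filter.1 hn).1).1, (mem_filter.1 hn).2⟩

end Pool.Agent.P.MP_df609a_nt.Ct
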