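import Pool.Agent.P.MP_df609a_nt.Ct.Base

/-! The gap lemma. -/

namespace Pool.Agent.P.MP_df609a_nt.Ct

open Finset

namespace Gap

theorem sg_le (n : ℕ) : (sg n : ℝ) ≤ n * (1 + Real.log n) := by
  have h1 : (sg n : ℝ) = n * ∑ d ∈ n.divisors, ((d : ℝ))⁻¹ := by
    unfold sg
    rw [← Nat.sum_div_divisors n fun d => d, mul_sum]
    push_cast
    refine sum_congr rfl fun d hd => ?_
    rw [Nat.cast_div_charZero (Nat.dvd_of_mem_divisors hd), div_eq_mul_inv]
  have h2 : ∑ d ∈ n.divisors, ((d : ℝ))⁻¹ ≤ ∑ d ∈ Icc 1 n, ((d : ℝ))⁻¹ :=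
    sum_le_sum_of_subset_of_nonneg
      (fun d hd => mem_Icc.2 ⟨Nat.pos_of_mem_divisors hd, Nat.divisor_le hd⟩)
      fun _ _ _ => by positivity
  have h3 : ∑ d ∈ Icc 1 n, ((d : ℝ))⁻¹ = (harmonic n : ℝ) := by
    rw [harmonic_eq_sum_Icc]; push_cast; rfl
  rw [h1]
  have h4 := harmonic_le_one_add_log n
  exact mul_le_mul_of_nonneg_left (by linarith) (Nat.cast_nonneg _)

theorem two_pow_le {e : ℕ} (he : 1 ≤ e) : 2 ^ e.primeFactors.card ≤ e := by
  refine le_trans ?_ (Nat.le_of_dvd he (Nat.prod_primeFactors_dvd e))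
  exact pow_card_le_prod _ _ _ fun q hq => (Nat.prime_of_mem_primeFactors hq).two_le

theorem ab_pow {q : ℕ} (hq : q.Prime) (m : ℕ) : ab (q ^ m) * (1 - 1 / q) ≤ 1 := by
  have h0 : (0 : ℝ) < q := by exact_mod_cast hq.pos
  have h1 : (sg (q ^ m) : ℝ) = ∑ i ∈ range (m + 1), (q : ℝ) ^ i := by
    unfold sg
    rw [Nat.sum_divisors_prime_pow hq]
    push_cast; rfl
  have h2 := geom_sum_mul (q : ℝ) (m + 1)
  have h3 : ab (q ^ m) * (1 - 1 / q) = (∑ i ∈ range (m + 1), (q : ℝ) ^ i) * (q - 1) / q ^ (m + 1) := by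
    unfold ab
    rw [h1]
    push_cast
    field_simp
    ring
  rw [h3, h2, div_le_one (by positivity)]
  linarith

theorem ab_bound {p : ℕ} (hp : 1 ≤ p) (e : ℕ) (he : e ≠ 0) (h : ∀ q, q.Prime → q ∣ e → p ≤ q) :
    ab e * (1 - 1 / p : ℝ) ^ e.primeFactors.card ≤ 1 := by
  have p0 : (1 : ℝ) ≤ p := by exact_mod_cast hp
  have p1 : (0 : ℝ) ≤ 1 - 1 / p := sub_nonneg.2 ((div_le_one (by linarith)).2 p0)
  induction e using Nat.recOnPosPrimePosCoprime with
  | prime_pow q m hq hm =>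
    rw [Nat.primeFactors_prime_pow hm.ne' hq, card_singleton, pow_one]
    refine le_trans ?_ (ab_pow hq m)
    have h1 : (p : ℝ) ≤ q := by exact_mod_cast h q hq (dvd_pow_self q hm.ne')
    have h2 : (1 : ℝ) / q ≤ 1 / p := one_div_le_one_div_of_le (by linarith) h1
    have h3 := one_le_ab (Nat.pos_of_ne_zero he)
    exact mul_le_mul_of_nonneg_left (by linarith) (by linarith)
  | zero => exact absurd rfl he
  | one => simp [ab_one]
  | coprime b c hb hc hbc ib ic =>
    rw [ab_mul hbc, hbc.primeFactors_mul, card_union_of_disjoint hbc.disjoint_primeFactors, pow_add,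
      mul_mul_mul_comm]
    have h1 := ib (by omega) fun q hq hd => h q hq (hd.mul_right c)
    have h2 := ic (by omega) fun q hq hd => h q hq (hd.mul_left b)
    have h3 := one_le_ab (n := c) (by omega)
    exact mul_le_one₀ h1 (mul_nonneg (by linarith) (pow_nonneg p1 _)) h2

theorem sg_comp {e : ℕ} (he : 1 < e) (hp : ¬ e.Prime) : ∃ f, e ≤ f * f ∧ e + f ≤ sg e := by
  have h1 := Nat.minFac_sq_le_self (by omega : 0 < e) hp
  have h2 := (Nat.minFac_prime (by omega : e ≠ 1)).two_le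
  obtain ⟨f, hf⟩ := Nat.minFac_dvd e
  generalize e.minFac = q at h1 h2 hf
  have h3 : q ≤ f := Nat.le_of_mul_le_mul_left (by rw [← hf, ← sq]; exact h1) (by omega)
  refine ⟨f, by rw [hf]; exact Nat.mul_le_mul_right f h3, ?_⟩
  have h4 : e ≠ f := by nlinarith
  have h5 : ({e, f} : Finset ℕ) ⊆ e.divisors :=
    insert_subset (Nat.mem_divisors_self e (by omega))
      (singleton_subset_iff.2 (Nat.mem_divisors.2 ⟨⟨q, by rw [hf, mul_comm]⟩, by omega⟩))
  have h6 := sum_le_sum_of_subset (f := fun d => d) h5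
  rwa [sum_pair h4] at h6

theorem sg_lt {a k X n d e : ℕ} (h : Sol a k X n) (ha : a * a < n) (a1 : 1 ≤ a) (hn : n = d * e)
    (hc : Nat.Coprime d e) (he : 1 < e) : sg d < k * d := by
  by_contra hh
  have h0 := not_lt.1 hh
  have h1 := h.eq
  have h2 := le_sg n
  have h3 := le_sg d
  have d1 : 1 ≤ d := Nat.pos_of_ne_zero fun h4 => h.ne (by rw [hn, h4, zero_mul])
  have k1 : 1 ≤ k := Nat.pos_of_ne_zero fun h4 => by
    rw [h4, zero_mul, zero_add] at h1
    nlinarith
  rw [hn, sg_mul hc] at h1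
  by_cases hp : e.Prime
  · have h4 : sg e = e + 1 := by
      unfold sg; rw [hp.sum_divisors]
    rw [h4] at h1
    rcases h0.eq_or_lt with h5 | h5
    · refine h.nr ⟨e, d, hp, (Nat.Prime.coprime_iff_not_dvd hp).1 hc.symm, ⟨k, ?_⟩, ?_, ?_⟩
      · rw [← h5, mul_comm]
      · nlinarith
      · rw [hn, mul_comm]
    · have h6 : (k * d + 1) * e ≤ sg d * e := Nat.mul_le_mul_right e h5
      have h7 : e ≤ a := by nlinarith
      have h8 : d ≤ a := by nlinarith
      have := Nat.mul_le_mul h8 h7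
      omega
  · obtain ⟨f, f1, f2⟩ := sg_comp he hp
    have h5 : k * d * (e + f) ≤ sg d * sg e := Nat.mul_le_mul h0 f2
    have h6 : d * f ≤ k * d * f := by
      rw [mul_assoc]; exact Nat.le_mul_of_pos_left _ k1
    have h7 : d * f ≤ a := by nlinarith
    have h8 := Nat.mul_le_mul h7 h7
    have h9 : d * e ≤ d * d * (f * f) := Nat.mul_le_mul (Nat.le_mul_self d) f1
    nlinarith

end Gap

theorem p_K : S_K := by
  intro a k X l n hl hX h
  have n0 : (0 : ℝ) < n := by exact_mod_cast h.pos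
  have h1 := Gap.sg_le n
  have h2 : (k : ℝ) * n ≤ sg n := by
    rw [h.eq]; push_cast; linarith [(Nat.cast_nonneg a : (0 : ℝ) ≤ a)]
  have h3 : (n : ℝ) ≤ 2 ^ l := by exact_mod_cast (h.hi.trans hX.le)
  have h4 := Real.log_le_log n0 h3
  rw [Real.log_pow] at h4
  have h5 := Real.log_two_lt_d9
  have h6 : (4 : ℝ) ≤ l := by exact_mod_cast hl
  have h7 : (k : ℝ) ≤ 1 + Real.log n := le_of_mul_le_mul_right (by linarith) n0
  have h8 : (k : ℝ) ≤ l := by nlinarith
  exact_mod_cast h8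

theorem p_Gap (hK : S_K) : S_Gap := by
  intro a k X l n d e p W R hP h hn hc he hp hq
  have R32 := hP.R32
  have ha : a * a < n := by
    have a1 : (X : ℝ) < 2 * n := by exact_mod_cast h.lo
    have a2 : R ^ 3 ≤ R ^ 300 := pow_le_pow_right₀ (by linarith) (by norm_num)
    have a3 : (a : ℝ) * a ≤ R * R :=
      mul_le_mul hP.aR hP.aR (Nat.cast_nonneg _) (by linarith)
    have a4 : (a : ℝ) * a < n := by nlinarith [hP.RX, mul_pos (by linarith : 0 < R) (by linarith : 0 < R)]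
    exact_mod_cast a4
  have d1 : 1 ≤ d := Nat.pos_of_ne_zero fun h4 => h.ne (by rw [hn, h4, zero_mul])
  have d0 : (0 : ℝ) < d := by exact_mod_cast d1
  have n0 : (0 : ℝ) < n := by exact_mod_cast h.pos
  have p0 : (1 : ℝ) ≤ p := by exact_mod_cast hp
  have s1 : (sg d : ℝ) + 1 ≤ k * d := by exact_mod_cast Gap.sg_lt h ha hP.a1 hn hc he
  have s2 : ab d + 1 / d ≤ k := by
    unfold ab
    rw [← add_div, div_le_iff₀ d0]
    exact s1
  have s3 : (k : ℝ) ≤ ab d * ab e := by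
    rw [← ab_mul hc, ← hn]
    unfold ab
    rw [le_div_iff₀ n0, h.eq]
    push_cast
    linarith [(Nat.cast_nonneg a : (0 : ℝ) ≤ a)]
  have s4 := Gap.ab_bound hp e (by omega) hq
  have p1 : (1 : ℝ) / p ≤ 1 := (div_le_one (by linarith)).2 p0
  have p2 : (0 : ℝ) < 1 / p := by positivity
  have s5 := one_add_mul_le_pow (a := -(1 / p : ℝ)) (by linarith) e.primeFactors.card
  rw [← sub_eq_add_neg] at s5
  have s6 : e.primeFactors.card ≤ l := by
    have b1 := Gap.two_pow_le (e := e) (by omega)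
    have b2 : e ≤ n := by rw [hn]; exact Nat.le_mul_of_pos_left e d1
    have b3 := h.hi
    have b4 := hP.Xl
    exact ((Nat.pow_lt_pow_iff_right (by norm_num : 1 < 2)).1 (by omega)).le
  have s7 : (k : ℝ) * e.primeFactors.card ≤ W := by
    have b1 : k * e.primeFactors.card ≤ l * l := Nat.mul_le_mul (hK a k X l n hP.l4 hP.Xl h) s6
    have b2 : (k : ℝ) * e.primeFactors.card ≤ l * l := by exact_mod_cast b1
    nlinarith [hP.lW]
  have s8 : 0 ≤ (1 - 1 / p : ℝ) ^ e.primeFactors.card := pow_nonneg (by linarith) _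
  have s9 := one_le_ab d1
  have k0 : (0 : ℝ) ≤ k := Nat.cast_nonneg _
  have t1 : (k : ℝ) - W / p ≤ ab d := by
    generalize (1 - 1 / p : ℝ) ^ e.primeFactors.card = t at s4 s5 s8
    have c1 := mul_le_mul_of_nonneg_right s3 s8
    have c2 := mul_le_mul_of_nonneg_left s4 (by linarith : 0 ≤ ab d)
    have c3 := mul_le_mul_of_nonneg_left s5 k0
    have c4 := mul_le_mul_of_nonneg_right s7 p2.le
    rw [div_eq_mul_one_div W]
    nlinarith
  have d2 : (0 : ℝ) < 1 / d := by positivity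
  refine ⟨by linarith, t1, ?_⟩
  have t2 : (1 : ℝ) / d ≤ W / p := by linarith
  rw [div_le_div_iff₀ d0 (by linarith)] at t2
  linarith

end Pool.Agent.P.MP_df609a_nt.Ct
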