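import Pool.Agent.P.MP_df609a_nt.Ct.Base

/-! Three harmonic sums. -/

namespace Pool.Agent.P.MP_df609a_nt.Ct

open Finset

namespace Harm

theorem h1 {X l : ℕ} (hl : 4 ≤ l) (hX : X < 2 ^ l) : ∑ t ∈ Icc 1 X, (1 / t : ℝ) ≤ l := by
  rcases Nat.eq_zero_or_pos X with rfl | h0
  · simp
  have a1 := harmonic_le_one_add_log X
  rw [harmonic_eq_sum_Icc] at a1
  push_cast at a1
  have a2 : Real.log X ≤ l * Real.log 2 := by
    rw [← Real.log_pow]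
    exact Real.log_le_log (by exact_mod_cast h0) (by exact_mod_cast hX.le)
  have a3 := Real.log_two_lt_d9
  have a4 : (4 : ℝ) ≤ l := by exact_mod_cast hl
  simp only [one_div]
  nlinarith

theorem fib {ι : Type} (s : Finset ι) (T : Finset ℕ) (g : ι → ℕ) (f : ι → ℝ) (a : ℕ → ℝ)
    (hf : ∀ x, 0 ≤ f x) (h : ∀ t ∈ T, a t ≤ ∑ x ∈ s with g x = t, f x) :
    ∑ t ∈ T, a t ≤ ∑ x ∈ s, f x :=
  (sum_le_sum h).trans (sum_fiberwise_le_sum_of_sum_fiber_nonneg fun _ _ =>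
    sum_nonneg fun x _ => hf x)

theorem pw_eq (t : ℕ) : ∃ r w : ℕ, pw t = r ^ 3 * w ^ 2 := by
  refine ⟨∏ p ∈ t.primeFactors.filter fun p => 2 ≤ t.factorization p, p ^ (t.factorization p % 2),
    ∏ p ∈ t.primeFactors.filter fun p => 2 ≤ t.factorization p,
      p ^ ((t.factorization p - 3 * (t.factorization p % 2)) / 2), ?_⟩
  rw [← prod_pow, ← prod_pow, ← prod_mul_distrib, pw, U]
  refine prod_congr rfl fun p hp => ?_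
  have := (mem_filter.1 hp).2
  rw [← pow_mul, ← pow_mul, ← pow_add]
  congr 1
  omega

theorem h2 (X : ℕ) : ∑ t ∈ Icc 1 X, √(pw t) / t ≤ (∑ t ∈ Icc 1 X, (1 / t : ℝ)) ^ 3 := by
  have e : (∑ t ∈ Icc 1 X, (1 / t : ℝ)) ^ 3 = ∑ q ∈ Icc 1 X ×ˢ Icc 1 X ×ˢ Icc 1 X,
      (1 / q.1 : ℝ) * ((1 / q.2.1 : ℝ) * (1 / q.2.2 : ℝ)) := by
    simp only [sum_product, ← mul_sum, ← sum_mul]
    ring
  rw [e]
  refine fib _ _ (fun q : ℕ × ℕ × ℕ => q.1 ^ 3 * q.2.1 ^ 2 * q.2.2) _ _ (fun x => by positivity)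
    fun t ht => ?_
  obtain ⟨t1, tX⟩ := mem_Icc.1 ht
  obtain ⟨r, w, hp⟩ := pw_eq t
  obtain ⟨m, hm⟩ : ∃ m, t = r ^ 3 * w ^ 2 * m := ⟨_, hp ▸ pw_mul_pr (by omega)⟩
  have r0 : r ≠ 0 := by rintro rfl; simp at hm; omega
  have w0 : w ≠ 0 := by rintro rfl; simp at hm; omega
  have m0 : m ≠ 0 := by rintro rfl; simp at hm; omega
  have le : ∀ d, d ∣ t → d ≠ 0 → d ∈ Icc 1 X := fun d hd h0 =>
    mem_Icc.2 ⟨Nat.pos_of_ne_zero h0, (Nat.le_of_dvd t1 hd).trans tX⟩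
  have mem : (r, w, m) ∈ (Icc 1 X ×ˢ Icc 1 X ×ˢ Icc 1 X).filter
      fun q : ℕ × ℕ × ℕ => q.1 ^ 3 * q.2.1 ^ 2 * q.2.2 = t :=
    mem_filter.2 ⟨mem_product.2 ⟨le r ⟨r ^ 2 * w ^ 2 * m, by rw [hm]; ring⟩ r0, mem_product.2
      ⟨le w ⟨r ^ 3 * w * m, by rw [hm]; ring⟩ w0, le m ⟨r ^ 3 * w ^ 2, by rw [hm]; ring⟩ m0⟩⟩,
      hm.symm⟩
  refine le_trans ?_ (single_le_sum (f := fun q : ℕ × ℕ × ℕ =>
    (1 / q.1 : ℝ) * ((1 / q.2.1 : ℝ) * (1 / q.2.2 : ℝ))) (fun x _ => by positivity) mem)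
  have r1 : (1 : ℝ) ≤ r := by exact_mod_cast Nat.pos_of_ne_zero r0
  have w1 : (0 : ℝ) < w := by exact_mod_cast Nat.pos_of_ne_zero w0
  have m1 : (0 : ℝ) < m := by exact_mod_cast Nat.pos_of_ne_zero m0
  have s : √(pw t : ℝ) ≤ (r : ℝ) ^ 2 * w := by
    rw [hp]
    refine Real.sqrt_le_iff.2 ⟨by positivity, ?_⟩
    push_cast
    have : (r : ℝ) ^ 3 ≤ r ^ 4 := pow_le_pow_right₀ r1 (by norm_num)
    nlinarith [mul_le_mul_of_nonneg_right this (sq_nonneg (w : ℝ))]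
  refine (div_le_div_of_nonneg_right s (Nat.cast_nonneg _)).trans_eq ?_
  rw [hm]
  push_cast
  field_simp

theorem two_pow_le {t : ℕ} (ht : t ≠ 0) : 2 ^ t.primeFactors.card ≤ t.divisors.card := by
  rw [Nat.card_divisors ht]
  refine pow_card_le_prod _ _ _ fun p hp => ?_
  have : t.factorization p ≠ 0 := Finsupp.mem_support_iff.1 hp
  omega

theorem h3 (X : ℕ) : ∑ t ∈ Icc 1 X, (2 : ℝ) ^ t.primeFactors.card / t ≤
    (∑ t ∈ Icc 1 X, (1 / t : ℝ)) ^ 2 := by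
  have e : (∑ t ∈ Icc 1 X, (1 / t : ℝ)) ^ 2 = ∑ q ∈ Icc 1 X ×ˢ Icc 1 X,
      (1 / q.1 : ℝ) * (1 / q.2 : ℝ) := by
    simp only [sum_product, ← mul_sum, ← sum_mul]
    ring
  rw [e]
  refine fib _ _ (fun q : ℕ × ℕ => q.1 * q.2) _ _ (fun x => by positivity) fun t ht => ?_
  obtain ⟨t1, tX⟩ := mem_Icc.1 ht
  have t0 : t ≠ 0 := by omega
  have sub : t.divisorsAntidiagonal ⊆ (Icc 1 X ×ˢ Icc 1 X).filter
      fun q : ℕ × ℕ => q.1 * q.2 = t := fun q hq => by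
    have h := (Nat.mem_divisorsAntidiagonal.1 hq).1
    have d1 : q.1 ∣ t := ⟨q.2, h.symm⟩
    have d2 : q.2 ∣ t := ⟨q.1, by rw [← h, mul_comm]⟩
    exact mem_filter.2 ⟨mem_product.2
      ⟨mem_Icc.2 ⟨Nat.pos_of_dvd_of_pos d1 t1, (Nat.le_of_dvd t1 d1).trans tX⟩,
       mem_Icc.2 ⟨Nat.pos_of_dvd_of_pos d2 t1, (Nat.le_of_dvd t1 d2).trans tX⟩⟩, h⟩
  refine le_trans ?_ (sum_le_sum_of_subset_of_nonneg sub fun x _ _ => by positivity)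
  have c : ∑ q ∈ t.divisorsAntidiagonal, (1 / q.1 : ℝ) * (1 / q.2 : ℝ) =
      ∑ _d ∈ t.divisors, (1 / t : ℝ) := by
    rw [← Nat.sum_divisorsAntidiagonal (fun _ _ => (1 / t : ℝ))]
    refine sum_congr rfl fun q hq => ?_
    rw [← (Nat.mem_divisorsAntidiagonal.1 hq).1]
    push_cast
    rw [one_div_mul_one_div]
  rw [c, sum_const, nsmul_eq_mul, mul_one_div]
  refine div_le_div_of_nonneg_right ?_ (Nat.cast_nonneg _)
  exact_mod_cast two_pow_le t0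

end Harm

theorem p_Harm : S_Harm := fun X _ hl hX =>
  have h := Harm.h1 hl hX
  have h0 : 0 ≤ ∑ t ∈ Icc 1 X, (1 / t : ℝ) := sum_nonneg fun _ _ => by positivity
  ⟨h, (Harm.h2 X).trans (pow_le_pow_left₀ h0 h 3), (Harm.h3 X).trans (pow_le_pow_left₀ h0 h 2)⟩

end Pool.Agent.P.MP_df609a_nt.Ct
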