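import Pool.Agent.P.MP_df609a_nt.Ct.Base

/-! Large powerful part, large squarefree part. -/

namespace Pool.Agent.P.MP_df609a_nt.Ct

open Finset

namespace PowA

variable {a k X l n p : ℕ} {F : Finset ℕ} {W R : ℝ}

/-- The two-level case. -/
theorem caseT (hG : S_Gap) (hP : Par a X l W R) (h : Sol a k X n) (hp : p ∈ n.primeFactors)
    (hF : F ⊆ PP n) (hFp : ∀ q ∈ F, p ≤ q)
    (hB : Bal X (U n (n.primeFactors \ F)) (R ^ 2 * √(pw n))) {z : ℕ} (hz : z < p)
    (h6 : R ^ 6 ≤ below n (z + 1)) (hb : below n (z + 1) ^ 2 ≤ 2 ^ Nat.log 2 p) :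
    ClT k X W R n := by
  have hR := hP.R32
  have hpp := (Nat.prime_of_mem_primeFactors hp).pos
  have hi : 2 ^ Nat.log 2 p ≤ p := Nat.pow_log_le_self 2 hpp.ne'
  set A := n.primeFactors.filter fun q => q < p with hA
  set B := n.primeFactors.filter fun q => q < z + 1 with hBd
  have hBA : B ⊆ A := fun q hq => by
    rw [mem_filter] at hq ⊢
    exact ⟨hq.1, by omega⟩
  have hAG : A ⊆ n.primeFactors \ F := fun q hq => by
    rw [mem_filter] at hq
    exact mem_sdiff.2 ⟨hq.1, fun h1 => by have := hFp q h1; omega⟩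
  have hA' : A ⊆ n.primeFactors := filter_subset _ _
  have hB' : B ⊆ n.primeFactors := filter_subset _ _
  have hC' : A \ B ⊆ n.primeFactors := sdiff_subset.trans hA'
  have hU' : (n.primeFactors \ F) \ A ⊆ n.primeFactors := sdiff_subset.trans sdiff_subset
  have u1 : (A \ B) ∪ B = A := sdiff_union_of_subset hBA
  have u2 : A ∪ ((n.primeFactors \ F) \ A) = n.primeFactors \ F := union_sdiff_of_subset hAG
  have e1 : U n (A \ B) * U n B = below n p := by
    rw [← U_union sdiff_disjoint, u1]; rfl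
  have e2 : U n (A \ B) * U n B * U n ((n.primeFactors \ F) \ A) = U n (n.primeFactors \ F) := by
    rw [← U_union sdiff_disjoint, u1, ← U_union disjoint_sdiff, u2]
  have e3 : pw n = pw (U n (A \ B)) * pw (U n B) * pw (U n ((n.primeFactors \ F) \ A)) := by
    rw [← pw_U_union hC' hB' sdiff_disjoint, u1, ← pw_U_union hA' hU' disjoint_sdiff, u2,
      pw_compl hF]
  obtain ⟨g1, g2, -⟩ := gap_below hG hP h hp (t := 2 ^ Nat.log 2 p) Nat.one_le_two_pow hi
  refine ⟨Nat.log 2 p, U n (A \ B), U n B, U n ((n.primeFactors \ F) \ A),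
    hi.trans ((Nat.le_of_mem_primeFactors hp).trans h.hi), ?_, U_coprime disjoint_sdiff,
    un_U h.ne hB', hb, ?_, ?_, ?_⟩
  · rw [e2]; exact un_U h.ne sdiff_subset
  · rw [e1]; exact_mod_cast g2
  · rw [e1]; exact g1
  · rw [e2]
    refine hB.mono ?_
    have hb6 : R ^ 6 ≤ (U n B : ℝ) := h6
    have l1 : (pw (U n B) : ℝ) ≤ U n B := by exact_mod_cast pw_U_le hB'
    have l2 : R ^ 3 ≤ √(U n B : ℝ) := Real.le_sqrt_of_sq_le (by rw [← pow_mul]; exact hb6)
    have l3 : √(U n B : ℝ) * √(U n B : ℝ) = U n B := Real.mul_self_sqrt (Nat.cast_nonneg _)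
    have l4 : √(pw (U n B) : ℝ) ≤ √(U n B : ℝ) := Real.sqrt_le_sqrt l1
    rw [e3]
    push_cast
    rw [Real.sqrt_mul (by positivity), Real.sqrt_mul (by positivity),
      le_div_iff₀ (by linarith)]
    set x := √(pw (U n (A \ B)) : ℝ)
    set y := √(pw (U n ((n.primeFactors \ F) \ A)) : ℝ)
    have hx : 0 ≤ x := Real.sqrt_nonneg _
    have hy : 0 ≤ y := Real.sqrt_nonneg _
    calc R ^ 2 * (x * √(pw (U n B) : ℝ) * y) * R = x * y * (R ^ 3 * √(pw (U n B) : ℝ)) := by ring
      _ ≤ x * y * (√(U n B : ℝ) * √(U n B : ℝ)) := by gcongr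
      _ = _ := by rw [l3]

/-- The case of a high power of a small prime. -/
theorem caseQ (h : Sol a k X n) (hR : 32 ≤ R) (hF : F ⊆ PP n)
    (hB : Bal X (U n (n.primeFactors \ F)) (R ^ 2 * √(pw n))) {z : ℕ} (hz : z ∈ n.primeFactors)
    (h7 : (z : ℝ) ≤ R ^ 7) (h20 : R ^ 20 ≤ (z : ℝ) ^ n.factorization z) : ClQ X R n := by
  have hzp := Nat.prime_of_mem_primeFactors hz
  have hv : 2 ≤ n.factorization z := by
    by_contra hc
    have h1 : (1 : ℝ) ≤ z := by exact_mod_cast hzp.pos
    have h2 : (z : ℝ) ^ n.factorization z ≤ z ^ 1 := pow_le_pow_right₀ h1 (by omega)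
    have h3 : R ^ 7 < R ^ 20 := pow_lt_pow_right₀ (by linarith) (by norm_num)
    rw [pow_one] at h2
    linarith
  have hzG : z ∈ n.primeFactors \ F :=
    mem_sdiff.2 ⟨hz, fun h1 => (two_le_iff hz).1 hv (hF h1)⟩
  have hE : (n.primeFactors \ F).erase z ⊆ n.primeFactors := (erase_subset _ _).trans sdiff_subset
  have e1 : z ^ n.factorization z * U n ((n.primeFactors \ F).erase z) =
      U n (n.primeFactors \ F) := by
    rw [← U_insert (notMem_erase _ _), insert_erase hzG]
  have e2 : pw n = z ^ n.factorization z * pw (U n ((n.primeFactors \ F).erase z)) := by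
    have h1 : ({z} : Finset ℕ) ⊆ n.primeFactors := singleton_subset_iff.2 hz
    have h2 : pw (U n {z}) = z ^ n.factorization z := by
      rw [pw_U h1, filter_singleton, if_pos hv, U_single]
    rw [← h2, ← pw_U_union h1 hE (by simp), ← insert_eq, insert_erase hzG, pw_compl hF]
  refine ⟨z, n.factorization z, U n ((n.primeFactors \ F).erase z), hzp.two_le, h7, h20, ?_, ?_⟩
  · rw [e1]; exact un_U h.ne sdiff_subset
  · rw [e1]
    refine hB.mono (le_of_eq ?_)
    rw [e2]
    push_cast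
    rw [Real.sqrt_mul (by positivity), mul_assoc]

/-- A balanced unitary divisor above a large prime. -/
theorem caseC (hG : S_Gap) (hP : Par a X l W R) (h : Sol a k X n) (hp : p ∈ n.primeFactors)
    (hF : F ⊆ PP n) (hFp : ∀ q ∈ F, p ≤ q)
    (hB : Bal X (U n (n.primeFactors \ F)) (R ^ 2 * √(pw n))) (hl : R ^ 54 < 2 * p) :
    ClT k X W R n ∨ ClQ X R n := by
  have hR := hP.R32
  have hW := hP.W16
  have hWR := hP.WR
  have hR0 : 0 < R := by linarith
  have h1 := le_below hG hP h hp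
  have h6 : R ^ 6 ≤ below n p := by
    have a1 : R ^ 7 ≤ R ^ 54 := pow_le_pow_right₀ (by linarith) (by norm_num)
    have a2 : (0 : ℝ) ≤ below n p := Nat.cast_nonneg _
    have a3 : R * R ^ 6 ≤ R * below n p := by nlinarith
    exact le_of_mul_le_mul_left a3 hR0
  obtain ⟨z, hz, hzp, z1, z2⟩ := exists_z (one_lt_pow₀ (by linarith) (by norm_num)) p h6
  by_cases hb : below n (z + 1) ^ 2 ≤ 2 ^ Nat.log 2 p
  · exact Or.inl (caseT hG hP h hp hF hFp hB hzp z2 hb)
  · refine Or.inr (caseQ h hR hF hB hz ?_ ?_)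
    · have a1 := le_below hG hP h hz
      have a2 : W * below n z ≤ R * R ^ 6 := by gcongr; linarith
      calc (z : ℝ) ≤ R * R ^ 6 := a1.trans a2
        _ = R ^ 7 := by ring
    · have a1 : p < 2 ^ (Nat.log 2 p + 1) := Nat.lt_pow_succ_log_self (by norm_num) p
      have a2 : p < 2 * below n (z + 1) ^ 2 := by rw [pow_succ] at a1; omega
      have a3 : (p : ℝ) < 2 * (below n (z + 1) : ℝ) ^ 2 := by exact_mod_cast a2
      have a4 : 4 * R ^ 52 ≤ R ^ 54 := by
        have : R ^ 54 = R ^ 2 * R ^ 52 := by ring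
        rw [this]
        gcongr
        nlinarith
      have a5 : (R ^ 26) ^ 2 ≤ (below n (z + 1) : ℝ) ^ 2 := by
        have : (R ^ 26) ^ 2 = R ^ 52 := by ring
        rw [this]; linarith
      have a6 : R ^ 26 ≤ below n (z + 1) := (abs_le_of_sq_le_sq' a5 (Nat.cast_nonneg _)).2
      rw [below_succ hz] at a6
      push_cast at a6
      have a7 : (z : ℝ) ^ n.factorization z * below n z ≤ (z : ℝ) ^ n.factorization z * R ^ 6 := by
        gcongr
      have a8 : R ^ 20 * R ^ 6 ≤ (z : ℝ) ^ n.factorization z * R ^ 6 := by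
        have : R ^ 20 * R ^ 6 = R ^ 26 := by ring
        rw [this]; exact a6.trans a7
      exact le_of_mul_le_mul_right a8 (by positivity)

end PowA

theorem p_PowA (hG : S_Gap) : S_PowA := by
  intro a k X l n W R hP h hs hm
  have hR := hP.R32
  have hW := hP.W16
  have hWR := hP.WR
  have hR0 : 0 < R := by linarith
  have hY : R ^ 150 ≤ √X := sqrt_ge hP.RX
  have hY1 : (1 : ℝ) ≤ √X := (one_le_pow₀ (by linarith)).trans hY
  obtain ⟨S, hS, g1, g2⟩ := greedy (PP n) hY1
  have hne : (PP n \ S).Nonempty := by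
    rw [sdiff_nonempty]
    intro hc
    rw [← Subset.antisymm hS hc] at hm
    linarith
  set p := (PP n \ S).min' hne with hpd
  have hp := mem_sdiff.1 (min'_mem _ hne)
  rw [← hpd] at hp
  have hmin : ∀ q ∈ PP n \ S, p ≤ q := fun q hq => min'_le _ _ hq
  have hpf : p ∈ n.primeFactors := PP_subset n hp.1
  have g3 : √X < (p : ℝ) * up S p := not_le.1 fun hc => hp.2 ((g1 p hp.1).2 hc)
  set F := insert p (S.filter fun q => p < q) with hFd
  have hF : F ⊆ PP n := insert_subset hp.1 ((filter_subset _ _).trans hS)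
  have hFp : ∀ q ∈ F, p ≤ q := fun q hq => by
    rcases mem_insert.1 hq with rfl | hq
    · exact le_rfl
    · exact (mem_filter.1 hq).2.le
  have eF : (pr F : ℝ) = p * up S p := by
    rw [hFd, pr_insert (by simp)]; push_cast; rfl
  have eS : (pr S : ℝ) = low S p * up S p := by rw [low_mul_up hp.2]; push_cast; rfl
  have hq : √(pw n : ℝ) * √(pw n : ℝ) = pw n := Real.mul_self_sqrt (Nat.cast_nonneg _)
  have h28 : R ^ 28 ≤ √(pw n : ℝ) := Real.le_sqrt_of_sq_le (by rw [← pow_mul]; exact hs.le)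
  have h2 : R ^ 2 ≤ R ^ 28 := pow_le_pow_right₀ (by linarith) (by norm_num)
  set t := √(pw n : ℝ) with ht
  have hρ : 2 ≤ t / R := by rw [le_div_iff₀ hR0]; nlinarith
  by_cases c1 : √X ≤ t / R * pr S
  · refine Or.inl (clT_one hG hP h (un_U h.ne (S := n.primeFactors \ S) sdiff_subset) ?_)
    rw [pw_compl hS]
    exact bal_of h (split_PP h.ne hS) (by nlinarith) c1
  by_cases c2 : 2 * (pr F : ℝ) ≤ t / R * √X
  · refine Or.inl (clT_one hG hP h (un_U h.ne (S := n.primeFactors \ F) sdiff_subset) ?_)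
    rw [pw_compl hF]
    exact bal_of h (split_PP h.ne hF) c2 (by rw [eF]; nlinarith)
  push Not at c1 c2
  rw [eS] at c1
  rw [eF] at c2
  have hL : (1 : ℝ) ≤ low S p := by
    exact_mod_cast pr_pos fun q hq => (PP_prime (hS (mem_filter.1 hq).1)).pos
  have hu : (1 : ℝ) ≤ up S p := by
    exact_mod_cast pr_pos fun q hq => (PP_prime (hS (mem_filter.1 hq).1)).pos
  have hb : (below n p : ℝ) ≤ pw n * low S p := by
    rw [low_eq_of_min hS hmin]; exact_mod_cast below_le n p
  have hpW : (p : ℝ) ≤ W * (pw n * low S p) := (le_below hG hP h hpf).trans (by gcongr)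
  have c1' : t * (low S p * up S p) < R * √X := by
    rw [div_mul_eq_mul_div, div_lt_iff₀ hR0] at c1; linarith
  have c2' : t * √X < R * (2 * (p * up S p)) := by
    rw [div_mul_eq_mul_div, div_lt_iff₀ hR0] at c2; linarith
  have ht0 : 0 < t := by nlinarith
  refine PowA.caseC hG hP h hpf hF hFp (bal_of h (split_PP h.ne hF) ?_ ?_) ?_
  · rw [eF]
    calc 2 * ((p : ℝ) * up S p) ≤ 2 * (W * (pw n * low S p) * up S p) := by gcongr
      _ = 2 * W * t * (t * (low S p * up S p)) := by rw [← hq]; ring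
      _ ≤ R * t * (R * √X) := by gcongr
      _ = _ := by ring
  · rw [eF]
    have a0 : 1 ≤ R ^ 2 := one_le_pow₀ (by linarith)
    have a1 : 1 ≤ R ^ 2 * t := one_le_mul_of_one_le_of_one_le a0 (by linarith)
    exact g3.le.trans (le_mul_of_one_le_left (by positivity) a1)
  · have a1 : t * up S p ≤ t * (low S p * up S p) :=
      mul_le_mul_of_nonneg_left (le_mul_of_one_le_left (by linarith) hL) ht0.le
    have a2 : t * (t * up S p) < t * (R * √X) := mul_lt_mul_of_pos_left (a1.trans_lt c1') ht0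
    have a3 : R * (t * √X) < R * (R * (2 * (p * up S p))) := by gcongr
    have a4 : (pw n : ℝ) * up S p < R ^ 2 * (2 * p) * up S p := by
      rw [← hq]
      calc t * t * up S p = t * (t * up S p) := by ring
        _ < t * (R * √X) := a2
        _ = R * (t * √X) := by ring
        _ < R * (R * (2 * (p * up S p))) := a3
        _ = _ := by ring
    have a5 : (pw n : ℝ) < R ^ 2 * (2 * p) := lt_of_mul_lt_mul_right a4 (by linarith)
    have a6 : R ^ 2 * R ^ 54 < R ^ 2 * (2 * p) := by
      have : R ^ 2 * R ^ 54 = R ^ 56 := by ring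
      rw [this]; exact hs.trans a5
    exact lt_of_mul_lt_mul_left a6 (by positivity)

end Pool.Agent.P.MP_df609a_nt.Ct
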