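import Pool.Agent.P.MP_df609a_nt.Ct.Base

/-! Large powerful part, small squarefree part. -/

namespace Pool.Agent.P.MP_df609a_nt.Ct

open Finset

namespace PowB

theorem U_le_pw_mul {n : ℕ} {S : Finset ℕ} (h : S ⊆ n.primeFactors) :
    (U n S : ℝ) ≤ pw (U n S) * pr (PP n) := by
  have h1 : pr (S ∩ PP n) ≤ pr (PP n) := pr_le (fun p hp => (PP_prime hp).pos) inter_subset_right
  have h2 : U n S ≤ pw (U n S) * pr (PP n) :=
    (U_eq_pw_mul h).le.trans (Nat.mul_le_mul_left _ h1)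
  exact_mod_cast h2

theorem sqrt_le_mul {x s f R : ℝ} (hR : 0 < R) (hs : 0 ≤ s) (hf : 0 ≤ f)
    (h : x * R ^ 2 ≤ s * f ^ 2) : √x ≤ √s / R * f := by
  refine Real.sqrt_le_iff.2 ⟨by positivity, ?_⟩
  rw [mul_pow, div_pow, Real.sq_sqrt hs, div_mul_eq_mul_div, le_div_iff₀ (by positivity)]
  exact h

theorem two_le {s R : ℝ} (hR : 0 < R) (h : 4 * R ^ 2 ≤ s) : 2 ≤ √s / R := by
  rw [le_div_iff₀ hR]
  exact Real.le_sqrt_of_sq_le (by nlinarith)

end PowB

open PowB

theorem p_PowB (hG : S_Gap) : S_PowB := by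
  intro a k X l n W R hP h hs hm
  have R32 := hP.R32
  have R0 : 0 < R := by linarith
  have R1 : 1 ≤ R := by linarith
  have hY : R ^ 150 ≤ √X := sqrt_ge hP.RX
  have lo : (X : ℝ) < 2 * n := by exact_mod_cast h.lo
  have X0 : (0 : ℝ) ≤ X := Nat.cast_nonneg _
  have Y0 : 0 ≤ √(X : ℝ) := Real.sqrt_nonneg _
  have hq : √(X : ℝ) * √X = X := Real.mul_self_sqrt X0
  have R2 : 1024 ≤ R ^ 2 := by nlinarith
  have up : ∀ i j : ℕ, i ≤ j → R ^ i ≤ R ^ j := fun i j hij => pow_le_pow_right₀ R1 hij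
  have R4 : 4 * R ^ 2 ≤ R ^ 4 := by nlinarith
  have m0 : (0 : ℝ) ≤ pr (PP n) := Nat.cast_nonneg _
  by_cases hc : 2 * R ^ 2 ≤ pr (PP n)
  · have e := split_PP h.ne (Subset.refl (PP n))
    have e' : (n : ℝ) = pw n * pr (PP n) := by exact_mod_cast pw_mul_pr h.ne
    refine Or.inl (clT_one hG hP h (un_U h.ne (sdiff_subset (t := PP n))) ?_)
    rw [pw_compl Subset.rfl]
    have s0 : (0 : ℝ) ≤ pw n := Nat.cast_nonneg _
    have t2 : 2 ≤ √(pw n : ℝ) / R := two_le R0 (by linarith [up 4 56 (by norm_num)])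
    refine bal_of h e ?_ (sqrt_le_mul R0 s0 m0 ?_)
    · calc 2 * (pr (PP n) : ℝ) ≤ 2 * √X := by gcongr
        _ ≤ _ := by gcongr
    · calc (X : ℝ) * R ^ 2 ≤ 2 * n * R ^ 2 := by gcongr
        _ = pw n * pr (PP n) * (2 * R ^ 2) := by rw [e']; ring
        _ ≤ pw n * pr (PP n) * pr (PP n) := by gcongr
        _ = _ := by ring
  rw [not_le] at hc
  have R6 : 1 < R ^ 6 := one_lt_pow₀ (by linarith) (by norm_num)
  have n6 : R ^ 6 ≤ below n (n + 1) := by
    rw [below_top h.ne]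
    have a1 : R ^ 6 * R ^ 2 ≤ X := by
      rw [← pow_add]
      exact (up _ 300 (by norm_num)).trans hP.RX
    nlinarith
  obtain ⟨z, hz, -, z1, z2⟩ := exists_z R6 _ n6
  by_cases hb : (below n (z + 1) : ℝ) ≤ √X
  · have hS : (n.primeFactors.filter fun q => q < z + 1) ⊆ n.primeFactors := filter_subset _ _
    have e : n = U n (n.primeFactors \ n.primeFactors.filter fun q => q < z + 1) *
        below n (z + 1) := by
      rw [mul_comm]
      exact U_split h.ne hS
    have hD := U_le_pw_mul (n := n)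
      (sdiff_subset (s := n.primeFactors) (t := n.primeFactors.filter fun q => q < z + 1))
    refine Or.inl (clT_one hG hP h (un_U h.ne
      (sdiff_subset (t := n.primeFactors.filter fun q => q < z + 1))) ?_)
    generalize U n (n.primeFactors \ n.primeFactors.filter fun q => q < z + 1) = D at e hD ⊢
    generalize below n (z + 1) = b at e hb z2
    have e' : (n : ℝ) = D * b := by exact_mod_cast e
    have s0 : (0 : ℝ) ≤ pw D := Nat.cast_nonneg _
    have b0 : (0 : ℝ) ≤ b := Nat.cast_nonneg _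
    have D0 : (0 : ℝ) ≤ D := Nat.cast_nonneg _
    have hD' : (D : ℝ) ≤ pw D * (2 * R ^ 2) := hD.trans (by gcongr)
    have Y1 : 0 < √(X : ℝ) := lt_of_lt_of_le (by positivity) hY
    have DY : √(X : ℝ) ≤ 2 * D := by
      refine le_of_mul_le_mul_right ?_ Y1
      calc √(X : ℝ) * √X ≤ 2 * (D * b) := by rw [hq, ← e']; exact lo.le
        _ ≤ 2 * (D * √X) := by gcongr
        _ = _ := by ring
    have t2 : 2 ≤ √(pw D : ℝ) / R := by
      refine two_le R0 (le_of_mul_le_mul_right ?_ (show 0 < 4 * R ^ 2 by positivity))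
      calc 4 * R ^ 2 * (4 * R ^ 2) ≤ R ^ 4 * R ^ 4 := by gcongr
        _ = R ^ 8 := by ring
        _ ≤ 2 * D := ((up 8 150 (by norm_num)).trans hY).trans DY
        _ ≤ 2 * (pw D * (2 * R ^ 2)) := by gcongr
        _ = _ := by ring
    refine bal_of h e ?_ (sqrt_le_mul R0 s0 b0 ?_)
    · calc 2 * (b : ℝ) ≤ 2 * √X := by gcongr
        _ ≤ _ := by gcongr
    · calc (X : ℝ) * R ^ 2 ≤ 2 * (D * b) * R ^ 2 := by rw [← e']; gcongr
        _ ≤ 2 * (pw D * (2 * R ^ 2) * b) * R ^ 2 := by gcongr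
        _ = pw D * b * (4 * R ^ 2 * R ^ 2) := by ring
        _ ≤ pw D * b * (R ^ 4 * R ^ 2) := by gcongr
        _ = pw D * b * R ^ 6 := by ring
        _ ≤ pw D * b * b := by gcongr
        _ = _ := by ring
  rw [not_le, below_succ hz] at hb
  push_cast at hb
  have e : z ^ n.factorization z * U n (n.primeFactors.erase z) = n := by
    rw [← U_insert (notMem_erase _ _), insert_erase hz, U_self h.ne]
  have hu := U_le_pw_mul (n := n) (erase_subset z n.primeFactors)
  have zv : (0 : ℝ) ≤ (z : ℝ) ^ n.factorization z := by positivity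
  refine Or.inr ⟨z, n.factorization z, U n (n.primeFactors.erase z),
    (Nat.prime_of_mem_primeFactors hz).two_le, ?_, ?_, ⟨1, by rw [e, mul_one], by simp⟩, ?_⟩
  · have W0 : 0 ≤ W := by linarith [hP.W16]
    calc (z : ℝ) ≤ W * below n z := le_below hG hP h hz
      _ ≤ R * R ^ 6 := by gcongr; linarith [hP.WR]
      _ = _ := by ring
  · refine le_of_mul_le_mul_right ?_ (show 0 < R ^ 6 by positivity)
    calc R ^ 20 * R ^ 6 = R ^ 26 := by ring
      _ ≤ √X := (up 26 150 (by norm_num)).trans hY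
      _ ≤ (z : ℝ) ^ n.factorization z * below n z := hb.le
      _ ≤ _ := by gcongr
  · generalize U n (n.primeFactors.erase z) = u at e hu ⊢
    have e' : (z : ℝ) ^ n.factorization z * u = n := by exact_mod_cast e
    have s0 : (0 : ℝ) ≤ pw u := Nat.cast_nonneg _
    have hu' : (u : ℝ) ≤ pw u * (2 * R ^ 2) := hu.trans (by gcongr)
    have key : √(X : ℝ) ≤ R ^ 2 * √((z : ℝ) ^ n.factorization z) * √(pw u : ℝ) := by
      refine Real.sqrt_le_iff.2 ⟨by positivity, ?_⟩
      rw [mul_pow, mul_pow, Real.sq_sqrt zv, Real.sq_sqrt s0]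
      calc (X : ℝ) ≤ 2 * ((z : ℝ) ^ n.factorization z * u) := by rw [e']; exact lo.le
        _ ≤ 2 * ((z : ℝ) ^ n.factorization z * (pw u * (2 * R ^ 2))) := by gcongr
        _ = 4 * R ^ 2 * ((z : ℝ) ^ n.factorization z * pw u) := by ring
        _ ≤ R ^ 4 * ((z : ℝ) ^ n.factorization z * pw u) := by gcongr
        _ = _ := by ring
    have Y2 : 2 ≤ √(X : ℝ) := by linarith [up 2 150 (by norm_num)]
    refine bal_of (f := 1) h (by rw [e, mul_one]) ?_ (by simpa using key)
    push_cast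
    nlinarith

end Pool.Agent.P.MP_df609a_nt.Ct
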