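import Pool.Agent.P.MP_df609a_nt.Ct.Base

/-! Counting the two-level class and the class with a high power of a small prime. -/

namespace Pool.Agent.P.MP_df609a_nt.Ct

open Finset

namespace TQ

open Classical in
/-- The admissible middle factors. -/
noncomputable def Bs (a k X : ℕ) (W : ℝ) (i c : ℕ) : Finset ℕ :=
  (Icc 1 X).filter fun b => Nat.gcd b (sg b) ∣ a ∧ b ^ 2 ≤ 2 ^ i ∧
    (k : ℝ) - W / 2 ^ i ≤ ab c * ab b ∧ ab c * ab b ≤ k

theorem card_Bs (hF : S_Farey) {a k X : ℕ} {W : ℝ} (ha : 1 ≤ a) (hW : 0 ≤ W) (i : ℕ) {c : ℕ}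
    (hc : 1 ≤ c) : ((Bs a k X W i c).card : ℝ) ≤ a * (1 + W) := by
  have h1 := one_le_ab hc
  have h0 : 0 < ab c := by linarith
  have h2 : (0 : ℝ) < 2 ^ i := by positivity
  have h := hF a ((k - W / 2 ^ i) / ab c) (W / 2 ^ i) (2 ^ i) (Bs a k X W i c) ha (by positivity)
    h2.le (fun b hb => by
      unfold Bs at hb
      obtain ⟨b1, b2, b3, b4, b5⟩ := mem_filter.1 hb
      refine ⟨(mem_Icc.1 b1).1, by exact_mod_cast b3, b2, ?_, ?_⟩
      · rw [div_le_iff₀ h0]; linarith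
      · have e : W / 2 ^ i / ab c ≤ W / 2 ^ i := div_le_self (by positivity) h1
        have e2 : ab b ≤ k / ab c := by rw [le_div_iff₀ h0]; linarith
        rw [sub_div]; linarith)
  rwa [div_mul_cancel₀ _ h2.ne'] at h

theorem mem_three {c b u X : ℕ} (h1 : 1 ≤ c * b * u) (h2 : c * b * u ≤ X) :
    c ∈ Icc 1 X ∧ b ∈ Icc 1 X ∧ u ∈ Icc 1 X := by
  have hc : 1 ≤ c := Nat.pos_of_ne_zero (by rintro rfl; simp at h1)
  have hb : 1 ≤ b := Nat.pos_of_ne_zero (by rintro rfl; simp at h1)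
  have hu : 1 ≤ u := Nat.pos_of_ne_zero (by rintro rfl; simp at h1)
  have e1 : c ≤ c * b := Nat.le_mul_of_pos_right _ hb
  have e2 : b ≤ c * b := Nat.le_mul_of_pos_left _ hc
  have e3 : c * b ≤ c * b * u := Nat.le_mul_of_pos_right _ hu
  have e4 : u ≤ c * b * u := Nat.le_mul_of_pos_left _ (by omega)
  simp only [mem_Icc]
  omega

end TQ

open TQ

theorem p_T (hF : S_Farey) (hC : S_Code) (hH : S_Harm) : S_T := by
  intro a k X l W R N hP hN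
  have hR : (0 : ℝ) < R := by linarith [hP.R32]
  have hW : (0 : ℝ) ≤ W := by linarith [hP.W16]
  obtain ⟨-, hs, -⟩ := hH X l hP.l4 hP.Xl
  have hs0 : (0 : ℝ) ≤ ∑ t ∈ Icc 1 X, √(pw t) / t := sum_nonneg fun t _ => by positivity
  have h := hC (Σ _ : ℕ × ℕ, ℕ × ℕ) a k X
    ((range l ×ˢ Icc 1 X).sigma fun x => Bs a k X W x.1 x.2 ×ˢ Icc 1 X)
    (fun x => x.1.2 * x.2.1 * x.2.2) (fun x => √(pw x.1.2) * √(pw x.2.2) * x.2.1 / R) N hP.a1
    (fun x _ => by positivity) (fun n hn => by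
      obtain ⟨h1, i, c, b, u, c1, c2, c3, c4, c5, c6, c7, c8⟩ := hN n hn
      obtain ⟨d1, d2⟩ := c2.le h1.pos
      obtain ⟨m1, m2, m3⟩ := mem_three d1 (d2.trans h1.hi)
      have hi : i < l := (Nat.pow_lt_pow_iff_right (by norm_num)).1 (c1.trans_lt hP.Xl)
      rw [ab_mul c3.symm] at c6 c7
      refine ⟨h1, ⟨(i, c), (b, u)⟩, ?_, c2, c8⟩
      refine mem_sigma.2 ⟨mem_product.2 ⟨mem_range.2 hi, m1⟩, mem_product.2 ⟨?_, m3⟩⟩
      unfold Bs
      exact mem_filter.2 ⟨m2, h1.gcd_dvd c4, c5, c6, c7⟩)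
  refine h.trans (mul_le_mul_of_nonneg_left ?_ (by positivity))
  rw [sum_sigma]
  have key : ∀ x ∈ range l ×ˢ Icc 1 X, ∑ y ∈ Bs a k X W x.1 x.2 ×ˢ Icc 1 X,
      √(pw x.2) * √(pw y.2) * y.1 / R / ((x.2 * y.1 * y.2 : ℕ) : ℝ) ≤
      √(pw x.2) / x.2 * (a * (1 + W) * l ^ 3 / R) := fun x hx => by
    have hc := (mem_Icc.1 (mem_product.1 hx).2).1
    have e : ∀ y ∈ Bs a k X W x.1 x.2 ×ˢ Icc 1 X,
        √(pw x.2) * √(pw y.2) * y.1 / R / ((x.2 * y.1 * y.2 : ℕ) : ℝ) =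
        √(pw x.2) / x.2 / R * (√(pw y.2) / y.2) := fun y hy => by
      have hb : y.1 ∈ Icc 1 X := by
        have := (mem_product.1 hy).1
        unfold Bs at this
        exact (mem_filter.1 this).1
      have b0 : (y.1 : ℝ) ≠ 0 := by have := (mem_Icc.1 hb).1; positivity
      have u0 : (y.2 : ℝ) ≠ 0 := by have := (mem_Icc.1 (mem_product.1 hy).2).1; positivity
      have c0 : (x.2 : ℝ) ≠ 0 := by positivity
      push_cast
      field_simp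
    rw [sum_congr rfl e, ← mul_sum, sum_product]
    dsimp only
    rw [sum_const, nsmul_eq_mul]
    have := card_Bs (k := k) (X := X) hF hP.a1 hW x.1 hc
    calc √(pw x.2) / x.2 / R * (((Bs a k X W x.1 x.2).card : ℝ) * ∑ t ∈ Icc 1 X, √(pw t) / t)
        ≤ √(pw x.2) / x.2 / R * (a * (1 + W) * l ^ 3) := by gcongr
      _ = _ := by ring
  refine (sum_le_sum key).trans ?_
  rw [← sum_mul, sum_product]
  dsimp only
  rw [sum_const, card_range, nsmul_eq_mul]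
  calc ((l : ℝ) * ∑ t ∈ Icc 1 X, √(pw t) / t) * (a * (1 + W) * l ^ 3 / R)
      ≤ (l * l ^ 3) * (a * (1 + W) * l ^ 3 / R) := by gcongr
    _ = _ := by ring

theorem p_Q (hC : S_Code) (hH : S_Harm) : S_Q := by
  classical
  intro a k X l W R N hP hN
  have hR : (0 : ℝ) < R := by linarith [hP.R32]
  obtain ⟨-, hs, -⟩ := hH X l hP.l4 hP.Xl
  have hs0 : (0 : ℝ) ≤ ∑ t ∈ Icc 1 X, √(pw t) / t := sum_nonneg fun t _ => by positivity
  set J : Finset (ℕ × ℕ) :=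
    (Icc 2 ⌊R ^ 7⌋₊ ×ˢ range l).filter fun x => R ^ 20 ≤ (x.1 : ℝ) ^ x.2 with hJ
  have h := hC ((ℕ × ℕ) × ℕ) a k X (J ×ˢ Icc 1 X) (fun x => x.1.1 ^ x.1.2 * x.2)
    (fun x => R ^ 2 * √((x.1.1 : ℝ) ^ x.1.2) * √(pw x.2)) N hP.a1
    (fun x _ => by positivity) (fun n hn => by
      obtain ⟨h1, z, v, u, c1, c2, c3, c4, c5⟩ := hN n hn
      obtain ⟨d1, d2⟩ := c4.le h1.pos
      obtain ⟨m1, -, m3⟩ := mem_three (c := z ^ v) (b := 1) (u := u) (X := X) (by simpa using d1)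
        (by simpa using d2.trans h1.hi)
      have hv : v < l := (Nat.pow_lt_pow_iff_right (by norm_num)).1
        (((Nat.pow_le_pow_left c1 v).trans (mem_Icc.1 m1).2).trans_lt hP.Xl)
      refine ⟨h1, ((z, v), u), mem_product.2 ⟨mem_filter.2 ⟨mem_product.2
        ⟨mem_Icc.2 ⟨c1, Nat.le_floor c2⟩, mem_range.2 hv⟩, c3⟩, m3⟩, c4, c5⟩)
  refine h.trans (mul_le_mul_of_nonneg_left ?_ (by positivity))
  have key : ∀ x ∈ J ×ˢ Icc 1 X,
      R ^ 2 * √((x.1.1 : ℝ) ^ x.1.2) * √(pw x.2) / ((x.1.1 ^ x.1.2 * x.2 : ℕ) : ℝ) ≤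
      1 / R ^ 8 * (√(pw x.2) / x.2) := fun x hx => by
    obtain ⟨h1, h2⟩ := mem_product.1 hx
    have h3 : R ^ 20 ≤ (x.1.1 : ℝ) ^ x.1.2 := (mem_filter.1 h1).2
    have h4 : R ^ 10 ≤ √((x.1.1 : ℝ) ^ x.1.2) :=
      Real.le_sqrt_of_sq_le (by rw [← pow_mul]; exact h3)
    have h5 : (0 : ℝ) < (x.1.1 : ℝ) ^ x.1.2 := lt_of_lt_of_le (by positivity) h3
    have h6 := Real.mul_self_sqrt h5.le
    have u0 : (0 : ℝ) < x.2 := by have := (mem_Icc.1 h2).1; positivity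
    push_cast
    generalize √((x.1.1 : ℝ) ^ x.1.2) = s at h4 h6
    have s0 : 0 < s := lt_of_lt_of_le (by positivity) h4
    rw [← h6]
    calc R ^ 2 * s * √(pw x.2) / (s * s * x.2) = R ^ 2 / s * (√(pw x.2) / x.2) := by field_simp
      _ ≤ R ^ 2 / R ^ 10 * (√(pw x.2) / x.2) := by gcongr
      _ = _ := by field_simp
  refine (sum_le_sum key).trans ?_
  have hc : (J.card : ℝ) ≤ R ^ 7 * l := by
    have e1 : J.card ≤ ⌊R ^ 7⌋₊ * l := by
      refine (card_filter_le _ _).trans ?_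
      rw [card_product, card_range, Nat.card_Icc]
      exact Nat.mul_le_mul_right _ (by omega)
    have e2 : (⌊R ^ 7⌋₊ : ℝ) ≤ R ^ 7 := Nat.floor_le (by positivity)
    calc (J.card : ℝ) ≤ (⌊R ^ 7⌋₊ : ℝ) * l := by exact_mod_cast e1
      _ ≤ _ := by gcongr
  rw [← mul_sum, sum_product]
  dsimp only
  rw [sum_const, nsmul_eq_mul]
  calc 1 / R ^ 8 * ((J.card : ℝ) * ∑ t ∈ Icc 1 X, √(pw t) / t)
      ≤ 1 / R ^ 8 * (R ^ 7 * l * l ^ 3) := by gcongr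
    _ = _ := by field_simp

end Pool.Agent.P.MP_df609a_nt.Ct
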