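import Pool.Agent.P.MP_df609a_nt.Ct.Fin
import Pool.Agent.P.MP_df609a_nt.Ct.Farey
import Pool.Agent.P.MP_df609a_nt.Ct.Gap
import Pool.Agent.P.MP_df609a_nt.Ct.Harm
import Pool.Agent.P.MP_df609a_nt.Ct.TQ
import Pool.Agent.P.MP_df609a_nt.Ct.PowA
import Pool.Agent.P.MP_df609a_nt.Ct.PowB

/-! The counting theorem and the case of remainder five. -/

namespace Pool.Agent.P.MP_df609a_nt.Ct

open Filter

theorem count (a : ℕ) (ha : 1 ≤ a) :
    ∀ᶠ x : ℝ in atTop, (Set.ncard {n : ℕ | (n : ℝ) ≤ x ∧ sg n ≡ a [MOD n] ∧ ¬ Reg a n} : ℝ) ≤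
      √x * Real.exp (-(1 / 40000 * Real.log (Real.log x) ^ 2)) :=
  have hC := p_Code p_Farey
  have hG := p_Gap p_K
  final2 p_K hG hC p_Harm (p_T p_Farey hC p_Harm) (p_Q hC p_Harm) (p_PowA hG) (p_PowB hG) a ha

/-- For remainder five nothing is regular. -/
theorem not_reg_five (n : ℕ) : ¬ Reg 5 n := by
  rintro ⟨p, m, -, -, -, h, -⟩
  have h1 : m ≤ 5 := h ▸ le_sg m
  interval_cases m <;> revert h <;> decide

/-- The counterexamples to the conjecture are few. -/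
theorem count_five :
    ∀ᶠ x : ℝ in atTop, (Set.ncard {n : ℕ | 1 ≤ n ∧ (n : ℝ) ≤ x ∧ sg n % n = 5} : ℝ) ≤
      √x * Real.exp (-(1 / 40000 * Real.log (Real.log x) ^ 2)) := by
  filter_upwards [count 5 (by norm_num)] with x hx
  have hs : {n : ℕ | 1 ≤ n ∧ (n : ℝ) ≤ x ∧ sg n % n = 5} ⊆
      {n : ℕ | (n : ℝ) ≤ x ∧ sg n ≡ 5 [MOD n] ∧ ¬ Reg 5 n} := by
    rintro n ⟨h0, h1, h2⟩
    refine ⟨h1, ?_, not_reg_five n⟩
    have h3 := Nat.mod_lt (sg n) h0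
    unfold Nat.ModEq
    rw [h2] at h3 ⊢
    exact (Nat.mod_eq_of_lt h3).symm
  exact le_trans (Nat.cast_le.2 (Set.ncard_le_ncard hs
    ((Set.finite_le_nat ⌊x⌋₊).subset fun n hn => Nat.le_floor hn.1))) hx

end Pool.Agent.P.MP_df609a_nt.Ct
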