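import Pool.Agent.P.MP_df609a_nt.Ct.Base

/-! The choice of the parameters. -/

namespace Pool.Agent.P.MP_df609a_nt.Ct

open Finset Filter Real

namespace AsyP

theorem len_le {X : ℕ} {u : ℝ} (hX : 8 ≤ X) (hL : log X = exp u) (hu : 3 ≤ u) :
    ((Nat.log 2 X + 1 : ℕ) : ℝ) + 1 ≤ exp (2 * u) := by
  have a1 : 2 ^ Nat.log 2 X ≤ X := Nat.pow_log_le_self 2 (by omega)
  have a2 : (2 : ℝ) ^ Nat.log 2 X ≤ X := by exact_mod_cast a1
  have a3 := log_le_log (by positivity) a2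
  rw [log_pow, hL] at a3
  have a4 := log_two_gt_d9
  have a5 : (0 : ℝ) ≤ Nat.log 2 X := Nat.cast_nonneg _
  have a6 : (Nat.log 2 X : ℝ) ≤ 2 * exp u := by nlinarith
  have a7 := add_one_le_exp u
  rw [two_mul, exp_add]
  push_cast
  nlinarith

theorem sv_le {K : ℕ} {u f : ℝ} (hu : 10 ^ 7 ≤ u) (hK : (K : ℝ) ≤ u ^ 2 + 1) (f0 : 0 ≤ f)
    (hf : f ≤ u ^ 2) :
    0 ≤ sv K (exp (f / 4000)) (exp (exp (u / 2))) ∧
      sv K (exp (f / 4000)) (exp (exp (u / 2))) ≤ exp (-(u / 3)) := by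
  unfold sv
  rw [log_exp, log_pow, log_exp]
  refine ⟨by positivity, ?_⟩
  have u2 : (100 : ℝ) ≤ u ^ 2 := by nlinarith
  have a1 : (2 * K + 1 : ℝ) ≤ 3 * u ^ 2 := by linarith
  have a2 : 2 * (((79 : ℕ) : ℝ) * (f / 4000)) + 1 ≤ u ^ 2 := by push_cast; linarith
  have a3 : (u / 6) ^ 5 / (Nat.factorial 5 : ℝ) ≤ exp (u / 6) :=
    pow_div_factorial_le_exp _ (by linarith) 5
  have a4 : 9 * u ^ 4 ≤ exp (u / 6) := by
    refine le_trans ?_ a3
    have : (0 : ℝ) ≤ u ^ 4 := by positivity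
    have e : (u / 6) ^ 5 / (Nat.factorial 5 : ℝ) = u ^ 4 * (u / 933120) := by
      norm_num [Nat.factorial]; ring
    rw [e]
    nlinarith
  have e1 : exp (-(u / 3)) = exp (u / 6) / exp (u / 2) := by
    rw [← exp_sub]; congr 1; ring
  rw [e1, ← mul_div_assoc]
  refine div_le_div_of_nonneg_right (le_trans ?_ a4) (exp_pos _).le
  calc (2 * K + 1 : ℝ) * (3 * (2 * (((79 : ℕ) : ℝ) * (f / 4000)) + 1))
      ≤ 3 * u ^ 2 * (3 * u ^ 2) := by gcongr
    _ = 9 * u ^ 4 := by ring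

theorem tot_le {a l : ℕ} {P r A B : ℝ} (hP : 12 ≤ P) (ha : (a : ℝ) ≤ P) (hl : (l : ℝ) + 1 ≤ P)
    (r0 : 0 < r) (A0 : 0 ≤ A) (hA : A ≤ 1 / r) (B0 : 0 ≤ B) (hB : B ≤ P / r) :
    (l + 1 : ℝ) * (3 * a ^ 2 * (l * (a * (1 + l ^ 2)) * l ^ 6 / r + l ^ 4 / r + A * l ^ 3 +
      B * l ^ 2)) ≤ P ^ 14 / r := by
  have l0 : (0 : ℝ) ≤ l := Nat.cast_nonneg _
  have lP : (l : ℝ) ≤ P := by linarith
  have P1 : (1 : ℝ) ≤ P := by linarith
  have a1 : (1 + l ^ 2 : ℝ) ≤ P ^ 2 := by nlinarith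
  have b1 : (l * (a * (1 + l ^ 2)) * l ^ 6 / r : ℝ) ≤ P ^ 10 / r := by
    refine div_le_div_of_nonneg_right ?_ r0.le
    calc (l * (a * (1 + l ^ 2)) * l ^ 6 : ℝ) ≤ P * (P * P ^ 2) * P ^ 6 := by gcongr
      _ = P ^ 10 := by ring
  have b2 : (l ^ 4 / r : ℝ) ≤ P ^ 10 / r :=
    div_le_div_of_nonneg_right
      ((pow_le_pow_left₀ l0 lP 4).trans (pow_le_pow_right₀ P1 (by norm_num))) r0.le
  have b3 : A * l ^ 3 ≤ P ^ 10 / r := by
    calc A * l ^ 3 ≤ 1 / r * P ^ 3 := by gcongr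
      _ ≤ 1 / r * P ^ 10 := by gcongr; norm_num
      _ = P ^ 10 / r := by ring
  have b4 : B * l ^ 2 ≤ P ^ 10 / r := by
    calc B * l ^ 2 ≤ P / r * P ^ 2 := by gcongr
      _ ≤ P / r * P ^ 9 := by gcongr; norm_num
      _ = P ^ 10 / r := by ring
  calc (l + 1 : ℝ) * (3 * a ^ 2 * (l * (a * (1 + l ^ 2)) * l ^ 6 / r + l ^ 4 / r + A * l ^ 3 +
        B * l ^ 2)) ≤ P * (3 * P ^ 2 * (P ^ 10 / r + P ^ 10 / r + P ^ 10 / r + P ^ 10 / r)) := by
        gcongr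
    _ = 12 * (P ^ 13 / r) := by ring
    _ ≤ P * (P ^ 13 / r) := by gcongr
    _ = P ^ 14 / r := by ring

theorem core {a X : ℕ} {u : ℝ} (ha : 1 ≤ a) (hX : 8 ≤ X) (hL : log X = exp u) (hu : 10 ^ 7 ≤ u)
    (hau : (a : ℝ) ≤ u) (hv : 224000 * log u ≤ u) :
    ∃ (l K G : ℕ) (W R y : ℝ), Par a X l W R ∧ Cnd X K G R y ∧
      Tot a l K G W R y ≤ exp (-(u ^ 2 / log u / 8000)) := by
  have u0 : 0 < u := by linarith
  have v2 : 2 ≤ log u := by
    rw [le_log_iff_exp_le u0]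
    have h1 := exp_one_lt_d9
    have h2 : exp 2 = exp 1 * exp 1 := by rw [← exp_add]; norm_num
    have h3 := exp_pos 1
    nlinarith
  set v := log u with hvd
  set f := u ^ 2 / v with hfd
  have v0 : 0 < v := by linarith
  have fv : f * v = u ^ 2 := div_mul_cancel₀ _ v0.ne'
  have f0 : 0 ≤ f := by positivity
  have f1 : f ≤ u ^ 2 / 2 := by rw [hfd]; gcongr
  have f2 : 224000 * u ≤ f := by
    rw [hfd, le_div_iff₀ v0]; nlinarith
  have u2 : (100 : ℝ) ≤ u ^ 2 := by nlinarith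
  have hl := len_le hX hL (by linarith)
  set l := Nat.log 2 X + 1 with hld
  have P1 := add_one_le_exp (2 * u)
  set P := exp (2 * u) with hPd
  have hK1 : u ^ 2 ≤ (⌈u ^ 2⌉₊ : ℝ) := Nat.le_ceil _
  have hK2 : (⌈u ^ 2⌉₊ : ℝ) ≤ u ^ 2 + 1 := (Nat.ceil_lt_add_one (by positivity)).le
  set K := ⌈u ^ 2⌉₊ with hKd
  have hG1 : (⌊u / (6 * v)⌋₊ : ℝ) ≤ u / (6 * v) := Nat.floor_le (by positivity)
  have hG2 : u / (6 * v) ≤ (⌊u / (6 * v)⌋₊ : ℝ) + 1 := (Nat.lt_floor_add_one _).le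
  set G := ⌊u / (6 * v)⌋₊ with hGd
  have PR : P ^ 3 ≤ exp (f / 4000) := by
    rw [hPd, ← exp_nat_mul, exp_le_exp]; push_cast; linarith
  have l0 : (0 : ℝ) ≤ l := Nat.cast_nonneg _
  have X0 : (0 : ℝ) < X := by exact_mod_cast (by omega : 0 < X)
  obtain ⟨s0, s1⟩ := sv_le (K := K) hu hK2 f0 (by linarith)
  refine ⟨l, K, G, (l : ℝ) ^ 2, exp (f / 4000), exp (exp (u / 2)),
    ⟨ha, ?_, Nat.lt_pow_succ_log_self (by norm_num) X, le_rfl, ?_, ?_, ?_⟩,
    ⟨?_, ?_, ?_, ?_⟩, ?_⟩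
  · have : 3 ≤ Nat.log 2 X := Nat.le_log_of_pow_le (by norm_num) hX
    omega
  · refine le_trans ?_ PR
    have : (l : ℝ) ^ 2 ≤ P ^ 2 := by gcongr; linarith
    nlinarith [sq_nonneg P]
  · rw [← exp_nat_mul, ← le_log_iff_exp_le X0, hL]
    have := pow_div_factorial_le_exp u u0.le 2
    norm_num [Nat.factorial] at this ⊢
    linarith
  · refine le_trans ?_ PR
    have : P ^ 1 ≤ P ^ 3 := pow_le_pow_right₀ (by linarith) (by norm_num)
    linarith
  · exact_mod_cast (by linarith : (1 : ℝ) ≤ K)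
  · have h1 := add_one_le_exp (exp (u / 2))
    have h2 := add_one_le_exp (u / 2)
    linarith
  · rw [log_exp, hL]
    have h1 : (8 * K : ℝ) ≤ exp (3 * v) := by
      have : exp (3 * v) = u ^ 3 := by
        rw [show 3 * v = ((3 : ℕ) : ℝ) * v by norm_num, exp_nat_mul, hvd, exp_log u0]
      rw [this]
      nlinarith
    have h2 : G * (3 * v) ≤ u / 2 := by
      have := (le_div_iff₀ (by positivity)).1 hG1
      linarith
    calc (8 * K : ℝ) ^ G * exp (u / 2) ≤ exp (3 * v) ^ G * exp (u / 2) := by gcongr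
      _ = exp (G * (3 * v) + u / 2) := by rw [exp_add, exp_nat_mul]
      _ ≤ exp u := exp_le_exp.2 (by linarith)
  · rw [log_exp, log_exp]
    have := pow_div_factorial_le_exp (u / 2) (by linarith) 2
    norm_num [Nat.factorial] at this
    nlinarith
  · have e1 : (1 : ℝ) / exp (f / 4000) = exp (-(f / 4000)) := by rw [exp_neg, one_div]
    have hA : exp (f / 4000) ^ 175 / 2 ^ K ≤ 1 / exp (f / 4000) := by
      have h2 : (2 : ℝ) ^ K = exp (K * log 2) := by rw [exp_nat_mul, exp_log two_pos]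
      rw [e1, h2, ← exp_nat_mul, ← exp_sub, exp_le_exp]
      have h3 := log_two_gt_d9
      have h4 : u ^ 2 * 0.6 ≤ K * log 2 := by gcongr; linarith
      push_cast
      linarith
    have hB : exp (f / 4000) ^ 175 * sv K (exp (f / 4000)) (exp (exp (u / 2))) ^ G ≤
        P / exp (f / 4000) := by
      refine (mul_le_mul_of_nonneg_left (pow_le_pow_left₀ s0 s1 G) (by positivity)).trans ?_
      rw [hPd, ← exp_sub, ← exp_nat_mul, ← exp_nat_mul, ← exp_add, exp_le_exp]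
      have h1 : u / 3 * (u / (6 * v)) = f / 18 := by rw [hfd]; field_simp; ring
      have h2 : u / 3 * (u / (6 * v)) ≤ u / 3 * (G + 1) := by gcongr
      push_cast
      linarith
    have h := tot_le (a := a) (l := l) (by linarith) (by linarith) hl (exp_pos _) (by positivity) hA
      (by positivity) hB
    refine le_trans (le_of_eq ?_) (h.trans ?_)
    · unfold Tot; ring
    · rw [hPd, ← exp_nat_mul, ← exp_sub, exp_le_exp]
      push_cast
      linarith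

end AsyP

theorem p_Asy : S_Asy := by
  intro a ha
  have t : Tendsto (fun X : ℕ => log (log (X : ℝ))) atTop atTop :=
    tendsto_log_atTop.comp (tendsto_log_atTop.comp tendsto_natCast_atTop_atTop)
  have h1 := isLittleO_log_id_atTop.def (show (0 : ℝ) < 1 / 224000 by norm_num)
  filter_upwards [t.eventually h1, t.eventually_ge_atTop (10 ^ 7), t.eventually_ge_atTop a,
    eventually_ge_atTop 8] with X b1 b2 b3 b4
  have X1 : (1 : ℝ) < X := by exact_mod_cast (by omega : 1 < X)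
  refine AsyP.core ha b4 (exp_log (log_pos X1)).symm b2 b3 ?_
  rw [id, Real.norm_eq_abs, Real.norm_eq_abs, abs_of_nonneg (a := log (log (X : ℝ))) (by linarith)]
    at b1
  have := le_abs_self (log (log (log (X : ℝ))))
  linarith

end Pool.Agent.P.MP_df609a_nt.Ct
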