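import Pool.Agent.P.MP_df609a_nt.Ct.Defs

/-! Basic lemmas shared by the parts. -/

namespace Pool.Agent.P.MP_df609a_nt.Ct

open Finset

variable {a k X l n p q D : ℕ} {S T F P : Finset ℕ} {W R ρ ρ' : ℝ}

/-! ### Divisor sums -/

theorem sg_mul {b c : ℕ} (h : Nat.Coprime b c) : sg (b * c) = sg b * sg c :=
  Nat.Coprime.sum_divisors_mul h

theorem ab_mul {b c : ℕ} (h : Nat.Coprime b c) : ab (b * c) = ab b * ab c := by
  unfold ab
  rw [sg_mul h]
  push_cast
  rw [mul_div_mul_comm]

theorem le_sg (n : ℕ) : n ≤ sg n := by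
  rcases Nat.eq_zero_or_pos n with rfl | h
  · exact Nat.zero_le _
  · exact single_le_sum (f := fun d => d) (fun _ _ => Nat.zero_le _) (Nat.mem_divisors_self n h.ne')

theorem one_le_ab (h : 1 ≤ n) : 1 ≤ ab n := by
  unfold ab
  rw [le_div_iff₀ (by exact_mod_cast h), one_mul]
  exact_mod_cast le_sg n

theorem ab_one : ab 1 = 1 := by simp [ab, sg]

theorem Sol.pos (h : Sol a k X n) : 1 ≤ n := by have := h.lo; omega

theorem Sol.ne (h : Sol a k X n) : n ≠ 0 := by have := h.lo; omega

/-- Unitary divisors of solutions are almost coprime to their divisor sum. -/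
theorem Sol.gcd_dvd (h : Sol a k X n) (hD : Un D n) : Nat.gcd D (sg D) ∣ a := by
  obtain ⟨f, rfl, hc⟩ := hD
  have h1 := h.eq
  rw [sg_mul hc] at h1
  have h2 : Nat.gcd D (sg D) ∣ k * (D * f) + a :=
    h1 ▸ Dvd.dvd.mul_right (Nat.gcd_dvd_right _ _) _
  exact (Nat.dvd_add_right (Dvd.dvd.mul_left (Dvd.dvd.mul_right (Nat.gcd_dvd_left _ _) _) _)).1 h2

theorem Un.le (h : Un D n) (hn : 1 ≤ n) : 1 ≤ D ∧ D ≤ n := by
  obtain ⟨f, rfl, -⟩ := h
  have h1 : D ≠ 0 := by rintro rfl; simp at hn
  have h2 : f ≠ 0 := by rintro rfl; simp at hn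
  exact ⟨Nat.pos_of_ne_zero h1, Nat.le_mul_of_pos_right _ (Nat.pos_of_ne_zero h2)⟩

/-! ### Parameters -/

theorem Par.W16 (h : Par a X l W R) : 16 ≤ W := by
  have h1 : (4 : ℝ) ≤ l := by exact_mod_cast h.l4
  nlinarith [h.lW]

theorem Par.R32 (h : Par a X l W R) : 32 ≤ R := by linarith [h.W16, h.WR]

theorem sqrt_ge (hX : R ^ 300 ≤ X) : R ^ 150 ≤ √X :=
  Real.le_sqrt_of_sq_le (by rw [← pow_mul]; exact hX)

theorem Bal.mono (h : Bal X D ρ) (hρ : ρ ≤ ρ') : Bal X D ρ' :=
  ⟨h.1.trans (by gcongr), h.2.trans (by gcongr)⟩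

theorem bal_of {f : ℕ} (h : Sol a k X n) (e : n = D * f) (h1 : 2 * (f : ℝ) ≤ ρ * √X)
    (h2 : √X ≤ ρ * f) : Bal X D ρ := by
  have lo : (X : ℝ) < 2 * (D * f) := by exact_mod_cast e ▸ h.lo
  have hi : (D : ℝ) * f ≤ X := by exact_mod_cast e ▸ h.hi
  have hn : (1 : ℝ) ≤ D * f := by exact_mod_cast e ▸ h.pos
  have hX : (0 : ℝ) < X := by linarith
  have hs : 0 < √(X : ℝ) := Real.sqrt_pos.2 hX
  have hq : √(X : ℝ) * √X = X := Real.mul_self_sqrt hX.le
  have hD : (0 : ℝ) ≤ D := Nat.cast_nonneg _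
  have hf : (0 : ℝ) < f := by
    rcases (Nat.cast_nonneg f : (0 : ℝ) ≤ f).eq_or_lt with h0 | h0
    · rw [← h0] at hn; linarith
    · exact h0
  have hρ : 0 < ρ := by
    by_contra hh
    nlinarith [not_lt.1 hh]
  constructor
  · refine le_of_mul_le_mul_right ?_ hs
    nlinarith [mul_le_mul_of_nonneg_left h1 hD]
  · refine le_of_mul_le_mul_right ?_ hf
    calc (D : ℝ) * f ≤ √X * √X := by rw [hq]; exact hi
      _ ≤ √X * (ρ * f) := by gcongr
      _ = ρ * √X * f := by ring

/-! ### Unitary divisors as sets of primes -/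

theorem U_pos (n : ℕ) (S : Finset ℕ) : 1 ≤ U n S := by
  refine Nat.succ_le_of_lt (prod_pos (f := fun p => p ^ n.factorization p) fun p _ => ?_)
  by_cases hp : p.Prime
  · exact pow_pos hp.pos _
  · simp [Nat.factorization_eq_zero_of_not_prime n hp]

theorem U_union (h : Disjoint S T) : U n (S ∪ T) = U n S * U n T := prod_union h

theorem U_single (n p : ℕ) : U n {p} = p ^ n.factorization p := prod_singleton _ _

theorem U_empty (n : ℕ) : U n ∅ = 1 := prod_empty

theorem U_insert (h : p ∉ S) : U n (insert p S) = p ^ n.factorization p * U n S := prod_insert h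

theorem U_dvd (h : S ⊆ T) : U n S ∣ U n T := prod_dvd_prod_of_subset _ _ _ h

theorem U_le (h : S ⊆ T) : U n S ≤ U n T := Nat.le_of_dvd (U_pos _ _) (U_dvd h)

theorem U_coprime (h : Disjoint S T) : Nat.Coprime (U n S) (U n T) := by
  refine Nat.Coprime.prod_left fun p hp => Nat.Coprime.prod_right fun q hq => ?_
  have hpq : p ≠ q := fun e => disjoint_left.1 h hp (e ▸ hq)
  by_cases h1 : p.Prime
  · by_cases h2 : q.Prime
    · exact Nat.coprime_pow_primes _ _ h1 h2 hpq
    · simp [Nat.factorization_eq_zero_of_not_prime n h2]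
  · simp [Nat.factorization_eq_zero_of_not_prime n h1]

theorem U_self (hn : n ≠ 0) : U n n.primeFactors = n := Nat.prod_factorization_pow_eq_self hn

theorem U_split (hn : n ≠ 0) (h : S ⊆ n.primeFactors) : n = U n S * U n (n.primeFactors \ S) := by
  rw [← U_union disjoint_sdiff, union_sdiff_of_subset h, U_self hn]

theorem un_U (hn : n ≠ 0) (h : S ⊆ n.primeFactors) : Un (U n S) n :=
  ⟨_, U_split hn h, U_coprime disjoint_sdiff⟩

theorem factorization_U (n : ℕ) (S : Finset ℕ) (p : ℕ) :
    (U n S).factorization p = if p ∈ S then n.factorization p else 0 := by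
  induction S using Finset.induction_on with
  | empty => simp [U]
  | insert q S hq ih =>
    have h1 := U_pos n {q}
    rw [U_single] at h1
    rw [U_insert hq, Nat.factorization_mul (by omega) (by have := U_pos n S; omega),
      Finsupp.add_apply, ih]
    by_cases h2 : q.Prime
    · rw [h2.factorization_pow, Finsupp.single_apply]
      by_cases h3 : q = p
      · subst h3; simp [hq]
      · simp [h3, Ne.symm h3]
    · by_cases h3 : q = p
      · subst h3; simp [Nat.factorization_eq_zero_of_not_prime n h2]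
      · simp [Nat.factorization_eq_zero_of_not_prime n h2, Ne.symm h3]

theorem primeFactors_U (h : S ⊆ n.primeFactors) : (U n S).primeFactors = S := by
  ext p
  rw [← Nat.support_factorization, Finsupp.mem_support_iff, factorization_U]
  constructor
  · intro h1
    by_contra h2
    simp [h2] at h1
  · intro h1
    rw [if_pos h1]
    exact Finsupp.mem_support_iff.1 (h h1)

theorem mem_of_dvd_U (h : S ⊆ n.primeFactors) (hq : q.Prime) (hd : q ∣ U n S) : q ∈ S := by
  rw [← primeFactors_U h]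
  exact Nat.mem_primeFactors.2 ⟨hq, hd, by have := U_pos n S; omega⟩

theorem one_lt_U (h : S ⊆ n.primeFactors) (hp : p ∈ S) : 1 < U n S := by
  rw [← primeFactors_U h] at hp
  exact Nat.nonempty_primeFactors.1 ⟨p, hp⟩

theorem pw_U (h : S ⊆ n.primeFactors) :
    pw (U n S) = U n (S.filter fun p => 2 ≤ n.factorization p) := by
  unfold pw
  rw [primeFactors_U h, filter_congr (q := fun p => 2 ≤ n.factorization p)
    fun p hp => by rw [factorization_U, if_pos hp]]
  exact prod_congr rfl fun p hp => by rw [factorization_U, if_pos (mem_filter.1 hp).1]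

theorem pw_U_union (hS : S ⊆ n.primeFactors) (hT : T ⊆ n.primeFactors) (h : Disjoint S T) :
    pw (U n (S ∪ T)) = pw (U n S) * pw (U n T) := by
  rw [pw_U (union_subset hS hT), pw_U hS, pw_U hT, filter_union,
    U_union (disjoint_filter_filter h)]

theorem pw_pos (n : ℕ) : 1 ≤ pw n := U_pos _ _

theorem pw_U_le (h : S ⊆ n.primeFactors) : pw (U n S) ≤ U n S := by
  rw [pw_U h]; exact U_le (filter_subset _ _)

theorem PP_subset (n : ℕ) : PP n ⊆ n.primeFactors := filter_subset _ _

theorem PP_prime (h : p ∈ PP n) : p.Prime := Nat.prime_of_mem_primeFactors (PP_subset n h)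

theorem U_PP (h : F ⊆ PP n) : U n F = pr F :=
  prod_congr rfl fun p hp => by rw [(mem_filter.1 (h hp)).2, pow_one]

theorem two_le_iff (h : p ∈ n.primeFactors) : 2 ≤ n.factorization p ↔ p ∉ PP n := by
  have h1 : n.factorization p ≠ 0 := Finsupp.mem_support_iff.1 h
  simp only [PP, mem_filter, h, true_and]
  omega

/-- Splitting a unitary divisor into its powerful and its squarefree part. -/
theorem U_eq_pw_mul (h : S ⊆ n.primeFactors) : U n S = pw (U n S) * pr (S ∩ PP n) := by
  rw [pw_U h, ← U_PP inter_subset_right, ← U_union]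
  · congr 1
    ext p
    simp only [mem_union, mem_filter, mem_inter]
    constructor
    · intro hp
      have := two_le_iff (h hp)
      tauto
    · tauto
  · exact disjoint_left.2 fun p h1 h2 =>
      (two_le_iff (h (mem_filter.1 h1).1)).1 (mem_filter.1 h1).2 (mem_inter.1 h2).2

theorem pw_mul_pr (hn : n ≠ 0) : n = pw n * pr (PP n) := by
  have := U_eq_pw_mul (n := n) Subset.rfl
  rwa [U_self hn, inter_eq_right.2 (PP_subset n)] at this

theorem pw_compl (h : F ⊆ PP n) : pw (U n (n.primeFactors \ F)) = pw n := by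
  rw [pw_U sdiff_subset, pw]
  congr 1
  ext p
  simp only [mem_filter, mem_sdiff]
  exact ⟨fun h1 => ⟨h1.1.1, h1.2⟩,
    fun h1 => ⟨⟨h1.1, fun h2 => (two_le_iff h1.1).1 h1.2 (h h2)⟩, h1.2⟩⟩

theorem split_PP (hn : n ≠ 0) (h : F ⊆ PP n) : n = U n (n.primeFactors \ F) * pr F := by
  rw [← U_PP h, mul_comm]
  exact U_split hn (h.trans (PP_subset n))

theorem below_le (n p : ℕ) : below n p ≤ pw n * low (PP n) p := by
  have h : (n.primeFactors.filter fun q => q < p) ⊆ n.primeFactors := filter_subset _ _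
  unfold below
  rw [U_eq_pw_mul h, pw_U h]
  refine Nat.mul_le_mul (U_le (filter_subset_filter _ h)) (le_of_eq ?_)
  unfold low
  congr 1
  ext q
  simp only [mem_inter, mem_filter]
  exact ⟨fun h1 => ⟨h1.2, h1.1.2⟩, fun h1 => ⟨⟨PP_subset n h1.1, h1.2⟩, h1.1⟩⟩

theorem below_succ (h : p ∈ n.primeFactors) :
    below n (p + 1) = p ^ n.factorization p * below n p := by
  unfold below
  rw [← U_insert (by simp)]
  congr 1
  ext q
  simp only [mem_filter, mem_insert]
  constructor
  · rintro ⟨h1, h2⟩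
    by_cases h3 : q = p
    · exact Or.inl h3
    · exact Or.inr ⟨h1, by omega⟩
  · rintro (rfl | ⟨h1, h2⟩)
    exacts [⟨h, by omega⟩, ⟨h1, by omega⟩]

theorem below_top (hn : n ≠ 0) : below n (n + 1) = n := by
  unfold below
  rw [filter_true_of_mem fun q hq => Nat.lt_succ_of_le (Nat.le_of_mem_primeFactors hq), U_self hn]

/-- The first prime at which the partial product passes a bound. -/
theorem exists_z {t : ℝ} (ht : 1 < t) (p : ℕ) (h : t ≤ below n p) :
    ∃ z ∈ n.primeFactors, z < p ∧ (below n z : ℝ) < t ∧ t ≤ below n (z + 1) := by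
  induction p with
  | zero => simp [below, U] at h; linarith
  | succ p ih =>
    by_cases h1 : t ≤ below n p
    · obtain ⟨z, a1, a2, a3⟩ := ih h1
      exact ⟨z, a1, by omega, a3⟩
    · refine ⟨p, ?_, by omega, not_le.1 h1, h⟩
      by_contra h2
      refine h1 (h.trans_eq ?_)
      unfold below
      congr 2
      exact filter_congr fun q hq => ⟨fun h3 => lt_of_le_of_ne (by omega) fun e => h2 (e ▸ hq),
        fun h3 => by omega⟩

/-! ### Products and the greedy set -/

theorem pr_pos (h : ∀ p ∈ S, 1 ≤ p) : 1 ≤ pr S :=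
  Nat.succ_le_of_lt (prod_pos (f := fun q => q) h)

theorem pr_insert (h : p ∉ S) : pr (insert p S) = p * pr S := prod_insert h

theorem pr_union (h : Disjoint S T) : pr (S ∪ T) = pr S * pr T := prod_union h

theorem pr_le (h : ∀ p ∈ T, 1 ≤ p) (hS : S ⊆ T) : pr S ≤ pr T :=
  Nat.le_of_dvd (pr_pos h) (prod_dvd_prod_of_subset _ _ _ hS)

theorem low_mul_up (h : p ∉ S) : pr S = low S p * up S p := by
  unfold low up
  rw [← pr_union (disjoint_filter.2 fun q _ h1 h2 => by omega), ← filter_or,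
    filter_true_of_mem fun q hq => Nat.lt_or_gt_of_ne fun e : q = p => h (e ▸ hq)]

theorem primeFactors_pr (h : ∀ p ∈ S, p.Prime) : (pr S).primeFactors = S :=
  Nat.primeFactors_prod h

/-- The greedy subset. -/
theorem greedy (P : Finset ℕ) {Y : ℝ} (hY : 1 ≤ Y) :
    ∃ S ⊆ P, (∀ p ∈ P, p ∈ S ↔ (p : ℝ) * up S p ≤ Y) ∧ (pr S : ℝ) ≤ Y := by
  induction P using Finset.induction_on_min with
  | empty => exact ⟨∅, Subset.rfl, by simp, by simpa [pr] using hY⟩
  | insert b P hb ih =>
    obtain ⟨S, hS, h1, h2⟩ := ih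
    have hbS : b ∉ S := fun h => lt_irrefl _ (hb b (hS h))
    have e1 : up S b = pr S := by
      unfold up; rw [filter_true_of_mem fun q hq => hb q (hS hq)]
    have e2 : ∀ p, b ≤ p → up (insert b S) p = up S p := fun p hp => by
      unfold up; rw [filter_insert, if_neg (by omega)]
    by_cases h : (b : ℝ) * pr S ≤ Y
    · refine ⟨insert b S, insert_subset_insert _ hS, fun p hp => ?_, ?_⟩
      · rcases mem_insert.1 hp with rfl | hp
        · rw [e2 p le_rfl, e1]; simp [h]
        · rw [e2 p (hb p hp).le, ← h1 p hp, mem_insert]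
          exact ⟨fun h3 => h3.resolve_left (hb p hp).ne', Or.inr⟩
      · rw [pr_insert hbS]; exact_mod_cast h
    · refine ⟨S, hS.trans (subset_insert _ _), fun p hp => ?_, h2⟩
      rcases mem_insert.1 hp with rfl | hp
      · rw [e1]; simp [h, hbS]
      · exact h1 p hp

/-- Below the least excluded element everything is included. -/
theorem low_eq_of_min (hS : S ⊆ P) (h : ∀ q ∈ P \ S, p ≤ q) : low S p = low P p := by
  unfold low
  congr 1
  ext q
  simp only [mem_filter]
  refine ⟨fun h1 => ⟨hS h1.1, h1.2⟩, fun h1 => ⟨?_, h1.2⟩⟩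
  by_contra h2
  have := h q (mem_sdiff.2 ⟨h1.1, h2⟩)
  omega

/-! ### Consequences of the gap lemma -/

theorem gap_below (hG : S_Gap) (hP : Par a X l W R) (h : Sol a k X n) (hp : p ∈ n.primeFactors)
    {t : ℕ} (h1 : 1 ≤ t) (h2 : t ≤ p) :
    ab (below n p) ≤ k ∧ (k : ℝ) - W / t ≤ ab (below n p) ∧ (t : ℝ) ≤ W * below n p :=
  hG a k X l n _ _ t W R hP h (U_split h.ne (filter_subset _ _)) (U_coprime disjoint_sdiff)
    (one_lt_U sdiff_subset (mem_sdiff.2 ⟨hp, by simp⟩)) h1 fun q hq hd => by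
      have h3 := mem_sdiff.1 (mem_of_dvd_U sdiff_subset hq hd)
      have h4 : ¬ q < p := fun h5 => h3.2 (mem_filter.2 ⟨h3.1, h5⟩)
      omega

theorem le_below (hG : S_Gap) (hP : Par a X l W R) (h : Sol a k X n) (hp : p ∈ n.primeFactors) :
    (p : ℝ) ≤ W * below n p :=
  (gap_below hG hP h hp (Nat.prime_of_mem_primeFactors hp).pos le_rfl).2.2

/-- The one-level case of the class. -/
theorem clT_one (hG : S_Gap) (hP : Par a X l W R) (h : Sol a k X n) (hD : Un D n)
    (hB : Bal X D (√(pw D) / R)) : ClT k X W R n := by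
  have h1 : (1 : ℝ) < n := by
    have a1 : (X : ℝ) < 2 * n := by exact_mod_cast h.lo
    have a2 : R ^ 1 ≤ R ^ 300 := pow_le_pow_right₀ (by linarith [hP.R32]) (by norm_num)
    linarith [hP.RX, hP.R32]
  obtain ⟨g1, g2, -⟩ := hG a k X l n 1 n 1 W R hP h (one_mul n).symm (Nat.coprime_one_left n)
    (by exact_mod_cast h1) le_rfl fun q hq _ => hq.pos
  refine ⟨0, 1, 1, D, h.pos.trans h.hi, by simpa using hD, by simp,
    ⟨n, (one_mul n).symm, Nat.coprime_one_left n⟩, by simp, by simpa using g2, by simpa using g1, ?_⟩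
  have : pw 1 = 1 := by simp [pw, U]
  simpa [this] using hB

end Pool.Agent.P.MP_df609a_nt.Ct
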