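import Pool.Agent.P.MP_df609a_nt.Ct.Base

/-! The greedy set when no cut gains. -/

namespace Pool.Agent.P.MP_df609a_nt.Ct

open Finset

namespace Comb

theorem pred {S : Finset ℕ} {e : ℕ} (h : (S.filter fun q => e < q).Nonempty) :
    ∃ p ∈ S, e < p ∧ up S e = p * up S p ∧ ∀ q ∈ S, e < q → p ≤ q := by
  obtain ⟨p, hp, hm⟩ := exists_min_image _ (fun q => q) h
  obtain ⟨h1, h2⟩ := mem_filter.1 hp
  refine ⟨p, h1, h2, ?_, fun q a b => hm q (mem_filter.2 ⟨a, b⟩)⟩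
  unfold up
  rw [← pr_insert (by simp)]
  congr 1
  ext q
  simp only [mem_filter, mem_insert]
  constructor
  · rintro ⟨a, b⟩
    have := hm q (mem_filter.2 ⟨a, b⟩)
    by_cases c : q = p
    · exact Or.inl c
    · exact Or.inr ⟨a, by omega⟩
  · rintro (rfl | ⟨a, b⟩)
    exacts [⟨h1, h2⟩, ⟨a, by omega⟩]

theorem big {E : Finset ℕ} {K : ℕ} {t : ℝ} (h1 : ∀ p ∈ E, 1 ≤ p) (hK : 1 ≤ K) (h2 : E.card ≤ 2 * K)
    (ht : 0 < t) (h3 : t ≤ Real.log (pr E)) : ∃ e ∈ E, t / (2 * K) ≤ Real.log e := by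
  by_contra hn
  push Not at hn
  have hK' : (0 : ℝ) < 2 * K := by positivity
  have e1 : Real.log (pr E) = ∑ p ∈ E, Real.log p := by
    unfold pr
    rw [Nat.cast_prod, Real.log_prod fun p hp => by have := h1 p hp; positivity]
  rcases E.eq_empty_or_nonempty with rfl | hE
  · simp [pr] at h3; linarith
  · have a1 := sum_lt_sum_of_nonempty hE hn
    rw [sum_const, nsmul_eq_mul] at a1
    have a2 : (E.card : ℝ) ≤ 2 * K := by exact_mod_cast h2
    have a3 : (E.card : ℝ) * (t / (2 * K)) ≤ 2 * K * (t / (2 * K)) := by gcongr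
    rw [mul_div_cancel₀ _ hK'.ne'] at a3
    linarith

/-- The hypotheses. -/
structure Hy (X : ℕ) (R : ℝ) (P S : Finset ℕ) : Prop where
  R32 : 32 ≤ R
  RX : R ^ 300 ≤ X
  pos : ∀ p ∈ P, 1 ≤ p
  sub : S ⊆ P
  gr : ∀ p ∈ P, p ∈ S ↔ (p : ℝ) * up S p ≤ √X
  den : ∀ p ∈ P, (p : ℝ) ≤ R ^ 57 * low P p
  sq : ∀ p ∈ P, (p : ℝ) ^ 2 ≤ R * X
  tot : (X : ℝ) ≤ R ^ 57 * pr P
  nc : NoCut X R P

variable {X K G : ℕ} {R y : ℝ} {P S F : Finset ℕ} {e p : ℕ}

theorem Hy.R1 (h : Hy X R P S) : 1 ≤ R := by linarith [h.R32]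

theorem Hy.Y1 (h : Hy X R P S) : 1 ≤ √(X : ℝ) := (one_le_pow₀ h.R1).trans (sqrt_ge h.RX)

theorem Hy.up1 (h : Hy X R P S) (e : ℕ) : (1 : ℝ) ≤ up S e := by
  exact_mod_cast pr_pos fun q hq => h.pos q (h.sub (mem_filter.1 hq).1)

theorem Hy.upY (h : Hy X R P S) (e : ℕ) : (up S e : ℝ) ≤ √X := by
  rcases (S.filter fun q => e < q).eq_empty_or_nonempty with h0 | h0
  · unfold up; rw [h0]; simpa [pr] using h.Y1
  · obtain ⟨p, a, -, b, -⟩ := pred h0
    rw [b, Nat.cast_mul]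
    exact (h.gr p (h.sub a)).1 a

theorem Hy.prY (h : Hy X R P S) : (pr S : ℝ) ≤ √X := by
  have := h.upY 0
  unfold up at this
  rwa [filter_true_of_mem (p := fun q => 0 < q) fun q hq => h.pos q (h.sub hq)] at this

theorem Hy.cutA (h : Hy X R P S) (hp : p ∈ P) (hF : F ⊆ P) (h1 : ∀ q ∈ F, p ≤ q)
    (h2 : (pr F : ℝ) ≤ √X) : √p * pr F < R ^ 59 * √X := by
  have a0 := h.Y1
  have a1 : 0 < R ^ 58 := pow_pos (by linarith [h.R32]) _
  have a2 : 4 * R ^ 58 ≤ R ^ 59 := by rw [pow_succ R 58]; nlinarith [h.R32]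
  have a3 : (0 : ℝ) ≤ pr F := Nat.cast_nonneg _
  have a4 := Real.sqrt_nonneg (p : ℝ)
  by_cases c : 2 ≤ √p / (2 * R ^ 58)
  · have a5 : √p / (2 * R ^ 58) * pr F < √X :=
      not_le.1 fun hh => h.nc p hp F hF h1 ⟨by nlinarith, hh⟩
    rw [div_mul_eq_mul_div, div_lt_iff₀ (by positivity)] at a5
    nlinarith
  · rw [not_le, div_lt_iff₀ (by positivity)] at c
    calc √p * pr F ≤ √p * √X := by gcongr
      _ < R ^ 59 * √X := by gcongr; linarith

theorem Hy.ins (h : Hy X R P S) (hp : p ∈ P) :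
    insert p (S.filter fun q => p < q) ⊆ P ∧ (∀ q ∈ insert p (S.filter fun q => p < q), p ≤ q) ∧
      (pr (insert p (S.filter fun q => p < q)) : ℝ) = p * up S p := by
  refine ⟨insert_subset hp ((filter_subset _ _).trans h.sub), fun q hq => ?_, ?_⟩
  · rcases mem_insert.1 hq with rfl | hq
    exacts [le_rfl, (mem_filter.1 hq).2.le]
  · rw [pr_insert (by simp), Nat.cast_mul]; rfl

theorem Hy.inS (h : Hy X R P S) (hp : p ∈ S) :
    (p : ℝ) ^ 3 * (up S p : ℝ) ^ 2 < X * R ^ 118 := by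
  obtain ⟨a, b, c⟩ := h.ins (h.sub hp)
  have d := h.cutA (h.sub hp) a b (by rw [c]; exact (h.gr p (h.sub hp)).1 hp)
  rw [c] at d
  have d2 := pow_lt_pow_left₀ d (by positivity) two_ne_zero
  rw [mul_pow, mul_pow, mul_pow, Real.sq_sqrt (Nat.cast_nonneg _),
    Real.sq_sqrt (Nat.cast_nonneg _)] at d2
  calc _ = (p : ℝ) * (p ^ 2 * (up S p : ℝ) ^ 2) := by ring
    _ < _ := d2
    _ = _ := by ring

theorem Hy.outA (h : Hy X R P S) (he : e ∈ P) : √e * up S e < R ^ 59 * √X :=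
  h.cutA he ((filter_subset _ _).trans h.sub) (fun _ hq => (mem_filter.1 hq).2.le) (h.upY e)

theorem Hy.outB (h : Hy X R P S) (he : e ∈ P \ S) :
    (X : ℝ) < R ^ 118 * (e * (up S e : ℝ) ^ 2) := by
  obtain ⟨h1, h2⟩ := mem_sdiff.1 he
  obtain ⟨a, b, c⟩ := h.ins h1
  have a0 := h.Y1
  have a1 : 0 < R ^ 58 := pow_pos (by linarith [h.R32]) _
  have a2 : 4 * R ^ 58 ≤ R ^ 59 := by rw [pow_succ R 58]; nlinarith [h.R32]
  have a3 := h.up1 e
  have a4 : 0 < √(e : ℝ) := Real.sqrt_pos.2 (by exact_mod_cast h.pos e h1)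
  have a5 : √(e : ℝ) * √e = e := Real.mul_self_sqrt (Nat.cast_nonneg _)
  have a6 : √X < (e : ℝ) * up S e := not_le.1 fun hh => h2 ((h.gr e h1).2 hh)
  have a7 : 0 < √(e : ℝ) * up S e := by positivity
  have d : √X < R ^ 59 * (√e * up S e) := by
    by_cases c1 : 1 ≤ √e / (2 * R ^ 58)
    · have a8 : √e / (2 * R ^ 58) * √X < 2 * (e * up S e) :=
        not_le.1 fun hh => h.nc e h1 _ a b ⟨by rwa [c], by rw [c]; nlinarith⟩
      rw [div_mul_eq_mul_div, div_lt_iff₀ (by positivity)] at a8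
      refine lt_of_mul_lt_mul_left ?_ a4.le
      calc √e * √X < 4 * R ^ 58 * (e * up S e) := by linarith
        _ ≤ R ^ 59 * (e * up S e) := by gcongr
        _ = √e * (R ^ 59 * (√e * up S e)) := by nth_rewrite 1 [← a5]; ring
    · rw [not_le, div_lt_one (by positivity)] at c1
      calc √X < √e * (√e * up S e) := by rw [← mul_assoc, a5]; exact a6
        _ ≤ R ^ 59 * (√e * up S e) := by gcongr; linarith
  have d2 := pow_lt_pow_left₀ d (by positivity) two_ne_zero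
  rwa [mul_pow, mul_pow, Real.sq_sqrt (Nat.cast_nonneg _), Real.sq_sqrt (Nat.cast_nonneg _),
    ← pow_mul] at d2

theorem Hy.outC (h : Hy X R P S) (he : e ∈ P \ S) :
    √X < R ^ 175 * (low (P \ S) e * up S e) := by
  obtain ⟨h1, h2⟩ := mem_sdiff.1 he
  have a0 := h.Y1
  have a1 := h.R1
  have a2 : low P e = low S e * low (P \ S) e := by
    unfold low
    rw [← pr_union (disjoint_filter_filter disjoint_sdiff), ← filter_union,
      union_sdiff_of_subset h.sub]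
  have a3 := h.den e h1
  have a4 := h.prY
  rw [low_mul_up h2, Nat.cast_mul] at a4
  rw [a2, Nat.cast_mul] at a3
  refine lt_of_mul_lt_mul_right ?_ (by linarith : 0 ≤ √(X : ℝ))
  calc √X * √X = (X : ℝ) := Real.mul_self_sqrt (Nat.cast_nonneg _)
    _ < R ^ 118 * (e * (up S e : ℝ) ^ 2) := h.outB he
    _ ≤ R ^ 118 * (R ^ 57 * (low S e * low (P \ S) e) * (up S e : ℝ) ^ 2) := by gcongr
    _ = R ^ 175 * (low (P \ S) e * up S e) * (low S e * up S e) := by ring
    _ ≤ _ := mul_le_mul_of_nonneg_left a4 (mul_nonneg (pow_nonneg (by linarith) _)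
        (mul_nonneg (Nat.cast_nonneg _) (Nat.cast_nonneg _)))

theorem Hy.prE (h : Hy X R P S) : √X ≤ R ^ 57 * pr (P \ S) := by
  have a0 := h.Y1
  have a1 := h.R1
  have a2 := h.tot
  rw [← union_sdiff_of_subset h.sub, pr_union disjoint_sdiff, Nat.cast_mul] at a2
  refine le_of_mul_le_mul_right ?_ (by linarith : 0 < √(X : ℝ))
  calc √X * √X = (X : ℝ) := Real.mul_self_sqrt (Nat.cast_nonneg _)
    _ ≤ R ^ 57 * (pr S * pr (P \ S)) := a2
    _ ≤ R ^ 57 * (√X * pr (P \ S)) := by gcongr; exact h.prY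
    _ = _ := by ring

theorem Hy.first (h : Hy X R P S) : √X ≤ R ^ 175 * pr S := by
  have a1 := h.R1
  rcases (P \ S).eq_empty_or_nonempty with h0 | h0
  · have a2 := h.prE
    have a3 := sqrt_ge h.RX
    have a4 : R ^ 57 < R ^ 150 := pow_lt_pow_right₀ (by linarith [h.R32]) (by norm_num)
    rw [h0] at a2
    simp [pr] at a2
    linarith
  · obtain ⟨e, he, hm⟩ := exists_min_image _ (fun q => q) h0
    have a2 := h.outC he
    have a3 : low (P \ S) e = 1 := by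
      unfold low
      rw [filter_false_of_mem fun q hq => not_lt.2 (hm q hq)]
      rfl
    have a4 : (up S e : ℝ) ≤ pr S := by
      exact_mod_cast pr_le (fun q hq => h.pos q (h.sub hq)) (filter_subset _ _)
    rw [a3, Nat.cast_one, one_mul] at a2
    exact a2.le.trans (by gcongr)

theorem Hy.tuned (h : Hy X R P S) (he : e ∈ P \ S) (hy : y ≤ e) :
    ∃ p ∈ S, e < p ∧ Tuned X R y S p ∧ ∀ q ∈ S, e < q → p ≤ q := by
  have a1 := h.R1
  have a2 := h.outB he
  rcases (S.filter fun q => e < q).eq_empty_or_nonempty with h0 | h0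
  · exfalso
    have a3 : up S e = 1 := by unfold up; rw [h0]; rfl
    rw [a3, Nat.cast_one, one_pow, mul_one] at a2
    have a4 := pow_lt_pow_left₀ a2 (by positivity) two_ne_zero
    have a5 := h.sq e (mem_sdiff.1 he).1
    have a6 : R ^ 237 ≤ R ^ 300 := pow_le_pow_right₀ a1 (by norm_num)
    have a7 : (X : ℝ) ^ 2 < X ^ 2 :=
      calc (X : ℝ) ^ 2 < (R ^ 118 * e) ^ 2 := a4
        _ = R ^ 236 * (e : ℝ) ^ 2 := by ring
        _ ≤ R ^ 236 * (R * X) := by gcongr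
        _ = R ^ 237 * X := by ring
        _ ≤ X * X := by gcongr; exact a6.trans h.RX
        _ = _ := by ring
    exact lt_irrefl _ a7
  · obtain ⟨p, b1, b2, b3, b4⟩ := pred h0
    have b5 : (e : ℝ) ≤ p := by exact_mod_cast b2.le
    refine ⟨p, b1, b2, ⟨hy.trans b5, ?_, h.inS b1⟩, b4⟩
    rw [b3, Nat.cast_mul] at a2
    calc (X : ℝ) < _ := a2
      _ ≤ R ^ 118 * (p * ((p : ℝ) * up S p) ^ 2) := by gcongr
      _ = _ := by ring

theorem Hy.step (h : Hy X R P S) (hK : 1 ≤ K) (hc : P.card ≤ 2 * K) (he : e ∈ P \ S)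
    (hR : 1000 * Real.log R ≤ Real.log e) :
    ∃ e' ∈ P \ S, Real.log e / (8 * K) ≤ Real.log e' ∧ e' < e ∧ up S e' ≠ up S e := by
  have a1 := h.R1
  have a2 : 0 < Real.log R := Real.log_pos (by linarith [h.R32])
  obtain ⟨f, hf, hm⟩ := exists_min_image ((P \ S).filter fun q => up S q = up S e) (fun q => q)
    ⟨e, mem_filter.2 ⟨he, rfl⟩⟩
  obtain ⟨b1, b2⟩ := mem_filter.1 hf
  have b3 := h.outC b1
  have b4 := h.outA (mem_sdiff.1 he).1
  have b5 := h.up1 e
  have b0 : (1 : ℝ) ≤ e := by exact_mod_cast h.pos e (mem_sdiff.1 he).1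
  have p1 : ∀ q ∈ (P \ S).filter fun q => q < f, 1 ≤ q :=
    fun q hq => h.pos q (mem_sdiff.1 (mem_filter.1 hq).1).1
  have p2 : (1 : ℝ) ≤ low (P \ S) f := by exact_mod_cast pr_pos p1
  rw [b2] at b3
  have b6 : √e < R ^ 234 * low (P \ S) f := by
    refine lt_of_mul_lt_mul_right ?_ (by linarith : (0 : ℝ) ≤ up S e)
    calc √e * up S e < R ^ 59 * √X := b4
      _ ≤ R ^ 59 * (R ^ 175 * (low (P \ S) f * up S e)) := by gcongr
      _ = _ := by ring
  have b7 := Real.log_le_log (Real.sqrt_pos.2 (by linarith)) b6.le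
  rw [Real.log_sqrt (by linarith), Real.log_mul (by positivity) (by positivity),
    Real.log_pow] at b7
  obtain ⟨g, c1, c2⟩ := big (t := Real.log e / 4) p1 hK
    ((card_le_card ((filter_subset _ _).trans sdiff_subset)).trans hc) (by linarith)
    (by push_cast at b7; unfold low at b7; linarith)
  obtain ⟨c3, c4⟩ := mem_filter.1 c1
  have c5 := hm e (mem_filter.2 ⟨he, rfl⟩)
  refine ⟨g, c3, le_trans (le_of_eq (by ring)) c2, by omega, fun hh => ?_⟩
  have := hm g (mem_filter.2 ⟨c3, hh⟩)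
  omega

theorem Hy.chain (h : Hy X R P S) (hC : Cnd X K G R y) (hc : P.card ≤ 2 * K) (g : ℕ)
    (hg : g + 1 ≤ G) : ∃ e ∈ P \ S, Real.log X / (8 * K) ^ (g + 1) ≤ Real.log e ∧
      ∃ T ⊆ S, g + 1 ≤ T.card ∧ ∀ p ∈ T, e < p ∧ Tuned X R y S p := by
  have a1 := h.R1
  have a2 : 0 < Real.log R := Real.log_pos (by linarith [h.R32])
  have k1 : (1 : ℝ) ≤ K := by exact_mod_cast hC.K1
  have y0 : 0 < Real.log y := Real.log_pos (by linarith [hC.y2])
  have key : ∀ j ≤ G, ∀ e ∈ P \ S, Real.log X / (8 * K) ^ j ≤ Real.log e →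
      Real.log y ≤ Real.log e ∧ y ≤ e := fun j hj e he hl => by
    have b1 : (8 * K : ℝ) ^ j ≤ (8 * K) ^ G := pow_le_pow_right₀ (by linarith) hj
    have b2 : Real.log y ≤ Real.log X / (8 * K) ^ j := by
      rw [le_div_iff₀ (by positivity)]
      nlinarith [hC.KG]
    have b3 : (0 : ℝ) < e := by exact_mod_cast h.pos e (mem_sdiff.1 he).1
    exact ⟨b2.trans hl, (Real.log_le_log_iff (by linarith [hC.y2]) b3).1 (b2.trans hl)⟩
  induction g with
  | zero =>
    have p1 : ∀ q ∈ P \ S, 1 ≤ q := fun q hq => h.pos q (mem_sdiff.1 hq).1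
    have p2 : (1 : ℝ) ≤ pr (P \ S) := by exact_mod_cast pr_pos p1
    have b1 := Real.log_le_log (by linarith [h.Y1]) h.prE
    have b2 := Real.log_le_log (by positivity) h.RX
    rw [Real.log_sqrt (Nat.cast_nonneg _), Real.log_mul (by positivity) (by positivity),
      Real.log_pow] at b1
    rw [Real.log_pow] at b2
    push_cast at b1 b2
    obtain ⟨e, c1, c2⟩ := big (t := Real.log X / 4) p1 hC.K1
      ((card_le_card sdiff_subset).trans hc) (by linarith) (by linarith)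
    have c3 : Real.log X / (8 * K) ^ (0 + 1) ≤ Real.log e := le_trans (le_of_eq (by ring)) c2
    obtain ⟨p, d1, d2, d3, -⟩ := h.tuned c1 (key _ hg e c1 c3).2
    exact ⟨e, c1, c3, {p}, by simpa using d1, by simp, by simpa using ⟨d2, d3⟩⟩
  | succ g ih =>
    obtain ⟨e, c1, c2, T, c3, c4, c5⟩ := ih (by omega)
    obtain ⟨f, d1, d2, d3, d4⟩ := h.step hC.K1 hc c1 (hC.Ry.trans (key _ (by omega) e c1 c2).1)
    have d5 : Real.log X / (8 * K) ^ (g + 1 + 1) ≤ Real.log f := by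
      refine le_trans ?_ d2
      rw [pow_succ, ← div_div]
      gcongr
    obtain ⟨p, e1, e2, e3, e4⟩ := h.tuned d1 (key _ hg f d1 d5).2
    have e5 : p ∉ T := fun hp => d4 (by
      have := (c5 p hp).1
      unfold up
      congr 1
      exact filter_congr fun q hq => ⟨fun hh => by have := e4 q hq hh; omega, fun hh => by omega⟩)
    refine ⟨f, d1, d5, insert p T, insert_subset e1 c3, by rw [card_insert_of_notMem e5]; omega,
      fun q hq => ?_⟩
    rcases mem_insert.1 hq with rfl | hq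
    exacts [⟨e2, e3⟩, ⟨d3.trans (c5 q hq).1, (c5 q hq).2⟩]

end Comb

theorem p_Comb : S_Comb := by
  intro X K G R y P S h1 h2 hC h3 h4 h5 h6 h7 h8 h9
  have h : Comb.Hy X R P S := ⟨h1, h2, h3, h4, h5, h6, h7, h8, h9⟩
  refine ⟨h.first, fun hc => ?_⟩
  rcases G with _ | g
  · exact ⟨∅, empty_subset _, Nat.zero_le _, by simp⟩
  · obtain ⟨e, -, -, T, a, b, c⟩ := h.chain hC hc g le_rfl
    exact ⟨T, a, b, fun p hp => (c p hp).2⟩

end Pool.Agent.P.MP_df609a_nt.Ct
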