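import Pool.Agent.P.MP_df609a_nt.Ct.Base

/-! The cut lemma and the main case. -/

namespace Pool.Agent.P.MP_df609a_nt.Ct

open Finset

namespace Cut

variable {a k X l n p q : ℕ} {S F : Finset ℕ} {W R : ℝ}

/-- The primes of the squarefree part are dense. -/
theorem dens (hG : S_Gap) (hP : Par a X l W R) (h : Sol a k X n) (hw : (pw n : ℝ) ≤ R ^ 56)
    (hq : q ∈ PP n) : (q : ℝ) ≤ R ^ 57 * low (PP n) q := by
  have h1 := le_below hG hP h (PP_subset n hq)
  have h2 : (below n q : ℝ) ≤ pw n * low (PP n) q := by exact_mod_cast below_le n q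
  have h3 := hP.W16
  have h4 : W ≤ R := by linarith [hP.WR]
  have h5 := hP.R32
  calc (q : ℝ) ≤ W * below n q := h1
    _ ≤ R * (R ^ 56 * low (PP n) q) := by
      gcongr
      exact h2.trans (by gcongr)
    _ = R ^ 57 * low (PP n) q := by ring

theorem pw_pr (hS : S ⊆ PP n) : pw n * pr S = U n (n.primeFactors \ (PP n \ S)) := by
  rw [U_eq_pw_mul sdiff_subset, pw_compl sdiff_subset]
  congr 2
  ext q
  simp only [mem_inter, mem_sdiff]
  constructor
  · intro h1
    exact ⟨⟨PP_subset n (hS h1), fun h2 => h2.2 h1⟩, hS h1⟩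
  · rintro ⟨⟨-, h1⟩, h2⟩
    by_contra h3
    exact h1 ⟨h2, h3⟩

/-- The greedy set below `p` nearly reaches the bound. -/
theorem reach (hd : ∀ q ∈ PP n, (q : ℝ) ≤ R ^ 57 * low (PP n) q) (hp : p ∈ PP n) {Y : ℝ}
    (hY : Y ≤ p) (hS : S ⊆ (PP n).filter fun q => q < p)
    (h1 : ∀ q ∈ (PP n).filter fun q => q < p, q ∈ S ↔ (q : ℝ) * up S q ≤ Y) :
    Y ≤ R ^ 57 * pr S := by
  rcases (((PP n).filter fun q => q < p) \ S).eq_empty_or_nonempty with h | h
  · have e : S = (PP n).filter fun q => q < p := Subset.antisymm hS (sdiff_eq_empty_iff_subset.1 h)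
    rw [e]
    exact hY.trans (hd p hp)
  · obtain ⟨q, hq, hm⟩ := exists_min_image _ (fun q : ℕ => q) h
    obtain ⟨q1, q2⟩ := mem_sdiff.1 hq
    have q3 := mem_filter.1 q1
    have e1 : low S q = low (PP n) q := by
      rw [low_eq_of_min hS hm]
      unfold low
      congr 1
      ext r
      simp only [mem_filter]
      exact ⟨fun h2 => ⟨h2.1.1, h2.2⟩, fun h2 => ⟨⟨h2.1, h2.2.trans q3.2⟩, h2.2⟩⟩
    have e2 : Y < q * up S q := not_le.1 fun h2 => q2 ((h1 q q1).2 h2)
    rw [low_mul_up q2, e1]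
    push_cast
    calc Y ≤ q * up S q := e2.le
      _ ≤ R ^ 57 * low (PP n) q * up S q := by gcongr; exact hd q q3.1
      _ = _ := by ring

end Cut

open Cut

theorem p_Cut (hG : S_Gap) : S_Cut := by
  intro a k X l n W R hP h hw
  refine or_iff_not_imp_right.2 fun hN => ?_
  unfold NoCut at hN
  push Not at hN
  obtain ⟨p, hp, F, hF, hFp, h1, h2⟩ := hN
  have hR := hP.R32
  have hpp := PP_prime hp
  have hpf := PP_subset n hp
  set i := Nat.log 2 p with hi
  have i1 : 2 ^ i ≤ p := Nat.pow_log_le_self 2 hpp.ne_zero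
  have i2 : p < 2 ^ (i + 1) := Nat.lt_pow_succ_log_self (by norm_num) p
  have i3 : 1 ≤ 2 ^ i := Nat.one_le_two_pow
  have j1 : (2 : ℝ) ^ i ≤ p := by exact_mod_cast i1
  have j2 : (p : ℝ) < 2 ^ (i + 1) := by exact_mod_cast i2
  have j3 : (1 : ℝ) ≤ 2 ^ i := by exact_mod_cast i3
  have y1 : 1 ≤ √((2 : ℝ) ^ i) := Real.one_le_sqrt.2 j3
  have y2 : √((2 : ℝ) ^ i) ≤ p := by
    refine le_trans ?_ j1
    rw [Real.sqrt_le_left (by positivity)]
    nlinarith
  obtain ⟨S, hS, g1, g2⟩ := greedy ((PP n).filter fun q => q < p) y1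
  have hb := reach (fun q hq => dens hG hP h hw hq) hp y2 hS g1
  set A := n.primeFactors.filter fun q => q < p with hA
  have hSP : S ⊆ PP n := hS.trans (filter_subset _ _)
  have hSA : S ⊆ A := hS.trans (filter_subset_filter _ (PP_subset n))
  have hAF : A ⊆ n.primeFactors \ F := fun q hq => by
    have := mem_filter.1 hq
    exact mem_sdiff.2 ⟨this.1, fun h3 => by have := hFp q h3; omega⟩
  have e1 : U n (A \ S) * pr S = below n p := by
    rw [← U_PP hSP, ← U_union sdiff_disjoint, sdiff_union_of_subset hSA]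
    rfl
  have e2 : U n (A \ S) * pr S * U n ((n.primeFactors \ F) \ A) = U n (n.primeFactors \ F) := by
    rw [e1]
    change U n A * _ = _
    rw [← U_union disjoint_sdiff, union_sdiff_of_subset hAF]
  obtain ⟨c1, c2, -⟩ := gap_below hG hP h hpf i3 i1
  refine ⟨i, U n (A \ S), pr S, U n ((n.primeFactors \ F) \ A), ?_, ?_, ?_, ?_, ?_, ?_, ?_, ?_⟩
  · exact i1.trans ((Nat.le_of_mem_primeFactors hpf).trans h.hi)
  · rw [e2]; exact un_U h.ne sdiff_subset
  · rw [← U_PP hSP]; exact U_coprime disjoint_sdiff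
  · rw [← U_PP hSP]; exact un_U h.ne (hSP.trans (PP_subset n))
  · have : (pr S : ℝ) ^ 2 ≤ 2 ^ i := (Real.le_sqrt (by positivity) (by positivity)).1 g2
    exact_mod_cast this
  · rw [e1]; exact_mod_cast c2
  · rw [e1]; exact c1
  · rw [e2]
    refine (bal_of h (split_PP h.ne hF) h1 h2).mono ?_
    have s1 : √(p : ℝ) ≤ 2 * √((2 : ℝ) ^ i) := by
      rw [Real.sqrt_le_left (by positivity), mul_pow, Real.sq_sqrt (by positivity)]
      rw [pow_succ] at j2
      linarith
    have s2 : (1 : ℝ) ≤ √(pw (U n (A \ S))) :=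
      Real.one_le_sqrt.2 (by exact_mod_cast pw_pos _)
    have s3 : (1 : ℝ) ≤ √(pw (U n ((n.primeFactors \ F) \ A))) :=
      Real.one_le_sqrt.2 (by exact_mod_cast pw_pos _)
    calc √(p : ℝ) / (2 * R ^ 58) ≤ 2 * (R ^ 57 * pr S) / (2 * R ^ 58) := by
          gcongr
          exact s1.trans (by gcongr)
      _ = 1 * 1 * pr S / R := by field_simp
      _ ≤ _ := by gcongr

theorem p_Main (hG : S_Gap) (hC : S_Cut) (hB : S_Comb) : S_Main := by
  intro a k X l K G n W R y hP hc h hw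
  rcases hC a k X l n W R hP h hw with h0 | h0
  · exact Or.inl h0
  refine Or.inr ?_
  have hR := hP.R32
  have hW := hP.W16
  have hWR : W ≤ R := by linarith [hP.WR]
  have r1 : (1 : ℝ) ≤ R := by linarith
  have y1 : 1 ≤ √(X : ℝ) := (one_le_pow₀ r1).trans (sqrt_ge hP.RX)
  obtain ⟨S, hS, g1, g2⟩ := greedy (PP n) y1
  have hi : (n : ℝ) ≤ X := by exact_mod_cast h.hi
  have sq : ∀ p ∈ PP n, (p : ℝ) ^ 2 ≤ R * X := fun p hp => by
    have h1 := le_below hG hP h (PP_subset n hp)
    have h2 : p * below n p ≤ n := by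
      have h3 := below_succ (PP_subset n hp)
      rw [(mem_filter.1 hp).2, pow_one] at h3
      rw [← h3]
      exact (U_le (filter_subset _ _)).trans_eq (U_self h.ne)
    have h3 : (p : ℝ) * below n p ≤ n := by exact_mod_cast h2
    calc (p : ℝ) ^ 2 = p * p := sq _
      _ ≤ p * (W * below n p) := by gcongr
      _ = W * (p * below n p) := by ring
      _ ≤ R * X := by gcongr; exact h3.trans hi
  have big : (X : ℝ) ≤ R ^ 57 * pr (PP n) := by
    have h1 : (X : ℝ) < 2 * (pw n * pr (PP n)) := by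
      have := h.lo
      rw [pw_mul_pr h.ne] at this
      exact_mod_cast this
    calc (X : ℝ) ≤ 2 * (pw n * pr (PP n)) := h1.le
      _ ≤ R * (R ^ 56 * pr (PP n)) := by gcongr; linarith
      _ = _ := by ring
  obtain ⟨b1, b2⟩ := hB X K G R y (PP n) S hR hP.RX hc (fun p hp => (PP_prime hp).pos) hS g1
    (fun q hq => dens hG hP h hw hq) sq big h0
  have un1 : Un (pw n * pr S) n := by rw [pw_pr hS]; exact un_U h.ne sdiff_subset
  have w1 : (1 : ℝ) ≤ pw n := by exact_mod_cast pw_pos n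
  have bal1 : Bal X (pw n * pr S) (R ^ 175) := by
    constructor
    · push_cast
      refine b1.trans ?_
      gcongr
      exact le_mul_of_one_le_left (by positivity) w1
    · push_cast
      gcongr
      exact hw.trans (pow_le_pow_right₀ r1 (by norm_num))
  by_cases hk : (PP n).card ≤ 2 * K
  · exact Or.inr ⟨pw n, S, ⟨fun p hp => PP_prime (hS hp), (card_le_card hS).trans hk, b2 hk⟩,
      un1, bal1⟩
  refine Or.inl ?_
  by_cases hk1 : K ≤ S.card
  · exact ⟨pw n, pr S, un1, bal1, by rwa [primeFactors_pr fun p hp => PP_prime (hS hp)]⟩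
  have e : pw n * pr (PP n \ S) = U n (n.primeFactors \ S) := by
    rw [pw_pr sdiff_subset, Finset.sdiff_sdiff_eq_self hS]
  refine ⟨pw n, pr (PP n \ S), ?_, ?_, ?_⟩
  · rw [e]; exact un_U h.ne sdiff_subset
  · rw [e]
    refine bal_of h (split_PP h.ne hS) ?_ b1
    have : (2 : ℝ) ≤ R ^ 175 :=
      le_trans (by linarith) (le_self_pow₀ r1 (by norm_num))
    gcongr
  · rw [primeFactors_pr fun p hp => PP_prime (mem_sdiff.1 hp).1]
    have := card_sdiff_add_card_eq_card hS
    omega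

end Pool.Agent.P.MP_df609a_nt.Ct
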