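import Mathlib

/-! Counting solutions of the divisor sum congruence: definitions and interface statements. -/

namespace Pool.Agent.P.MP_df609a_nt.Ct

open Finset Filter

/-- The sum of the divisors. -/
def sg (n : ℕ) : ℕ := ∑ d ∈ n.divisors, d

/-- The abundancy. -/
noncomputable def ab (n : ℕ) : ℝ := (sg n : ℝ) / n

/-- Regular solutions. -/
def Reg (a n : ℕ) : Prop := ∃ p m : ℕ, p.Prime ∧ ¬ p ∣ m ∧ m ∣ sg m ∧ sg m = a ∧ n = p * m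

/-- The solutions in a dyadic range. -/
structure Sol (a k X n : ℕ) : Prop where
  lo : X < 2 * n
  hi : n ≤ X
  eq : sg n = k * n + a
  nr : ¬ Reg a n

/-- The part of `n` made of the primes in `S`. -/
def U (n : ℕ) (S : Finset ℕ) : ℕ := ∏ p ∈ S, p ^ n.factorization p

/-- The powerful part. -/
def pw (n : ℕ) : ℕ := U n (n.primeFactors.filter fun p => 2 ≤ n.factorization p)

/-- The primes dividing `n` exactly once. -/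
def PP (n : ℕ) : Finset ℕ := n.primeFactors.filter fun p => n.factorization p = 1

/-- The part of `n` made of the primes below `p`. -/
def below (n p : ℕ) : ℕ := U n (n.primeFactors.filter fun q => q < p)

/-- The product of a set. -/
def pr (S : Finset ℕ) : ℕ := ∏ q ∈ S, q

/-- The product of the elements above `p`. -/
def up (S : Finset ℕ) (p : ℕ) : ℕ := pr (S.filter fun q => p < q)

/-- The product of the elements below `p`. -/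
def low (S : Finset ℕ) (p : ℕ) : ℕ := pr (S.filter fun q => q < p)

/-- Unitary divisors. -/
def Un (D n : ℕ) : Prop := ∃ f, n = D * f ∧ Nat.Coprime D f

/-- `D` is within a factor `ρ` of the square root of `X`. -/
def Bal (X D : ℕ) (ρ : ℝ) : Prop := √X ≤ ρ * D ∧ (D : ℝ) ≤ ρ * √X

/-- The basic parameters. -/
structure Par (a X l : ℕ) (W R : ℝ) : Prop where
  a1 : 1 ≤ a
  l4 : 4 ≤ l
  Xl : X < 2 ^ l
  lW : (l : ℝ) ^ 2 ≤ W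
  WR : 2 * W ≤ R
  RX : R ^ 300 ≤ X
  aR : (a : ℝ) ≤ R

/-- The parameters of the tuned class. -/
structure Cnd (X K G : ℕ) (R y : ℝ) : Prop where
  K1 : 1 ≤ K
  y2 : 2 ≤ y
  KG : (8 * K : ℝ) ^ G * Real.log y ≤ Real.log X
  Ry : 1000 * Real.log R ≤ Real.log y

/-- The two-level class. -/
def ClT (k X : ℕ) (W R : ℝ) (n : ℕ) : Prop :=
  ∃ i c b u : ℕ, 2 ^ i ≤ X ∧ Un (c * b * u) n ∧ Nat.Coprime b c ∧ Un b n ∧ b ^ 2 ≤ 2 ^ i ∧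
    (k : ℝ) - W / 2 ^ i ≤ ab (c * b) ∧ ab (c * b) ≤ k ∧
    Bal X (c * b * u) (√(pw c) * √(pw u) * b / R)

/-- The class with a high power of a small prime. -/
def ClQ (X : ℕ) (R : ℝ) (n : ℕ) : Prop :=
  ∃ z v u : ℕ, 2 ≤ z ∧ (z : ℝ) ≤ R ^ 7 ∧ R ^ 20 ≤ (z : ℝ) ^ v ∧ Un (z ^ v * u) n ∧
    Bal X (z ^ v * u) (R ^ 2 * √((z : ℝ) ^ v) * √(pw u))

/-- The class with many primes. -/
def ClM (X K : ℕ) (R : ℝ) (n : ℕ) : Prop :=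
  ∃ s d : ℕ, Un (s * d) n ∧ Bal X (s * d) (R ^ 175) ∧ K ≤ d.primeFactors.card

/-- The element `p` lies in a short window fixed by the larger elements of `S`. -/
def Tuned (X : ℕ) (R y : ℝ) (S : Finset ℕ) (p : ℕ) : Prop :=
  y ≤ p ∧ (X : ℝ) < (p : ℝ) ^ 3 * (up S p : ℝ) ^ 2 * R ^ 118 ∧
    (p : ℝ) ^ 3 * (up S p : ℝ) ^ 2 < X * R ^ 118

/-- Sets of primes with many tuned elements. -/
def Many (X K G : ℕ) (R y : ℝ) (S : Finset ℕ) : Prop :=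
  (∀ p ∈ S, p.Prime) ∧ S.card ≤ 2 * K ∧ ∃ T ⊆ S, G ≤ T.card ∧ ∀ p ∈ T, Tuned X R y S p

/-- The tuned class. -/
def ClU (X K G : ℕ) (R y : ℝ) (n : ℕ) : Prop :=
  ∃ (s : ℕ) (S : Finset ℕ), Many X K G R y S ∧ Un (s * pr S) n ∧ Bal X (s * pr S) (R ^ 175)

/-- The saving for one tuned prime. -/
noncomputable def sv (K : ℕ) (R y : ℝ) : ℝ :=
  (2 * K + 1) * (3 * (2 * Real.log (R ^ 79) + 1) / Real.log y)

/-- The total bound, divided by the square root of `X`. -/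
noncomputable def Tot (a l K G : ℕ) (W R y : ℝ) : ℝ :=
  (l + 1) * (3 * a ^ 2 * (l * (a * (1 + W)) * l ^ 6 / R + l ^ 4 / R + R ^ 175 * l ^ 3 / 2 ^ K +
    R ^ 175 * l * (sv K R y ^ G * l)))

/-- The exponent of the saving. -/
noncomputable def ex (x : ℝ) : ℝ :=
  Real.log (Real.log x) ^ 2 / Real.log (Real.log (Real.log x))

/-! ### Counting -/

def S_Farey : Prop :=
  ∀ (a : ℕ) (u η B : ℝ) (N : Finset ℕ), 1 ≤ a → 0 ≤ η → 0 ≤ B →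
    (∀ b ∈ N, 1 ≤ b ∧ (b : ℝ) ^ 2 ≤ B ∧ Nat.gcd b (sg b) ∣ a ∧ u ≤ ab b ∧ ab b ≤ u + η) →
    (N.card : ℝ) ≤ a * (1 + η * B)

def S_Code : Prop :=
  ∀ (ι : Type) (a k X : ℕ) (I : Finset ι) (D : ι → ℕ) (ρ : ι → ℝ) (N : Finset ℕ), 1 ≤ a →
    (∀ i ∈ I, 0 ≤ ρ i) → (∀ n ∈ N, Sol a k X n ∧ ∃ i ∈ I, Un (D i) n ∧ Bal X (D i) (ρ i)) →
    (N.card : ℝ) ≤ 3 * a ^ 2 * √X * ∑ i ∈ I, ρ i / D i

def S_Harm : Prop :=
  ∀ X l : ℕ, 4 ≤ l → X < 2 ^ l →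
    ∑ t ∈ Icc 1 X, (1 / t : ℝ) ≤ l ∧ ∑ t ∈ Icc 1 X, √(pw t) / t ≤ (l : ℝ) ^ 3 ∧
    ∑ t ∈ Icc 1 X, (2 : ℝ) ^ t.primeFactors.card / t ≤ (l : ℝ) ^ 2

def S_T : Prop :=
  ∀ (a k X l : ℕ) (W R : ℝ) (N : Finset ℕ), Par a X l W R →
    (∀ n ∈ N, Sol a k X n ∧ ClT k X W R n) →
    (N.card : ℝ) ≤ 3 * a ^ 2 * √X * (l * (a * (1 + W)) * l ^ 6 / R)

def S_Q : Prop :=
  ∀ (a k X l : ℕ) (W R : ℝ) (N : Finset ℕ), Par a X l W R →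
    (∀ n ∈ N, Sol a k X n ∧ ClQ X R n) → (N.card : ℝ) ≤ 3 * a ^ 2 * √X * (l ^ 4 / R)

def S_M : Prop :=
  ∀ (a k X l K : ℕ) (W R : ℝ) (N : Finset ℕ), Par a X l W R →
    (∀ n ∈ N, Sol a k X n ∧ ClM X K R n) →
    (N.card : ℝ) ≤ 3 * a ^ 2 * √X * (R ^ 175 * l ^ 3 / 2 ^ K)

def S_Win : Prop :=
  ∀ (y ρ : ℝ) (N : Finset ℕ), 2 ≤ y → 1 ≤ ρ → (∀ p ∈ N, p.Prime ∧ y ≤ p) →
    (∀ p ∈ N, ∀ q ∈ N, (p : ℝ) ≤ ρ * q) →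
    ∑ p ∈ N, (1 / p : ℝ) ≤ 3 * (2 * Real.log ρ + 1) / Real.log y

def S_Z : Prop :=
  ∀ (X l K G : ℕ) (R y : ℝ) (F : Finset (Finset ℕ)), 4 ≤ l → X < 2 ^ l → 1 ≤ R → 2 ≤ y →
    (∀ S ∈ F, Many X K G R y S ∧ pr S ≤ X) → ∑ S ∈ F, (1 / pr S : ℝ) ≤ sv K R y ^ G * l

def S_U : Prop :=
  ∀ (a k X l K G : ℕ) (W R y : ℝ) (N : Finset ℕ), Par a X l W R → 2 ≤ y →
    (∀ n ∈ N, Sol a k X n ∧ ClU X K G R y n) →
    (N.card : ℝ) ≤ 3 * a ^ 2 * √X * (R ^ 175 * l * (sv K R y ^ G * l))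

/-! ### Structure -/

def S_K : Prop := ∀ a k X l n : ℕ, 4 ≤ l → X < 2 ^ l → Sol a k X n → k ≤ l

def S_Gap : Prop :=
  ∀ (a k X l n d e p : ℕ) (W R : ℝ), Par a X l W R → Sol a k X n → n = d * e → Nat.Coprime d e →
    1 < e → 1 ≤ p → (∀ q, q.Prime → q ∣ e → p ≤ q) →
    ab d ≤ k ∧ (k : ℝ) - W / p ≤ ab d ∧ (p : ℝ) ≤ W * d

/-- No cut gains. -/
def NoCut (X : ℕ) (R : ℝ) (P : Finset ℕ) : Prop :=
  ∀ p ∈ P, ∀ F ⊆ P, (∀ q ∈ F, p ≤ q) →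
    ¬ (2 * (pr F : ℝ) ≤ √p / (2 * R ^ 58) * √X ∧ √X ≤ √p / (2 * R ^ 58) * pr F)

def S_Cut : Prop :=
  ∀ (a k X l n : ℕ) (W R : ℝ), Par a X l W R → Sol a k X n → (pw n : ℝ) ≤ R ^ 56 →
    ClT k X W R n ∨ NoCut X R (PP n)

def S_Comb : Prop :=
  ∀ (X K G : ℕ) (R y : ℝ) (P S : Finset ℕ), 32 ≤ R → R ^ 300 ≤ X → Cnd X K G R y →
    (∀ p ∈ P, 1 ≤ p) → S ⊆ P → (∀ p ∈ P, p ∈ S ↔ (p : ℝ) * up S p ≤ √X) →
    (∀ p ∈ P, (p : ℝ) ≤ R ^ 57 * low P p) → (∀ p ∈ P, (p : ℝ) ^ 2 ≤ R * X) →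
    (X : ℝ) ≤ R ^ 57 * pr P → NoCut X R P →
    √X ≤ R ^ 175 * pr S ∧
      (P.card ≤ 2 * K → ∃ T ⊆ S, G ≤ T.card ∧ ∀ p ∈ T, Tuned X R y S p)

def S_Main : Prop :=
  ∀ (a k X l K G n : ℕ) (W R y : ℝ), Par a X l W R → Cnd X K G R y → Sol a k X n →
    (pw n : ℝ) ≤ R ^ 56 → ClT k X W R n ∨ ClM X K R n ∨ ClU X K G R y n

def S_PowA : Prop :=
  ∀ (a k X l n : ℕ) (W R : ℝ), Par a X l W R → Sol a k X n → R ^ 56 < (pw n : ℝ) →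
    √X < (pr (PP n) : ℝ) → ClT k X W R n ∨ ClQ X R n

def S_PowB : Prop :=
  ∀ (a k X l n : ℕ) (W R : ℝ), Par a X l W R → Sol a k X n → R ^ 56 < (pw n : ℝ) →
    (pr (PP n) : ℝ) ≤ √X → ClT k X W R n ∨ ClQ X R n

/-! ### Parameters -/

def S_Asy : Prop :=
  ∀ a : ℕ, 1 ≤ a → ∀ᶠ X : ℕ in atTop, ∃ (l K G : ℕ) (W R y : ℝ), Par a X l W R ∧ Cnd X K G R y ∧
    Tot a l K G W R y ≤ Real.exp (-(ex X / 8000))

def S_Dy : Prop :=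
  ∀ (P : ℕ → Prop) (c : ℝ), 0 < c →
    (∀ᶠ X : ℕ in atTop, ∀ N : Finset ℕ, (∀ n ∈ N, X < 2 * n ∧ n ≤ X ∧ P n) →
      (N.card : ℝ) ≤ √X * Real.exp (-(c * ex X))) →
    ∀ᶠ x : ℝ in atTop, ∀ N : Finset ℕ, (∀ n ∈ N, (n : ℝ) ≤ x ∧ P n) →
      (N.card : ℝ) ≤ √x * Real.exp (-(c / 4 * ex x))

end Pool.Agent.P.MP_df609a_nt.Ct
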