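import Pool.Agent.P.MP_df609a_nt.Ct.Base

/-! Summing the dyadic bounds. -/

namespace Pool.Agent.P.MP_df609a_nt.Ct

open Finset Filter

namespace Dy

/-- The dyadic decomposition. -/
theorem dy (P : ℕ → Prop) (T M0 : ℕ) (B : ℝ) (hB : 0 ≤ B)
    (H : ∀ X, T < X → X ≤ M0 → ∀ N : Finset ℕ, (∀ n ∈ N, X < 2 * n ∧ n ≤ X ∧ P n) →
      (N.card : ℝ) ≤ B) (J : ℕ) :
    ∀ M, M ≤ M0 → M < 2 ^ J → ∀ N : Finset ℕ, (∀ n ∈ N, n ≤ M ∧ P n) →
      (N.card : ℝ) ≤ T + 1 + J * B := by
  have small : ∀ N : Finset ℕ, (∀ n ∈ N, n ≤ T) → (N.card : ℝ) ≤ T + 1 := fun N hN => by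
    have h1 : N ⊆ range (T + 1) := fun n hn => mem_range.2 (Nat.lt_succ_of_le (hN n hn))
    have h2 := card_le_card h1
    rw [card_range] at h2
    exact_mod_cast h2
  induction J with
  | zero =>
    intro M _ h2 N hN
    have := small N fun n hn => by have := (hN n hn).1; omega
    simpa using this
  | succ J ih =>
    intro M h1 h2 N hN
    by_cases hT : M ≤ T
    · have h3 := small N fun n hn => (hN n hn).1.trans hT
      have h4 : (0 : ℝ) ≤ ((J + 1 : ℕ) : ℝ) * B := by positivity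
      linarith
    · have h3 := H M (not_le.1 hT) h1 (N.filter fun n => M < 2 * n) fun n hn =>
        ⟨(mem_filter.1 hn).2, hN n (mem_filter.1 hn).1⟩
      have h4 := ih (M / 2) ((Nat.div_le_self _ _).trans h1) (by rw [pow_succ] at h2; omega)
        (N.filter fun n => ¬ M < 2 * n) fun n hn =>
          ⟨by have := (mem_filter.1 hn).2; omega, (hN n (mem_filter.1 hn).1).2⟩
      have h5 := card_filter_add_card_filter_not (s := N) fun n => M < 2 * n
      have h6 : (N.card : ℝ) = ((N.filter fun n => M < 2 * n).card : ℝ) +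
          ((N.filter fun n => ¬ M < 2 * n).card : ℝ) := by exact_mod_cast h5.symm
      push_cast
      linarith

theorem log_four : Real.log 4 ≤ 2 := by
  have h : Real.log 4 = 2 * Real.log 2 := by
    rw [show (4 : ℝ) = 2 ^ 2 by norm_num, Real.log_pow]; norm_num
  linarith [Real.log_two_lt_d9]

/-- The exponent loses at most a factor two between `x ^ (1 / 4)` and `x`. -/
theorem ex_half {x y : ℝ} (hL : 0 < Real.log x) (hu : 8 ≤ Real.log (Real.log x))
    (h1 : Real.exp (Real.log x / 4) ≤ y) (h2 : y ≤ x) : ex x / 2 ≤ ex y := by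
  have hy : 0 < y := (Real.exp_pos _).trans_le h1
  have a1 : Real.log x / 4 ≤ Real.log y := (Real.le_log_iff_exp_le hy).2 h1
  have a2 : Real.log y ≤ Real.log x := Real.log_le_log hy h2
  have a3 : Real.log (Real.log x) - 2 ≤ Real.log (Real.log y) := by
    have := Real.log_le_log (by positivity) a1
    rw [Real.log_div hL.ne' (by norm_num)] at this
    linarith [log_four]
  have a4 : Real.log (Real.log y) ≤ Real.log (Real.log x) := Real.log_le_log (by linarith) a2
  have a5 : 0 < Real.log (Real.log (Real.log y)) := Real.log_pos (by linarith)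
  have a6 : Real.log (Real.log (Real.log y)) ≤ Real.log (Real.log (Real.log x)) :=
    Real.log_le_log (by linarith) a4
  unfold ex
  rw [div_right_comm]
  refine div_le_div₀ (sq_nonneg _) ?_ a5 a6
  nlinarith

/-- The facts about `u = log log x`. -/
theorem ev_u {c : ℝ} (hc : 0 < c) :
    ∀ᶠ u : ℝ in atTop, 8 ≤ u ∧ 12 * c ≤ u ∧ 12 * Real.log u ≤ c * u := by
  have h := Real.isLittleO_log_id_atTop.bound (c := c / 12) (by positivity)
  filter_upwards [h, eventually_ge_atTop 8, eventually_ge_atTop (12 * c)] with u h1 h2 h3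
  refine ⟨h2, h3, ?_⟩
  rw [Real.norm_eq_abs, Real.norm_eq_abs, id, abs_of_nonneg (by linarith : (0 : ℝ) ≤ u)] at h1
  linarith [le_abs_self (Real.log u)]

theorem num_a {c L : ℝ} (hL : 0 < L) (hu : 8 ≤ Real.log L)
    (h : 12 * Real.log (Real.log L) ≤ c * Real.log L) :
    6 * L ≤ Real.exp (c / 4 * (Real.log L ^ 2 / Real.log (Real.log L))) := by
  have hv : 0 < Real.log (Real.log L) := Real.log_pos (by linarith)
  have h1 : 3 * Real.log L ≤ c / 4 * (Real.log L ^ 2 / Real.log (Real.log L)) := by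
    rw [← mul_div_assoc, le_div_iff₀ hv]
    nlinarith
  have h2 : (6 : ℝ) ≤ Real.exp (2 * Real.log L) := by
    linarith [Real.add_one_le_exp (2 * Real.log L)]
  calc 6 * L = 6 * Real.exp (Real.log L) := by rw [Real.exp_log hL]
    _ ≤ Real.exp (2 * Real.log L) * Real.exp (Real.log L) := by gcongr
    _ = Real.exp (3 * Real.log L) := by rw [← Real.exp_add]; ring_nf
    _ ≤ _ := Real.exp_le_exp.2 h1

theorem num_b {c L : ℝ} (hc : 0 < c) (hL : 0 < L) (hu : 8 ≤ Real.log L)
    (h : 12 * c ≤ Real.log L) :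
    2 + c / 4 * (Real.log L ^ 2 / Real.log (Real.log L)) ≤ L / 4 := by
  have hv : 1 ≤ Real.log (Real.log L) := by
    rw [Real.le_log_iff_exp_le (by linarith)]
    linarith [Real.exp_one_lt_d9]
  have h1 : Real.log L ^ 2 / Real.log (Real.log L) ≤ Real.log L ^ 2 :=
    div_le_self (sq_nonneg _) hv
  have h2 := Real.pow_div_factorial_le_exp (Real.log L) (by linarith) 3
  rw [Real.exp_log hL] at h2
  norm_num [Nat.factorial] at h2
  have h3 : c / 4 * (Real.log L ^ 2 / Real.log (Real.log L)) ≤ c / 4 * Real.log L ^ 2 := by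
    gcongr
  have h4 : 12 * c * Real.log L ^ 2 ≤ Real.log L * Real.log L ^ 2 := by gcongr
  have h5 : (8 : ℝ) ^ 3 ≤ Real.log L ^ 3 := by gcongr
  nlinarith

theorem log_le {x : ℝ} (hx : 1 ≤ x) : (Nat.log 2 ⌊x⌋₊ : ℝ) ≤ 2 * Real.log x := by
  have h0 : ⌊x⌋₊ ≠ 0 := (Nat.floor_pos.2 hx).ne'
  have h1 : ((2 : ℝ)) ^ Nat.log 2 ⌊x⌋₊ ≤ x := by
    have := Nat.pow_log_le_self 2 h0
    exact le_trans (by exact_mod_cast this) (Nat.floor_le (by linarith))
  have h2 := Real.log_le_log (by positivity) h1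
  rw [Real.log_pow] at h2
  have h3 : (0 : ℝ) ≤ Nat.log 2 ⌊x⌋₊ := Nat.cast_nonneg _
  nlinarith [Real.log_two_gt_d9]

end Dy

theorem p_Dy : S_Dy := by
  intro P c hc H
  obtain ⟨X0, H⟩ := eventually_atTop.1 H
  have t1 : Tendsto (fun x : ℝ => Real.log (Real.log x)) atTop atTop :=
    Real.tendsto_log_atTop.comp Real.tendsto_log_atTop
  have t2 : Tendsto (fun x : ℝ => Real.exp (Real.log x / 4)) atTop atTop :=
    Real.tendsto_exp_atTop.comp (Real.tendsto_log_atTop.atTop_div_const (by norm_num))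
  filter_upwards [t1.eventually (Dy.ev_u hc), t2.eventually_ge_atTop X0,
    eventually_ge_atTop 1, Real.tendsto_log_atTop.eventually_ge_atTop 2] with x hu hX hx hL N hN
  obtain ⟨u1, u2, u3⟩ := hu
  have hL0 : 0 < Real.log x := by linarith
  have ha : 6 * Real.log x ≤ Real.exp (c / 4 * ex x) := Dy.num_a hL0 u1 u3
  have hb : 2 + c / 4 * ex x ≤ Real.log x / 4 := Dy.num_b hc hL0 u1 u2
  set t := Real.exp (Real.log x / 4) with ht
  set E := Real.exp (-(c / 4 * ex x)) with hE
  have hE0 : 0 < E := Real.exp_pos _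
  have hs : √x = t * t := by
    rw [ht, ← Real.exp_add, Real.sqrt_eq_iff_mul_self_eq (by linarith) (Real.exp_pos _).le,
      ← Real.exp_add]
    rw [show Real.log x / 4 + Real.log x / 4 + (Real.log x / 4 + Real.log x / 4) = Real.log x by
      ring, Real.exp_log (by linarith)]
  have ht1 : 1 ≤ t := Real.one_le_exp (by positivity)
  have key := Dy.dy P ⌊t⌋₊ ⌊x⌋₊ (√x * (E * E)) (by positivity) (fun X h1 h2 M hM => by
      have b1 : t ≤ X := (Nat.lt_of_floor_lt h1).le
      have b2 : (X : ℝ) ≤ x := le_trans (by exact_mod_cast h2) (Nat.floor_le (by linarith))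
      have b3 : X0 ≤ X := by exact_mod_cast hX.trans b1
      have b4 := Dy.ex_half hL0 u1 b1 b2
      refine (H X b3 M hM).trans ?_
      rw [hE, ← Real.exp_add]
      gcongr
      nlinarith)
    (Nat.log 2 ⌊x⌋₊ + 1) ⌊x⌋₊ le_rfl (Nat.lt_pow_succ_log_self (by norm_num) _) N
    fun n hn => ⟨Nat.le_floor (hN n hn).1, (hN n hn).2⟩
  have c1 : (⌊t⌋₊ : ℝ) ≤ t := Nat.floor_le (by linarith)
  have c2 : ((Nat.log 2 ⌊x⌋₊ + 1 : ℕ) : ℝ) ≤ 3 * Real.log x := by
    push_cast
    linarith [Dy.log_le hx]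
  have c3 : 6 * Real.log x * E ≤ 1 := by
    calc 6 * Real.log x * E ≤ Real.exp (c / 4 * ex x) * E := by gcongr
      _ = 1 := by rw [hE, ← Real.exp_add]; simp
  have c4 : 4 ≤ t * E := by
    rw [ht, hE, ← Real.exp_add]
    have e1 : Real.exp 2 ≤ Real.exp (Real.log x / 4 + -(c / 4 * ex x)) :=
      Real.exp_le_exp.2 (by linarith)
    have e2 := Real.quadratic_le_exp_of_nonneg (x := 2) (by norm_num)
    linarith
  have c5 : ((Nat.log 2 ⌊x⌋₊ + 1 : ℕ) : ℝ) * (√x * (E * E)) ≤ √x * E / 2 := by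
    calc _ ≤ 3 * Real.log x * (√x * (E * E)) := by gcongr
      _ = 6 * Real.log x * E * (√x * E / 2) := by ring
      _ ≤ 1 * (√x * E / 2) := by gcongr
      _ = _ := one_mul _
  have c6 : 4 * t ≤ √x * E := by
    rw [hs]
    nlinarith
  linarith

end Pool.Agent.P.MP_df609a_nt.Ct
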