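import Pool.Agent.P.MP_df609a_nt.Ct.Sharp
import Pool.Agent.P.MP_df609a_nt.Ct.Asy
import Pool.Agent.P.MP_df609a_nt.Ct.Dy

/-! Parameters and summation for the sharper form. -/

namespace Pool.Agent.P.MP_df609a_nt.Ct

open Finset Filter Real

/-- The total bound, divided by the square root of `X`. -/
noncomputable def Tot2 (a l K G : ℕ) (W R y : ℝ) : ℝ :=
  (l + 1) * (3 * a ^ 2 * (l * (a * (1 + W)) * l ^ 6 / R + l ^ 4 / R + R ^ 175 * l ^ 3 / 2 ^ K +
    R ^ 175 * l * (sw K R y ^ G * l)))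

namespace FinP

theorem sw_le {K : ℕ} {u : ℝ} (hu : 10 ^ 8 ≤ u) (hK : (K : ℝ) ≤ u ^ 2 + 1) :
    0 ≤ sw K (exp (u ^ 2 / 5000)) (exp (exp (u / 2))) ∧
      sw K (exp (u ^ 2 / 5000)) (exp (exp (u / 2))) ≤ exp (-(u / 3)) := by
  unfold sw
  rw [log_exp, log_pow, log_exp]
  refine ⟨by positivity, ?_⟩
  have u2 : (100 : ℝ) ≤ u ^ 2 := by nlinarith
  have a1 : (2 * K + 1 : ℝ) ≤ 3 * u ^ 2 := by linarith
  have a2 : 2 * (((236 : ℕ) : ℝ) * (u ^ 2 / 5000)) + 1 ≤ u ^ 2 := by push_cast; linarith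
  have a3 : (u / 6) ^ 5 / (Nat.factorial 5 : ℝ) ≤ exp (u / 6) :=
    pow_div_factorial_le_exp _ (by linarith) 5
  have a4 : 18 * u ^ 4 ≤ exp (u / 6) := by
    refine le_trans ?_ a3
    have : (0 : ℝ) ≤ u ^ 4 := by positivity
    have e : (u / 6) ^ 5 / (Nat.factorial 5 : ℝ) = u ^ 4 * (u / 933120) := by
      norm_num [Nat.factorial]; ring
    rw [e]
    nlinarith
  have e1 : exp (-(u / 3)) = exp (u / 6) / exp (u / 2) := by
    rw [← exp_sub]; congr 1; ring
  rw [e1, ← mul_div_assoc, ← mul_div_assoc]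
  refine div_le_div_of_nonneg_right (le_trans ?_ a4) (exp_pos _).le
  calc 2 * ((2 * K + 1 : ℝ) * (3 * (2 * (((236 : ℕ) : ℝ) * (u ^ 2 / 5000)) + 1)))
      ≤ 2 * (3 * u ^ 2 * (3 * u ^ 2)) := by gcongr
    _ = 18 * u ^ 4 := by ring

theorem core {a X : ℕ} {u : ℝ} (ha : 1 ≤ a) (hX : 8 ≤ X) (hL : log X = exp u) (hu : 10 ^ 8 ≤ u)
    (hau : (a : ℝ) ≤ u) :
    ∃ (l K G : ℕ) (W R y : ℝ), Par a X l W R ∧ Cnd2 X K G R y ∧
      Tot2 a l K G W R y ≤ exp (-(1 / 10000 * u ^ 2)) := by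
  have u0 : 0 < u := by linarith
  have f2 : 10 ^ 8 * u ≤ u ^ 2 := by nlinarith
  have u2 : (100 : ℝ) ≤ u ^ 2 := by nlinarith
  have hl := AsyP.len_le hX hL (by linarith)
  set l := Nat.log 2 X + 1 with hld
  have P1 := add_one_le_exp (2 * u)
  set P := exp (2 * u) with hPd
  have hK1 : u ^ 2 ≤ (⌈u ^ 2⌉₊ : ℝ) := Nat.le_ceil _
  have hK2 : (⌈u ^ 2⌉₊ : ℝ) ≤ u ^ 2 + 1 := (Nat.ceil_lt_add_one (by positivity)).le
  set K := ⌈u ^ 2⌉₊ with hKd
  have hG1 : (⌊u / 8⌋₊ : ℝ) ≤ u / 8 := Nat.floor_le (by positivity)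
  have hG2 : u / 8 ≤ (⌊u / 8⌋₊ : ℝ) + 1 := (Nat.lt_floor_add_one _).le
  set G := ⌊u / 8⌋₊ with hGd
  have PR : P ^ 3 ≤ exp (u ^ 2 / 5000) := by
    rw [hPd, ← exp_nat_mul, exp_le_exp]; push_cast; linarith
  have l0 : (0 : ℝ) ≤ l := Nat.cast_nonneg _
  have X0 : (0 : ℝ) < X := by exact_mod_cast (by omega : 0 < X)
  obtain ⟨s0, s1⟩ := sw_le (K := K) hu hK2
  refine ⟨l, K, G, (l : ℝ) ^ 2, exp (u ^ 2 / 5000), exp (exp (u / 2)),
    ⟨ha, ?_, Nat.lt_pow_succ_log_self (by norm_num) X, le_rfl, ?_, ?_, ?_⟩, ⟨?_, ?_, ?_⟩, ?_⟩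
  · have : 3 ≤ Nat.log 2 X := Nat.le_log_of_pow_le (by norm_num) hX
    omega
  · refine le_trans ?_ PR
    have : (l : ℝ) ^ 2 ≤ P ^ 2 := by gcongr; linarith
    nlinarith [sq_nonneg P]
  · rw [← exp_nat_mul, ← le_log_iff_exp_le X0, hL]
    have := pow_div_factorial_le_exp u u0.le 2
    norm_num [Nat.factorial] at this ⊢
    linarith
  · refine le_trans ?_ PR
    have : P ^ 1 ≤ P ^ 3 := pow_le_pow_right₀ (by linarith) (by norm_num)
    linarith
  · have h1 := add_one_le_exp (exp (u / 2))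
    have h2 := add_one_le_exp (u / 2)
    linarith
  · rw [log_exp, hL]
    have h1 : (8 * K : ℝ) < exp (u / 16) := by
      have h3 := pow_div_factorial_le_exp (u / 16) (by linarith) 3
      have e : (u / 16) ^ 3 / (Nat.factorial 3 : ℝ) = u ^ 2 * (u / 24576) := by
        norm_num [Nat.factorial]; ring
      rw [e] at h3
      nlinarith
    have h2 : (5 : ℝ) ^ (2 * G) ≤ exp (7 * u / 16) := by
      have h3 := log_two_lt_d9
      have h4 : (0 : ℝ) ≤ G := Nat.cast_nonneg _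
      calc (5 : ℝ) ^ (2 * G) = 25 ^ G := by rw [pow_mul]; norm_num
        _ ≤ (2 ^ 5) ^ G := by gcongr; norm_num
        _ = exp (((5 * G : ℕ) : ℝ) * log 2) := by rw [exp_nat_mul, exp_log two_pos, pow_mul]
        _ ≤ _ := by rw [exp_le_exp]; push_cast; nlinarith
    calc (5 : ℝ) ^ (2 * G) * (8 * K * exp (u / 2)) ≤ exp (7 * u / 16) * (8 * K * exp (u / 2)) := by
          gcongr
      _ < exp (7 * u / 16) * (exp (u / 16) * exp (u / 2)) := by gcongr
      _ = exp u := by rw [← exp_add, ← exp_add]; congr 1; ring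
  · rw [log_exp, log_exp]
    have h3 := pow_div_factorial_le_exp (u / 2) (by linarith) 3
    have e : (u / 2) ^ 3 / (Nat.factorial 3 : ℝ) = u ^ 2 * (u / 48) := by
      norm_num [Nat.factorial]; ring
    rw [e] at h3
    nlinarith
  · have e1 : (1 : ℝ) / exp (u ^ 2 / 5000) = exp (-(u ^ 2 / 5000)) := by rw [exp_neg, one_div]
    have hA : exp (u ^ 2 / 5000) ^ 175 / 2 ^ K ≤ 1 / exp (u ^ 2 / 5000) := by
      have h2 : (2 : ℝ) ^ K = exp (K * log 2) := by rw [exp_nat_mul, exp_log two_pos]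
      rw [e1, h2, ← exp_nat_mul, ← exp_sub, exp_le_exp]
      have h3 := log_two_gt_d9
      have h4 : u ^ 2 * 0.6 ≤ K * log 2 := by gcongr; linarith
      push_cast
      linarith
    have hB : exp (u ^ 2 / 5000) ^ 175 * sw K (exp (u ^ 2 / 5000)) (exp (exp (u / 2))) ^ G ≤
        P / exp (u ^ 2 / 5000) := by
      refine (mul_le_mul_of_nonneg_left (pow_le_pow_left₀ s0 s1 G) (by positivity)).trans ?_
      rw [hPd, ← exp_sub, ← exp_nat_mul, ← exp_nat_mul, ← exp_add, exp_le_exp]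
      have h2 : u / 3 * (u / 8) ≤ u / 3 * (G + 1) := by gcongr
      push_cast
      nlinarith
    have h := AsyP.tot_le (a := a) (l := l) (by linarith) (by linarith) hl (exp_pos _)
      (by positivity) hA (by positivity) hB
    refine le_trans (le_of_eq ?_) (h.trans ?_)
    · unfold Tot2; ring
    · rw [hPd, ← exp_nat_mul, ← exp_sub, exp_le_exp]
      push_cast
      linarith

theorem asy (a : ℕ) (ha : 1 ≤ a) :
    ∀ᶠ X : ℕ in atTop, ∃ (l K G : ℕ) (W R y : ℝ), Par a X l W R ∧ Cnd2 X K G R y ∧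
      Tot2 a l K G W R y ≤ exp (-(1 / 10000 * log (log X) ^ 2)) := by
  have t : Tendsto (fun X : ℕ => log (log (X : ℝ))) atTop atTop :=
    tendsto_log_atTop.comp (tendsto_log_atTop.comp tendsto_natCast_atTop_atTop)
  filter_upwards [t.eventually_ge_atTop (10 ^ 8), t.eventually_ge_atTop a,
    eventually_ge_atTop 8] with X b2 b3 b4
  have X1 : (1 : ℝ) < X := by exact_mod_cast (by omega : 1 < X)
  exact core ha b4 (exp_log (log_pos X1)).symm b2 b3

theorem sq_half {x y : ℝ} (hL : 0 < log x) (hu : 8 ≤ log (log x)) (h1 : exp (log x / 4) ≤ y) :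
    log (log x) ^ 2 / 2 ≤ log (log y) ^ 2 := by
  have hy : 0 < y := (exp_pos _).trans_le h1
  have a1 : log x / 4 ≤ log y := (le_log_iff_exp_le hy).2 h1
  have a3 : log (log x) - 2 ≤ log (log y) := by
    have := log_le_log (by positivity) a1
    rw [log_div hL.ne' (by norm_num)] at this
    linarith [Dy.log_four]
  nlinarith

theorem dyadic (P : ℕ → Prop) {c : ℝ} (hc : 0 < c)
    (H : ∀ᶠ X : ℕ in atTop, ∀ N : Finset ℕ, (∀ n ∈ N, X < 2 * n ∧ n ≤ X ∧ P n) →
      (N.card : ℝ) ≤ √X * exp (-(c * log (log X) ^ 2))) :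
    ∀ᶠ x : ℝ in atTop, ∀ N : Finset ℕ, (∀ n ∈ N, (n : ℝ) ≤ x ∧ P n) →
      (N.card : ℝ) ≤ √x * exp (-(c / 4 * log (log x) ^ 2)) := by
  obtain ⟨X0, H⟩ := eventually_atTop.1 H
  have t1 : Tendsto (fun x : ℝ => log (log x)) atTop atTop :=
    tendsto_log_atTop.comp tendsto_log_atTop
  have t2 : Tendsto (fun x : ℝ => exp (log x / 4)) atTop atTop :=
    tendsto_exp_atTop.comp (tendsto_log_atTop.atTop_div_const (by norm_num))
  filter_upwards [t1.eventually_ge_atTop 8, t1.eventually_ge_atTop (12 * c),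
    t1.eventually_ge_atTop (12 / c), t2.eventually_ge_atTop X0,
    eventually_ge_atTop 1, tendsto_log_atTop.eventually_ge_atTop 2] with x u1 u2 u3 hX hx hL N hN
  have hL0 : 0 < log x := by linarith
  rw [div_le_iff₀ hc] at u3
  have ha : 6 * log x ≤ exp (c / 4 * log (log x) ^ 2) := by
    have h2 : (6 : ℝ) ≤ exp (2 * log (log x)) := by linarith [add_one_le_exp (2 * log (log x))]
    calc 6 * log x = 6 * exp (log (log x)) := by rw [exp_log hL0]
      _ ≤ exp (2 * log (log x)) * exp (log (log x)) := by gcongr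
      _ = exp (3 * log (log x)) := by rw [← exp_add]; ring_nf
      _ ≤ _ := exp_le_exp.2 (by nlinarith)
  have hb : 2 + c / 4 * log (log x) ^ 2 ≤ log x / 4 := by
    have h2 := pow_div_factorial_le_exp (log (log x)) (by linarith) 3
    rw [exp_log hL0] at h2
    norm_num [Nat.factorial] at h2
    have h4 : 12 * c * log (log x) ^ 2 ≤ log (log x) * log (log x) ^ 2 := by gcongr
    have h5 : (8 : ℝ) ^ 3 ≤ log (log x) ^ 3 := by gcongr
    nlinarith
  set t := exp (log x / 4) with ht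
  set E := exp (-(c / 4 * log (log x) ^ 2)) with hE
  have hE0 : 0 < E := exp_pos _
  have hs : √x = t * t := by
    rw [ht, ← exp_add, sqrt_eq_iff_mul_self_eq (by linarith) (exp_pos _).le, ← exp_add]
    rw [show log x / 4 + log x / 4 + (log x / 4 + log x / 4) = log x by ring,
      exp_log (by linarith)]
  have ht1 : 1 ≤ t := one_le_exp (by positivity)
  have key := Dy.dy P ⌊t⌋₊ ⌊x⌋₊ (√x * (E * E)) (by positivity) (fun X h1 h2 M hM => by
      have b1 : t ≤ X := (Nat.lt_of_floor_lt h1).le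
      have b2 : (X : ℝ) ≤ x := le_trans (by exact_mod_cast h2) (Nat.floor_le (by linarith))
      have b3 : X0 ≤ X := by exact_mod_cast hX.trans b1
      have b4 := sq_half hL0 u1 b1
      refine (H X b3 M hM).trans ?_
      rw [hE, ← exp_add]
      gcongr
      nlinarith)
    (Nat.log 2 ⌊x⌋₊ + 1) ⌊x⌋₊ le_rfl (Nat.lt_pow_succ_log_self (by norm_num) _) N
    fun n hn => ⟨Nat.le_floor (hN n hn).1, (hN n hn).2⟩
  have c1 : (⌊t⌋₊ : ℝ) ≤ t := Nat.floor_le (by linarith)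
  have c2 : ((Nat.log 2 ⌊x⌋₊ + 1 : ℕ) : ℝ) ≤ 3 * log x := by
    push_cast
    linarith [Dy.log_le hx]
  have c3 : 6 * log x * E ≤ 1 := by
    calc 6 * log x * E ≤ exp (c / 4 * log (log x) ^ 2) * E := by gcongr
      _ = 1 := by rw [hE, ← exp_add]; simp
  have c4 : 4 ≤ t * E := by
    rw [ht, hE, ← exp_add]
    have e1 : exp 2 ≤ exp (log x / 4 + -(c / 4 * log (log x) ^ 2)) := exp_le_exp.2 (by linarith)
    have e2 := quadratic_le_exp_of_nonneg (x := 2) (by norm_num)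
    linarith
  have c5 : ((Nat.log 2 ⌊x⌋₊ + 1 : ℕ) : ℝ) * (√x * (E * E)) ≤ √x * E / 2 := by
    calc _ ≤ 3 * log x * (√x * (E * E)) := by gcongr
      _ = 6 * log x * E * (√x * E / 2) := by ring
      _ ≤ 1 * (√x * E / 2) := by gcongr
      _ = _ := one_mul _
  have c6 : 4 * t ≤ √x * E := by
    rw [hs]
    nlinarith
  linarith

theorem one_k (hG : S_Gap) (hC : S_Code) (hH : S_Harm) (hT : S_T) (hQ : S_Q) (h2 : S_PowA)
    (h3 : S_PowB) {a k X l K G : ℕ} {W R y : ℝ} (hP : Par a X l W R) (hc : Cnd2 X K G R y)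
    (N : Finset ℕ) (hN : ∀ n ∈ N, Sol a k X n) :
    (N.card : ℝ) ≤ √X * (3 * a ^ 2 * (l * (a * (1 + W)) * l ^ 6 / R + l ^ 4 / R +
      R ^ 175 * l ^ 3 / 2 ^ K + R ^ 175 * l * (sw K R y ^ G * l))) := by
  classical
  have a1 := hT a k X l W R (N.filter (ClT k X W R)) hP
    fun n hn => ⟨hN n (mem_filter.1 hn).1, (mem_filter.1 hn).2⟩
  have a2 := hQ a k X l W R (N.filter (ClQ X R)) hP
    fun n hn => ⟨hN n (mem_filter.1 hn).1, (mem_filter.1 hn).2⟩
  have a3 := p_M hC hH a k X l K W R (N.filter (ClM X K R)) hP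
    fun n hn => ⟨hN n (mem_filter.1 hn).1, (mem_filter.1 hn).2⟩
  have a4 := Sharp.cardV hC hH p_Win (N.filter (ClV X K G R y)) hP hc.y2
    fun n hn => ⟨hN n (mem_filter.1 hn).1, (mem_filter.1 hn).2⟩
  have hs : N ⊆ N.filter (ClT k X W R) ∪ N.filter (ClQ X R) ∪ N.filter (ClM X K R) ∪
      N.filter (ClV X K G R y) := fun n hn => by
    simp only [mem_union, mem_filter, hn, true_and]
    rcases le_or_gt (pw n : ℝ) (R ^ 56) with h | h
    · have := Sharp.main hG hP hc (hN n hn) h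
      tauto
    · rcases lt_or_ge (√X) (pr (PP n) : ℝ) with h' | h'
      · have := h2 a k X l n W R hP (hN n hn) h h'
        tauto
      · have := h3 a k X l n W R hP (hN n hn) h h'
        tauto
  have hd : N.card ≤ (N.filter (ClT k X W R)).card + (N.filter (ClQ X R)).card +
      (N.filter (ClM X K R)).card + (N.filter (ClV X K G R y)).card :=
    (card_le_card hs).trans ((card_union_le _ _).trans (Nat.add_le_add_right
      ((card_union_le _ _).trans (Nat.add_le_add_right (card_union_le _ _) _)) _))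
  have hd' : (N.card : ℝ) ≤ (N.filter (ClT k X W R)).card + (N.filter (ClQ X R)).card +
      (N.filter (ClM X K R)).card + (N.filter (ClV X K G R y)).card := by exact_mod_cast hd
  linarith

theorem all_k (hK : S_K) (hG : S_Gap) (hC : S_Code) (hH : S_Harm) (hT : S_T) (hQ : S_Q)
    (h2 : S_PowA) (h3 : S_PowB) {a X l K G : ℕ} {W R y : ℝ} (hP : Par a X l W R)
    (hc : Cnd2 X K G R y) (N : Finset ℕ)
    (hN : ∀ n ∈ N, X < 2 * n ∧ n ≤ X ∧ sg n ≡ a [MOD n] ∧ ¬ Reg a n) :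
    (N.card : ℝ) ≤ √X * Tot2 a l K G W R y := by
  have hs : ∀ n ∈ N, Sol a ((sg n - a) / n) X n := fun n hn => by
    obtain ⟨b1, b2, b3, b4⟩ := hN n hn
    have c1 : (X : ℝ) < 2 * n := by exact_mod_cast b1
    have c2 : R ^ 2 ≤ R ^ 300 := pow_le_pow_right₀ (by linarith [hP.R32]) (by norm_num)
    have c3 : (a : ℝ) ≤ n := by nlinarith [hP.RX, hP.R32, hP.aR]
    have c4 : a ≤ sg n := le_trans (by exact_mod_cast c3) (le_sg n)
    refine ⟨b1, b2, ?_, b4⟩
    rw [Nat.div_mul_cancel ((Nat.modEq_iff_dvd' c4).1 b3.symm)]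
    omega
  have hm : Set.MapsTo (fun n => (sg n - a) / n) (N : Set ℕ) (range (l + 1) : Finset ℕ) :=
    fun n hn => by
      have := hK a _ X l n hP.l4 hP.Xl (hs n hn)
      simp only [coe_range, Set.mem_Iio]
      omega
  rw [card_eq_sum_card_fiberwise hm, Nat.cast_sum]
  refine (sum_le_sum fun k _ => one_k (k := k) hG hC hH hT hQ h2 h3 hP hc _ fun n hn => by
    have := hs n (mem_filter.1 hn).1
    rwa [(mem_filter.1 hn).2] at this).trans (le_of_eq ?_)
  rw [sum_const, card_range, nsmul_eq_mul, Tot2]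
  push_cast
  ring

end FinP

theorem final2 (hK : S_K) (hG : S_Gap) (hC : S_Code) (hH : S_Harm) (hT : S_T) (hQ : S_Q)
    (h2 : S_PowA) (h3 : S_PowB) (a : ℕ) (ha : 1 ≤ a) :
    ∀ᶠ x : ℝ in atTop, (Set.ncard {n : ℕ | (n : ℝ) ≤ x ∧ sg n ≡ a [MOD n] ∧ ¬ Reg a n} : ℝ) ≤
      √x * exp (-(1 / 40000 * log (log x) ^ 2)) := by
  have h := FinP.dyadic (fun n => sg n ≡ a [MOD n] ∧ ¬ Reg a n) (c := 1 / 10000) (by norm_num) (by
    filter_upwards [FinP.asy a ha] with X ⟨l, K, G, W, R, y, hP, hc, hB⟩ N hN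
    refine (FinP.all_k hK hG hC hH hT hQ h2 h3 hP hc N hN).trans ?_
    gcongr)
  filter_upwards [h] with x hx
  have hf : {n : ℕ | (n : ℝ) ≤ x ∧ sg n ≡ a [MOD n] ∧ ¬ Reg a n}.Finite :=
    (Set.finite_le_nat ⌊x⌋₊).subset fun n hn => Nat.le_floor hn.1
  rw [Set.ncard_eq_toFinset_card _ hf, show (1 / 40000 : ℝ) = 1 / 10000 / 4 by norm_num]
  exact hx _ fun n hn => (hf.mem_toFinset.1 hn)

end Pool.Agent.P.MP_df609a_nt.Ct
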