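import Pool.Agent.P.MP_df609a_nt.Ct.Base

/-! Putting the parts together. -/

namespace Pool.Agent.P.MP_df609a_nt.Ct

open Finset Filter

theorem one_k (hT : S_T) (hQ : S_Q) (hM : S_M) (hU : S_U) (h1 : S_Main) (h2 : S_PowA)
    (h3 : S_PowB) {a k X l K G : ℕ} {W R y : ℝ} (hP : Par a X l W R) (hC : Cnd X K G R y)
    (N : Finset ℕ) (hN : ∀ n ∈ N, Sol a k X n) :
    (N.card : ℝ) ≤ √X * (3 * a ^ 2 * (l * (a * (1 + W)) * l ^ 6 / R + l ^ 4 / R +
      R ^ 175 * l ^ 3 / 2 ^ K + R ^ 175 * l * (sv K R y ^ G * l))) := by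
  classical
  have a1 := hT a k X l W R (N.filter (ClT k X W R)) hP
    fun n hn => ⟨hN n (mem_filter.1 hn).1, (mem_filter.1 hn).2⟩
  have a2 := hQ a k X l W R (N.filter (ClQ X R)) hP
    fun n hn => ⟨hN n (mem_filter.1 hn).1, (mem_filter.1 hn).2⟩
  have a3 := hM a k X l K W R (N.filter (ClM X K R)) hP
    fun n hn => ⟨hN n (mem_filter.1 hn).1, (mem_filter.1 hn).2⟩
  have a4 := hU a k X l K G W R y (N.filter (ClU X K G R y)) hP hC.y2
    fun n hn => ⟨hN n (mem_filter.1 hn).1, (mem_filter.1 hn).2⟩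
  have hs : N ⊆ N.filter (ClT k X W R) ∪ N.filter (ClQ X R) ∪ N.filter (ClM X K R) ∪
      N.filter (ClU X K G R y) := fun n hn => by
    simp only [mem_union, mem_filter, hn, true_and]
    rcases le_or_gt (pw n : ℝ) (R ^ 56) with h | h
    · have := h1 a k X l K G n W R y hP hC (hN n hn) h
      tauto
    · rcases lt_or_ge (√X) (pr (PP n) : ℝ) with h' | h'
      · have := h2 a k X l n W R hP (hN n hn) h h'
        tauto
      · have := h3 a k X l n W R hP (hN n hn) h h'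
        tauto
  have hc : N.card ≤ (N.filter (ClT k X W R)).card + (N.filter (ClQ X R)).card +
      (N.filter (ClM X K R)).card + (N.filter (ClU X K G R y)).card :=
    (card_le_card hs).trans ((card_union_le _ _).trans (Nat.add_le_add_right
      ((card_union_le _ _).trans (Nat.add_le_add_right (card_union_le _ _) _)) _))
  have hc' : (N.card : ℝ) ≤ (N.filter (ClT k X W R)).card + (N.filter (ClQ X R)).card +
      (N.filter (ClM X K R)).card + (N.filter (ClU X K G R y)).card := by exact_mod_cast hc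
  linarith

theorem all_k (hK : S_K) (hT : S_T) (hQ : S_Q) (hM : S_M) (hU : S_U) (h1 : S_Main) (h2 : S_PowA)
    (h3 : S_PowB) {a X l K G : ℕ} {W R y : ℝ} (hP : Par a X l W R) (hC : Cnd X K G R y)
    (N : Finset ℕ) (hN : ∀ n ∈ N, X < 2 * n ∧ n ≤ X ∧ sg n ≡ a [MOD n] ∧ ¬ Reg a n) :
    (N.card : ℝ) ≤ √X * Tot a l K G W R y := by
  have hs : ∀ n ∈ N, Sol a ((sg n - a) / n) X n := fun n hn => by
    obtain ⟨b1, b2, b3, b4⟩ := hN n hn
    have c1 : (X : ℝ) < 2 * n := by exact_mod_cast b1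
    have c2 : R ^ 2 ≤ R ^ 300 := pow_le_pow_right₀ (by linarith [hP.R32]) (by norm_num)
    have c3 : (a : ℝ) ≤ n := by nlinarith [hP.RX, hP.R32, hP.aR]
    have c4 : a ≤ sg n := le_trans (by exact_mod_cast c3) (le_sg n)
    refine ⟨b1, b2, ?_, b4⟩
    rw [Nat.div_mul_cancel ((Nat.modEq_iff_dvd' c4).1 b3.symm)]
    omega
  have hm : Set.MapsTo (fun n => (sg n - a) / n) (N : Set ℕ) (range (l + 1) : Finset ℕ) :=
    fun n hn => by
      have := hK a _ X l n hP.l4 hP.Xl (hs n hn)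
      simp only [coe_range, Set.mem_Iio]
      omega
  rw [card_eq_sum_card_fiberwise hm, Nat.cast_sum]
  refine (sum_le_sum fun k _ => one_k (k := k) hT hQ hM hU h1 h2 h3 hP hC _ fun n hn => by
    have := hs n (mem_filter.1 hn).1
    rwa [(mem_filter.1 hn).2] at this).trans (le_of_eq ?_)
  rw [sum_const, card_range, nsmul_eq_mul, Tot]
  push_cast
  ring

theorem final (hK : S_K) (hT : S_T) (hQ : S_Q) (hM : S_M) (hU : S_U) (h1 : S_Main) (h2 : S_PowA)
    (h3 : S_PowB) (hA : S_Asy) (hD : S_Dy) (a : ℕ) (ha : 1 ≤ a) :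
    ∀ᶠ x : ℝ in atTop, (Set.ncard {n : ℕ | (n : ℝ) ≤ x ∧ sg n ≡ a [MOD n] ∧ ¬ Reg a n} : ℝ) ≤
      √x * Real.exp (-(1 / 32000 * ex x)) := by
  have h := hD (fun n => sg n ≡ a [MOD n] ∧ ¬ Reg a n) (1 / 8000) (by norm_num) (by
    filter_upwards [hA a ha] with X ⟨l, K, G, W, R, y, hP, hC, hB⟩ N hN
    refine (all_k hK hT hQ hM hU h1 h2 h3 hP hC N hN).trans ?_
    rw [show 1 / 8000 * ex X = ex X / 8000 by ring]
    gcongr)
  filter_upwards [h] with x hx
  have hf : {n : ℕ | (n : ℝ) ≤ x ∧ sg n ≡ a [MOD n] ∧ ¬ Reg a n}.Finite :=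
    (Set.finite_le_nat ⌊x⌋₊).subset fun n hn => Nat.le_floor hn.1
  rw [Set.ncard_eq_toFinset_card _ hf, show (1 / 32000 : ℝ) = 1 / 8000 / 4 by norm_num]
  exact hx _ fun n hn => (hf.mem_toFinset.1 hn)

end Pool.Agent.P.MP_df609a_nt.Ct
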