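import Pool.Agent.P.MP_df609a_nt.Ct.Base

/-! The classes with many primes and with tuned primes; sums over primes in short windows. -/

namespace Pool.Agent.P.MP_df609a_nt.Ct

open Finset

namespace MU

theorem mem_of_un {a k X n s d : ℕ} (h : Sol a k X n) (hU : Un (s * d) n) :
    s ∈ Icc 1 X ∧ d ∈ Icc 1 X := by
  obtain ⟨h1, h2⟩ := hU.le h.pos
  have hs : 1 ≤ s := Nat.pos_of_ne_zero fun e => by simp [e] at h1
  have hd : 1 ≤ d := Nat.pos_of_ne_zero fun e => by simp [e] at h1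
  have h3 := h2.trans h.hi
  exact ⟨mem_Icc.2 ⟨hs, (Nat.le_mul_of_pos_right _ hd).trans h3⟩,
    mem_Icc.2 ⟨hd, (Nat.le_mul_of_pos_left _ hs).trans h3⟩⟩

theorem block {y : ℝ} {m : ℕ} {B : Finset ℕ} (hy : 2 ≤ y) (hm : 1 ≤ m)
    (h : ∀ p ∈ B, p.Prime ∧ y ≤ p ∧ m ≤ p ∧ p < 2 * m) :
    ∑ p ∈ B, (1 / p : ℝ) ≤ 3 / Real.log y := by
  have hl : 0 < Real.log y := Real.log_pos (by linarith)
  have hm' : (0 : ℝ) < m := by exact_mod_cast hm
  have h1 : ∀ p ∈ B, (1 / p : ℝ) ≤ Real.log p / (m * Real.log y) := fun p hp => by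
    obtain ⟨-, a2, a3, -⟩ := h p hp
    have a4 : (m : ℝ) ≤ p := by exact_mod_cast a3
    have a5 : Real.log y ≤ Real.log p := Real.log_le_log (by linarith) a2
    rw [div_le_div_iff₀ (by linarith) (by positivity), one_mul, mul_comm (Real.log p)]
    exact mul_le_mul a4 a5 hl.le (by linarith)
  have h2 : ∑ p ∈ B, Real.log p ≤ Chebyshev.theta ((2 * m : ℕ) : ℝ) := by
    unfold Chebyshev.theta
    refine sum_le_sum_of_subset_of_nonneg (fun p hp => ?_) fun p _ _ => Real.log_natCast_nonneg p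
    obtain ⟨a1, -, -, a4⟩ := h p hp
    rw [Nat.floor_natCast]
    exact mem_filter.2 ⟨mem_Ioc.2 ⟨a1.pos, a4.le⟩, a1⟩
  have h3 := Chebyshev.theta_le_log4_mul_x (x := ((2 * m : ℕ) : ℝ)) (Nat.cast_nonneg _)
  have h4 : Real.log 4 ≤ 3 / 2 := by
    rw [show (4 : ℝ) = 2 ^ 2 by norm_num, Real.log_pow]
    have := Real.log_two_lt_d9
    push_cast
    linarith
  calc ∑ p ∈ B, (1 / p : ℝ) ≤ ∑ p ∈ B, Real.log p / (m * Real.log y) := sum_le_sum h1
    _ = (∑ p ∈ B, Real.log p) / (m * Real.log y) := by rw [sum_div]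
    _ ≤ (3 * m) / (m * Real.log y) := by
        refine div_le_div_of_nonneg_right ?_ (by positivity)
        push_cast at h2 h3
        nlinarith
    _ = 3 / Real.log y := by field_simp

end MU

theorem p_Win : S_Win := by
  intro y ρ N hy hρ h1 h2
  have hl : 0 < Real.log y := Real.log_pos (by linarith)
  have hr : 0 ≤ Real.log ρ := Real.log_nonneg hρ
  rcases N.eq_empty_or_nonempty with rfl | hN
  · rw [sum_empty]; positivity
  set v := N.min' hN with hv
  have hvN : v ∈ N := min'_mem N hN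
  have hv1 : 0 < v := (h1 v hvN).1.pos
  have hle : ∀ p ∈ N, v ≤ p := fun p hp => min'_le N p hp
  have hd : ∀ p ∈ N, p / v ≠ 0 := fun p hp => (Nat.div_pos (hle p hp) hv1).ne'
  have hlo : ∀ p ∈ N, 2 ^ Nat.log 2 (p / v) * v ≤ p := fun p hp =>
    (Nat.mul_le_mul_right v (Nat.pow_log_le_self 2 (hd p hp))).trans (Nat.div_mul_le_self p v)
  have hhi : ∀ p ∈ N, p < 2 * (2 ^ Nat.log 2 (p / v) * v) := fun p hp => by
    have := (Nat.div_lt_iff_lt_mul hv1).1 (Nat.lt_pow_succ_log_self (b := 2) (by norm_num) (p / v))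
    rw [pow_succ] at this
    linarith
  have hmap : ∀ p ∈ N, Nat.log 2 (p / v) ∈ range (⌊2 * Real.log ρ⌋₊ + 1) := fun p hp => by
    rw [mem_range, Nat.lt_succ_iff, Nat.le_floor_iff (by positivity)]
    have a1 : ((2 : ℝ) ^ Nat.log 2 (p / v)) * v ≤ p := by exact_mod_cast hlo p hp
    have a2 : (0 : ℝ) < v := by exact_mod_cast hv1
    have a3 : (2 : ℝ) ^ Nat.log 2 (p / v) ≤ ρ :=
      le_of_mul_le_mul_right (a1.trans (h2 p hp v hvN)) a2
    have a4 := Real.log_le_log (by positivity) a3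
    rw [Real.log_pow] at a4
    have a5 := Real.log_two_gt_d9
    have a6 : (0 : ℝ) ≤ Nat.log 2 (p / v) := Nat.cast_nonneg _
    nlinarith
  rw [← sum_fiberwise_of_maps_to hmap]
  have hb : ∀ j ∈ range (⌊2 * Real.log ρ⌋₊ + 1),
      ∑ p ∈ N with Nat.log 2 (p / v) = j, (1 / p : ℝ) ≤ 3 / Real.log y := fun j _ => by
    refine MU.block (m := 2 ^ j * v) hy (Nat.mul_pos (by positivity) hv1) fun p hp => ?_
    obtain ⟨a1, rfl⟩ := mem_filter.1 hp
    exact ⟨(h1 p a1).1, (h1 p a1).2, hlo p a1, hhi p a1⟩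
  refine (sum_le_sum hb).trans ?_
  rw [sum_const, card_range, nsmul_eq_mul]
  have a1 : (⌊2 * Real.log ρ⌋₊ : ℝ) ≤ 2 * Real.log ρ := Nat.floor_le (by positivity)
  push_cast
  rw [mul_div_assoc', mul_comm]
  gcongr

theorem p_M (hC : S_Code) (hH : S_Harm) : S_M := by
  intro a k X l K W R N hP hN
  have hR : 0 ≤ R := by linarith [hP.R32]
  obtain ⟨g1, -, g3⟩ := hH X l hP.l4 hP.Xl
  have h := hC (ℕ × ℕ) a k X
    (Icc 1 X ×ˢ (Icc 1 X).filter fun d => K ≤ d.primeFactors.card) (fun i => i.1 * i.2)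
    (fun _ => R ^ 175) N hP.a1 (fun _ _ => by positivity) fun n hn => by
      obtain ⟨a1, s, d, a2, a3, a4⟩ := hN n hn
      obtain ⟨b1, b2⟩ := MU.mem_of_un a1 a2
      exact ⟨a1, (s, d), mem_product.2 ⟨b1, mem_filter.2 ⟨b2, a4⟩⟩, a2, a3⟩
  refine h.trans (mul_le_mul_of_nonneg_left ?_ (by positivity))
  have h2 : ∑ d ∈ (Icc 1 X).filter fun d => K ≤ d.primeFactors.card, (1 / d : ℝ) ≤
      (l : ℝ) ^ 2 / 2 ^ K := by
    rw [le_div_iff₀ (by positivity), sum_mul]
    refine le_trans (sum_le_sum fun d hd => ?_) ((sum_le_sum_of_subset_of_nonneg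
      (filter_subset _ _) fun d _ _ => by positivity).trans g3)
    rw [one_div_mul_eq_div]
    exact div_le_div_of_nonneg_right (pow_le_pow_right₀ (by norm_num) (mem_filter.1 hd).2)
      (Nat.cast_nonneg _)
  calc _ = R ^ 175 * ((∑ s ∈ Icc 1 X, (1 / s : ℝ)) *
        ∑ d ∈ (Icc 1 X).filter fun d => K ≤ d.primeFactors.card, (1 / d : ℝ)) := by
        rw [sum_mul_sum, ← sum_product', mul_sum]
        refine sum_congr rfl fun i _ => ?_
        push_cast
        rw [div_mul_div_comm, one_mul, mul_one_div]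
    _ ≤ R ^ 175 * (l * (l ^ 2 / 2 ^ K)) := by
        refine mul_le_mul_of_nonneg_left (mul_le_mul g1 h2 (sum_nonneg fun _ _ => by positivity)
          (Nat.cast_nonneg _)) (by positivity)
    _ = _ := by ring

theorem p_U (hC : S_Code) (hH : S_Harm) (hZ : S_Z) : S_U := by
  classical
  intro a k X l K G W R y N hP hy hN
  have hR : 1 ≤ R := by linarith [hP.R32]
  obtain ⟨g1, -, -⟩ := hH X l hP.l4 hP.Xl
  set F : Finset (Finset ℕ) :=
    (powerset (range (X + 1))).filter fun S => Many X K G R y S ∧ pr S ≤ X with hF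
  have h2 := hZ X l K G R y F hP.l4 hP.Xl hR hy fun S hS => (mem_filter.1 hS).2
  have h := hC (ℕ × Finset ℕ) a k X (Icc 1 X ×ˢ F) (fun i => i.1 * pr i.2)
    (fun _ => R ^ 175) N hP.a1 (fun _ _ => by positivity) fun n hn => by
      obtain ⟨a1, s, S, a4, a2, a3⟩ := hN n hn
      obtain ⟨b1, b2⟩ := MU.mem_of_un a1 a2
      obtain ⟨b3, b4⟩ := mem_Icc.1 b2
      refine ⟨a1, (s, S), mem_product.2 ⟨b1, mem_filter.2 ⟨mem_powerset.2 fun p hp => ?_,
        a4, b4⟩⟩, a2, a3⟩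
      exact mem_range.2 (Nat.lt_succ_of_le
        ((Nat.le_of_dvd b3 (dvd_prod_of_mem (fun q => q) hp)).trans b4))
  refine h.trans (mul_le_mul_of_nonneg_left ?_ (by positivity))
  calc _ = R ^ 175 * ((∑ s ∈ Icc 1 X, (1 / s : ℝ)) * ∑ S ∈ F, (1 / pr S : ℝ)) := by
        rw [sum_mul_sum, ← sum_product', mul_sum]
        refine sum_congr rfl fun i _ => ?_
        push_cast
        rw [div_mul_div_comm, one_mul, mul_one_div]
    _ ≤ R ^ 175 * (l * (sv K R y ^ G * l)) := by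
        refine mul_le_mul_of_nonneg_left (mul_le_mul g1 h2 (sum_nonneg fun _ _ => by positivity)
          (Nat.cast_nonneg _)) (by positivity)
    _ = _ := by ring

end Pool.Agent.P.MP_df609a_nt.Ct
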