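import Pool.Agent.P.MP_df609a_nt.Ct.Base

/-! The sum over sets of primes with many tuned elements. -/

namespace Pool.Agent.P.MP_df609a_nt.Ct

open Finset

namespace Z

variable {X K G : ℕ} {R y : ℝ} {S : Finset ℕ}

theorem up_erase {p q : ℕ} (h : p ≤ q) : up (S.erase p) q = up S q := by
  unfold up
  congr 1
  ext r
  simp only [mem_filter, mem_erase]
  exact ⟨fun h1 => ⟨h1.1.2, h1.2⟩, fun h1 => ⟨⟨by omega, h1.1⟩, h1.2⟩⟩

theorem tuned_erase {p q : ℕ} (h : p ≤ q) (hq : Tuned X R y S q) : Tuned X R y (S.erase p) q := by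
  unfold Tuned at hq ⊢
  rwa [up_erase h]

theorem step (h : Many X K (G + 1) R y S) :
    ∃ p ∈ S, Tuned X R y (S.erase p) p ∧ Many X K G R y (S.erase p) := by
  obtain ⟨h1, h2, T, hT, h3, h4⟩ := h
  have hne : T.Nonempty := card_pos.1 (by omega)
  have hm := T.min'_mem hne
  refine ⟨T.min' hne, hT hm, tuned_erase le_rfl (h4 _ hm), fun p hp => h1 p (mem_of_mem_erase hp),
    card_erase_le.trans h2, T.erase (T.min' hne), erase_subset_erase _ hT, ?_, fun q hq => ?_⟩
  · rw [card_erase_of_mem hm]; omega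
  · exact tuned_erase (T.min'_le q (mem_of_mem_erase hq)) (h4 q (mem_of_mem_erase hq))

theorem up_eq {p q : ℕ} (h : (S.filter fun r => p < r).card = (S.filter fun r => q < r).card) :
    up S p = up S q := by
  unfold up
  congr 1
  rcases le_total p q with h1 | h1
  · exact (eq_of_subset_of_card_le (fun r hr => mem_filter.2
      ⟨(mem_filter.1 hr).1, lt_of_le_of_lt h1 (mem_filter.1 hr).2⟩) h.le).symm
  · exact eq_of_subset_of_card_le (fun r hr => mem_filter.2
      ⟨(mem_filter.1 hr).1, lt_of_le_of_lt h1 (mem_filter.1 hr).2⟩) h.ge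

theorem close {p q : ℕ} (hR : 1 ≤ R) (hp : Tuned X R y S p) (hq : Tuned X R y S q)
    (e : up S p = up S q) : (p : ℝ) ≤ R ^ 79 * q := by
  obtain ⟨-, -, h1⟩ := hp
  obtain ⟨-, h2, -⟩ := hq
  rw [e] at h1
  have hR0 : 0 < R := by linarith
  have hX : (0 : ℝ) ≤ X := Nat.cast_nonneg _
  generalize (up S q : ℝ) ^ 2 = u at h1 h2
  have hq0 : (0 : ℝ) ≤ q := Nat.cast_nonneg _
  have hu : 0 < u := by
    by_contra hh
    have : (q : ℝ) ^ 3 * u * R ^ 118 ≤ 0 :=
      mul_nonpos_of_nonpos_of_nonneg (mul_nonpos_of_nonneg_of_nonpos (by positivity) (not_lt.1 hh))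
        (by positivity)
    linarith
  have h3 : (p : ℝ) ^ 3 * u ≤ (q : ℝ) ^ 3 * R ^ 236 * u := by
    calc (p : ℝ) ^ 3 * u ≤ X * R ^ 118 := h1.le
      _ ≤ (q : ℝ) ^ 3 * u * R ^ 118 * R ^ 118 := by gcongr
      _ = (q : ℝ) ^ 3 * R ^ 236 * u := by ring
  have h4 : (p : ℝ) ^ 3 ≤ (q : ℝ) ^ 3 * R ^ 236 := le_of_mul_le_mul_right h3 hu
  have h5 : R ^ 236 ≤ R ^ 237 := pow_le_pow_right₀ hR (by omega)
  have h6 : (0 : ℝ) ≤ R ^ 79 * q := mul_nonneg (pow_nonneg hR0.le _) hq0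
  refine (pow_le_pow_iff_left₀ (Nat.cast_nonneg _) h6 three_ne_zero).1 ?_
  calc (p : ℝ) ^ 3 ≤ (q : ℝ) ^ 3 * R ^ 236 := h4
    _ ≤ (q : ℝ) ^ 3 * R ^ 237 := mul_le_mul_of_nonneg_left h5 (pow_nonneg hq0 _)
    _ = (R ^ 79 * q) ^ 3 := by ring

theorem inner (hW : S_Win) (hR : 1 ≤ R) (hy : 2 ≤ y) (hS : S.card ≤ 2 * K) (N : Finset ℕ)
    (hN : ∀ p ∈ N, p.Prime ∧ Tuned X R y S p) : ∑ p ∈ N, (1 / p : ℝ) ≤ sv K R y := by
  have hm : ∀ p ∈ N, (S.filter fun r => p < r).card ∈ range (2 * K + 1) := fun p _ =>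
    mem_range.2 (Nat.lt_succ_of_le ((card_filter_le _ _).trans hS))
  rw [← sum_fiberwise_of_maps_to hm]
  refine (sum_le_card_nsmul _ _ (3 * (2 * Real.log (R ^ 79) + 1) / Real.log y)
    fun j _ => ?_).trans (le_of_eq ?_)
  · refine hW y (R ^ 79) _ hy (one_le_pow₀ hR) (fun p hp => ?_) fun p hp q hq => ?_
    · have := hN p (mem_filter.1 hp).1
      exact ⟨this.1, this.2.1⟩
    · have h1 := mem_filter.1 hp
      have h2 := mem_filter.1 hq
      exact close hR (hN p h1.1).2 (hN q h2.1).2 (up_eq (h1.2.trans h2.2.symm))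
  · rw [card_range, nsmul_eq_mul, sv]
    push_cast
    rfl

theorem sv_nonneg (hR : 1 ≤ R) (hy : 2 ≤ y) : 0 ≤ sv K R y := by
  have h1 : 0 ≤ Real.log (R ^ 79) := Real.log_nonneg (one_le_pow₀ hR)
  have h2 : 0 ≤ Real.log y := Real.log_nonneg (by linarith)
  unfold sv
  positivity

end Z

open Z in
theorem p_Z (hW : S_Win) (hH : S_Harm) : S_Z := by
  intro X l K G R y F hl hX hR hy
  induction G generalizing F with
  | zero =>
    intro hF
    have inj : Set.InjOn pr (F : Set (Finset ℕ)) := fun S hS T hT e => by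
      rw [← primeFactors_pr (hF S hS).1.1, e, primeFactors_pr (hF T hT).1.1]
    rw [pow_zero, one_mul, ← sum_image (f := fun t : ℕ => (1 / t : ℝ)) inj]
    refine (sum_le_sum_of_subset_of_nonneg (fun t ht => ?_) fun _ _ _ => by positivity).trans
      (hH X l hl hX).1
    obtain ⟨S, hS, rfl⟩ := mem_image.1 ht
    exact mem_Icc.2 ⟨pr_pos fun p hp => ((hF S hS).1.1 p hp).pos, (hF S hS).2⟩
  | succ G ih =>
    intro hF
    choose! f f1 f2 f3 using fun S (hS : S ∈ F) => step (hF S hS).1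
    have e : ∀ S ∈ F, pr S = f S * pr (S.erase (f S)) := fun S hS => by
      rw [← pr_insert (notMem_erase _ _), insert_erase (f1 S hS)]
    have h1 := ih (F.image fun S => S.erase (f S)) fun S' hS' => by
      obtain ⟨S, hS, rfl⟩ := mem_image.1 hS'
      exact ⟨f3 S hS, (pr_le (fun p hp => ((hF S hS).1.1 p hp).pos) (erase_subset _ _)).trans
        (hF S hS).2⟩
    rw [← sum_fiberwise_of_maps_to (g := fun S => S.erase (f S))
      fun S hS => mem_image_of_mem (fun S => S.erase (f S)) hS, pow_succ', mul_assoc]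
    refine le_trans ?_ (mul_le_mul_of_nonneg_left h1 (sv_nonneg hR hy))
    rw [mul_sum]
    refine sum_le_sum fun S' hS' => ?_
    have inj : Set.InjOn f (F.filter fun S => S.erase (f S) = S' : Finset (Finset ℕ)) :=
      fun S hS T hT e' => by
        have a1 := mem_filter.1 (mem_coe.1 hS)
        have a2 := mem_filter.1 (mem_coe.1 hT)
        rw [← insert_erase (f1 S a1.1), ← insert_erase (f1 T a2.1), a1.2, a2.2, e']
    have h2 : ∑ S ∈ F.filter (fun S => S.erase (f S) = S'), (1 / pr S : ℝ) =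
        (∑ p ∈ (F.filter fun S => S.erase (f S) = S').image f, (1 / p : ℝ)) * (1 / pr S') := by
      rw [sum_image inj, sum_mul]
      refine sum_congr rfl fun S hS => ?_
      have a1 := mem_filter.1 hS
      rw [e S a1.1, a1.2]
      push_cast
      rw [one_div_mul_one_div]
    rw [h2]
    obtain ⟨S₀, hS₀, rfl⟩ := mem_image.1 hS'
    refine mul_le_mul_of_nonneg_right (Z.inner (X := X) hW hR hy (f3 S₀ hS₀).2.1 _ fun p hp => ?_)
      (by positivity)
    obtain ⟨S, hS, rfl⟩ := mem_image.1 hp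
    have a1 := mem_filter.1 hS
    exact ⟨(hF S a1.1).1.1 _ (f1 S a1.1), a1.2 ▸ f2 S a1.1⟩

end Pool.Agent.P.MP_df609a_nt.Ct
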