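import Pool.Agent.P.MP_df609a_nt.Ct.Comb
import Pool.Agent.P.MP_df609a_nt.Ct.Cut
import Pool.Agent.P.MP_df609a_nt.Ct.MU
import Pool.Agent.P.MP_df609a_nt.Ct.Z

/-! The sharper form: pinned primes on either side of the greedy partition. -/

namespace Pool.Agent.P.MP_df609a_nt.Ct

open Finset

/-- The element `p` is tuned or close to a larger element of `S`. -/
def Pin (X : ℕ) (R y : ℝ) (S : Finset ℕ) (p : ℕ) : Prop :=
  Tuned X R y S p ∨ (y ≤ p ∧ ∃ q ∈ S, p < q ∧ (q : ℝ) ≤ R ^ 236 * p)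

/-- Sets of primes with many pinned elements. -/
def Many2 (X K G : ℕ) (R y : ℝ) (S : Finset ℕ) : Prop :=
  (∀ p ∈ S, p.Prime) ∧ S.card ≤ 2 * K ∧ ∃ T ⊆ S, G ≤ T.card ∧ ∀ p ∈ T, Pin X R y S p

/-- The pinned class. -/
def ClV (X K G : ℕ) (R y : ℝ) (n : ℕ) : Prop :=
  ∃ (s : ℕ) (S : Finset ℕ), Many2 X K G R y S ∧ Un (s * pr S) n ∧ Bal X (s * pr S) (R ^ 175)

/-- The saving for one pinned prime. -/
noncomputable def sw (K : ℕ) (R y : ℝ) : ℝ :=
  2 * ((2 * K + 1) * (3 * (2 * Real.log (R ^ 236) + 1) / Real.log y))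

/-- The parameters of the pinned class. -/
structure Cnd2 (X K G : ℕ) (R y : ℝ) : Prop where
  y2 : 2 ≤ y
  KG : (5 : ℝ) ^ (2 * G) * (8 * K * Real.log y) < Real.log X
  Ry : 1000 * Real.log R ≤ Real.log y

namespace Sharp

variable {X K G : ℕ} {R y : ℝ} {P S : Finset ℕ} {e : ℕ}

theorem pin_erase {p q : ℕ} (h : p ≤ q) (hq : Pin X R y S q) : Pin X R y (S.erase p) q := by
  rcases hq with hq | ⟨h1, r, h2, h3, h4⟩
  · exact Or.inl (Z.tuned_erase h hq)
  · exact Or.inr ⟨h1, r, mem_erase.2 ⟨by omega, h2⟩, h3, h4⟩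

theorem step (h : Many2 X K (G + 1) R y S) :
    ∃ p ∈ S, Pin X R y (S.erase p) p ∧ Many2 X K G R y (S.erase p) := by
  obtain ⟨h1, h2, T, hT, h3, h4⟩ := h
  have hne : T.Nonempty := card_pos.1 (by omega)
  have hm := T.min'_mem hne
  refine ⟨T.min' hne, hT hm, pin_erase le_rfl (h4 _ hm), fun p hp => h1 p (mem_of_mem_erase hp),
    card_erase_le.trans h2, T.erase (T.min' hne), erase_subset_erase _ hT, ?_, fun q hq => ?_⟩
  · rw [card_erase_of_mem hm]; omega
  · exact pin_erase (T.min'_le q (mem_of_mem_erase hq)) (h4 q (mem_of_mem_erase hq))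

theorem inner (hW : S_Win) (hR : 1 ≤ R) (hy : 2 ≤ y) (hS : S.card ≤ 2 * K) (N : Finset ℕ)
    (hN : ∀ p ∈ N, p.Prime ∧ Pin X R y S p) : ∑ p ∈ N, (1 / p : ℝ) ≤ sw K R y := by
  classical
  have l0 : 0 ≤ Real.log (R ^ 236) := Real.log_nonneg (one_le_pow₀ hR)
  have l1 : 0 < Real.log y := Real.log_pos (by linarith)
  have a1 := Z.inner (X := X) hW hR hy hS (N.filter (Tuned X R y S))
    fun p hp => ⟨(hN p (mem_filter.1 hp).1).1, (mem_filter.1 hp).2⟩
  have a2 : sv K R y ≤ (2 * K + 1) * (3 * (2 * Real.log (R ^ 236) + 1) / Real.log y) := by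
    unfold sv
    have : Real.log (R ^ 79) ≤ Real.log (R ^ 236) :=
      Real.log_le_log (by positivity) (pow_le_pow_right₀ hR (by norm_num))
    gcongr
  have a3 : ∀ p ∈ N.filter fun p => ¬ Tuned X R y S p,
      y ≤ p ∧ ∃ q ∈ S, p < q ∧ (q : ℝ) ≤ R ^ 236 * p := fun p hp =>
    (hN p (mem_filter.1 hp).1).2.resolve_left (mem_filter.1 hp).2
  choose! a4 f f1 f2 f3 using a3
  have a5 : ∑ p ∈ N.filter fun p => ¬ Tuned X R y S p, (1 / p : ℝ) ≤
      (2 * K + 1) * (3 * (2 * Real.log (R ^ 236) + 1) / Real.log y) := by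
    rw [← sum_fiberwise_of_maps_to f1]
    refine (sum_le_card_nsmul _ _ (3 * (2 * Real.log (R ^ 236) + 1) / Real.log y)
      fun j _ => ?_).trans ?_
    · refine hW y (R ^ 236) _ hy (one_le_pow₀ hR) (fun p hp => ?_) fun p hp q hq => ?_
      · have h1 := (mem_filter.1 hp).1
        exact ⟨(hN p (mem_filter.1 h1).1).1, a4 p h1⟩
      · have h1 := mem_filter.1 hp
        have h2 := mem_filter.1 hq
        have h3 := f2 p h1.1
        have h4 := f3 q h2.1
        rw [h1.2] at h3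
        rw [h2.2] at h4
        exact le_trans (by exact_mod_cast h3.le) h4
    · rw [nsmul_eq_mul]
      have : (S.card : ℝ) ≤ 2 * K + 1 := by exact_mod_cast hS.trans (Nat.le_succ _)
      gcongr
  rw [← sum_filter_add_sum_filter_not N (Tuned X R y S), sw]
  linarith

theorem sw_nonneg (hR : 1 ≤ R) (hy : 2 ≤ y) : 0 ≤ sw K R y := by
  have h1 : 0 ≤ Real.log (R ^ 236) := Real.log_nonneg (one_le_pow₀ hR)
  have h2 : 0 ≤ Real.log y := Real.log_nonneg (by linarith)
  unfold sw
  positivity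

theorem sumZ (hW : S_Win) (hH : S_Harm) {l : ℕ} (F : Finset (Finset ℕ)) (hl : 4 ≤ l)
    (hX : X < 2 ^ l) (hR : 1 ≤ R) (hy : 2 ≤ y) (hF : ∀ S ∈ F, Many2 X K G R y S ∧ pr S ≤ X) :
    ∑ S ∈ F, (1 / pr S : ℝ) ≤ sw K R y ^ G * l := by
  induction G generalizing F with
  | zero =>
    have inj : Set.InjOn pr (F : Set (Finset ℕ)) := fun S hS T hT e => by
      rw [← primeFactors_pr (hF S hS).1.1, e, primeFactors_pr (hF T hT).1.1]
    rw [pow_zero, one_mul, ← sum_image (f := fun t : ℕ => (1 / t : ℝ)) inj]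
    refine (sum_le_sum_of_subset_of_nonneg (fun t ht => ?_) fun _ _ _ => by positivity).trans
      (hH X l hl hX).1
    obtain ⟨S, hS, rfl⟩ := mem_image.1 ht
    exact mem_Icc.2 ⟨pr_pos fun p hp => ((hF S hS).1.1 p hp).pos, (hF S hS).2⟩
  | succ G ih =>
    choose! f f1 f2 f3 using fun S (hS : S ∈ F) => step (hF S hS).1
    have e : ∀ S ∈ F, pr S = f S * pr (S.erase (f S)) := fun S hS => by
      rw [← pr_insert (notMem_erase _ _), insert_erase (f1 S hS)]
    have h1 := ih (F.image fun S => S.erase (f S)) fun S' hS' => by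
      obtain ⟨S, hS, rfl⟩ := mem_image.1 hS'
      exact ⟨f3 S hS, (pr_le (fun p hp => ((hF S hS).1.1 p hp).pos) (erase_subset _ _)).trans
        (hF S hS).2⟩
    rw [← sum_fiberwise_of_maps_to (g := fun S => S.erase (f S))
      fun S hS => mem_image_of_mem (fun S => S.erase (f S)) hS, pow_succ', mul_assoc]
    refine le_trans ?_ (mul_le_mul_of_nonneg_left h1 (sw_nonneg hR hy))
    rw [mul_sum]
    refine sum_le_sum fun S' hS' => ?_
    have inj : Set.InjOn f (F.filter fun S => S.erase (f S) = S' : Finset (Finset ℕ)) :=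
      fun S hS T hT e' => by
        have a1 := mem_filter.1 (mem_coe.1 hS)
        have a2 := mem_filter.1 (mem_coe.1 hT)
        rw [← insert_erase (f1 S a1.1), ← insert_erase (f1 T a2.1), a1.2, a2.2, e']
    have h2 : ∑ S ∈ F.filter (fun S => S.erase (f S) = S'), (1 / pr S : ℝ) =
        (∑ p ∈ (F.filter fun S => S.erase (f S) = S').image f, (1 / p : ℝ)) * (1 / pr S') := by
      rw [sum_image inj, sum_mul]
      refine sum_congr rfl fun S hS => ?_
      have a1 := mem_filter.1 hS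
      rw [e S a1.1, a1.2]
      push_cast
      rw [one_div_mul_one_div]
    rw [h2]
    obtain ⟨S₀, hS₀, rfl⟩ := mem_image.1 hS'
    refine mul_le_mul_of_nonneg_right (inner (X := X) hW hR hy (f3 S₀ hS₀).2.1 _ fun p hp => ?_)
      (by positivity)
    obtain ⟨S, hS, rfl⟩ := mem_image.1 hp
    have a1 := mem_filter.1 hS
    exact ⟨(hF S a1.1).1.1 _ (f1 S a1.1), a1.2 ▸ f2 S a1.1⟩

theorem cardV (hC : S_Code) (hH : S_Harm) (hW : S_Win) {a k l : ℕ} {W : ℝ} (N : Finset ℕ)
    (hP : Par a X l W R) (hy : 2 ≤ y) (hN : ∀ n ∈ N, Sol a k X n ∧ ClV X K G R y n) :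
    (N.card : ℝ) ≤ 3 * a ^ 2 * √X * (R ^ 175 * l * (sw K R y ^ G * l)) := by
  classical
  have hR : 1 ≤ R := by linarith [hP.R32]
  obtain ⟨g1, -, -⟩ := hH X l hP.l4 hP.Xl
  set F : Finset (Finset ℕ) :=
    (powerset (range (X + 1))).filter fun S => Many2 X K G R y S ∧ pr S ≤ X with hF
  have h2 := sumZ hW hH F hP.l4 hP.Xl hR hy fun S hS => (mem_filter.1 hS).2
  have h := hC (ℕ × Finset ℕ) a k X (Icc 1 X ×ˢ F) (fun i => i.1 * pr i.2)
    (fun _ => R ^ 175) N hP.a1 (fun _ _ => by positivity) fun n hn => by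
      obtain ⟨a1, s, S, a4, a2, a3⟩ := hN n hn
      obtain ⟨b1, b2⟩ := MU.mem_of_un a1 a2
      obtain ⟨b3, b4⟩ := mem_Icc.1 b2
      refine ⟨a1, (s, S), mem_product.2 ⟨b1, mem_filter.2 ⟨mem_powerset.2 fun p hp => ?_,
        a4, b4⟩⟩, a2, a3⟩
      exact mem_range.2 (Nat.lt_succ_of_le
        ((Nat.le_of_dvd b3 (dvd_prod_of_mem (fun q => q) hp)).trans b4))
  refine h.trans (mul_le_mul_of_nonneg_left ?_ (by positivity))
  calc _ = R ^ 175 * ((∑ s ∈ Icc 1 X, (1 / s : ℝ)) * ∑ S ∈ F, (1 / pr S : ℝ)) := by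
        rw [sum_mul_sum, ← sum_product', mul_sum]
        refine sum_congr rfl fun i _ => ?_
        push_cast
        rw [div_mul_div_comm, one_mul, mul_one_div]
    _ ≤ R ^ 175 * (l * (sw K R y ^ G * l)) := by
        refine mul_le_mul_of_nonneg_left (mul_le_mul g1 h2 (sum_nonneg fun _ _ => by positivity)
          (Nat.cast_nonneg _)) (by positivity)
    _ = _ := by ring

/-- Growth of the product along a dense set. -/
theorem grow (E : Finset ℕ) (h1 : ∀ p ∈ E, 1 ≤ p)
    (h2 : ∀ p ∈ E, y ≤ p → Real.log p ≤ 4 * Real.log (low E p)) :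
    Real.log (pr E) ≤ 5 ^ (E.filter fun p : ℕ => y ≤ p).card *
      Real.log (pr (E.filter fun p : ℕ => ¬ y ≤ p)) := by
  induction E using Finset.induction_on_max with
  | empty => simp [pr]
  | insert m E hm ih =>
    have hmE : m ∉ E := fun h => lt_irrefl _ (hm m h)
    have e1 : ∀ p, p ≤ m → low (insert m E) p = low E p := fun p hp => by
      unfold low; rw [filter_insert, if_neg (by omega)]
    by_cases c : y ≤ m
    · have i1 := ih (fun p hp => h1 p (mem_insert_of_mem hp)) fun p hp hy => by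
        rw [← e1 p (hm p hp).le]; exact h2 p (mem_insert_of_mem hp) hy
      have i2 := h2 m (mem_insert_self _ _) c
      have e2 : low E m = pr E := by unfold low; rw [filter_true_of_mem hm]
      have p1 : (1 : ℝ) ≤ m := by exact_mod_cast h1 m (mem_insert_self _ _)
      have p2 : (1 : ℝ) ≤ pr E := by exact_mod_cast pr_pos fun p hp => h1 p (mem_insert_of_mem hp)
      rw [e1 m le_rfl, e2] at i2
      rw [filter_insert, if_pos c, filter_insert, if_neg (not_not.2 c),
        card_insert_of_notMem fun h => hmE (mem_filter.1 h).1, pr_insert hmE, Nat.cast_mul,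
        Real.log_mul (by positivity) (by positivity), pow_succ]
      linarith
    · have e2 : ∀ p ∈ insert m E, ¬ y ≤ (p : ℕ) := fun p hp hy => c (hy.trans (by
        rcases mem_insert.1 hp with rfl | hp
        · exact le_rfl
        · exact_mod_cast (hm p hp).le))
      rw [filter_false_of_mem e2, filter_true_of_mem e2]
      simp

theorem dense (h : Comb.Hy X R P S) (he : e ∈ P \ S) (hR : 1000 * Real.log R ≤ Real.log e) :
    Real.log e ≤ 4 * Real.log (low (P \ S) e) := by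
  have a1 := h.R1
  have a2 : 0 < Real.log R := Real.log_pos (by linarith [h.R32])
  have b3 := h.outC he
  have b4 := h.outA (mem_sdiff.1 he).1
  have b5 := h.up1 e
  have b0 : (1 : ℝ) ≤ e := by exact_mod_cast h.pos e (mem_sdiff.1 he).1
  have p2 : (1 : ℝ) ≤ low (P \ S) e := by
    exact_mod_cast pr_pos fun q hq => h.pos q (mem_sdiff.1 (mem_filter.1 hq).1).1
  have b6 : √e < R ^ 234 * low (P \ S) e := by
    refine lt_of_mul_lt_mul_right ?_ (by linarith : (0 : ℝ) ≤ up S e)
    calc √e * up S e < R ^ 59 * √X := b4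
      _ ≤ R ^ 59 * (R ^ 175 * (low (P \ S) e * up S e)) := by gcongr
      _ = _ := by ring
  have b7 := Real.log_le_log (Real.sqrt_pos.2 (by linarith)) b6.le
  rw [Real.log_sqrt (by linarith), Real.log_mul (by positivity) (by positivity),
    Real.log_pow] at b7
  push_cast at b7
  linarith

theorem many_big (h : Comb.Hy X R P S) (hC : Cnd2 X K G R y) (hc : P.card ≤ 2 * K) :
    2 * G ≤ ((P \ S).filter fun p : ℕ => y ≤ p).card := by
  have a1 := h.R1
  have a2 : 0 < Real.log R := Real.log_pos (by linarith [h.R32])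
  have y0 : 0 < Real.log y := Real.log_pos (by linarith [hC.y2])
  have p1 : ∀ q ∈ P \ S, 1 ≤ q := fun q hq => h.pos q (mem_sdiff.1 hq).1
  have p2 : (1 : ℝ) ≤ pr (P \ S) := by exact_mod_cast pr_pos p1
  have b1 := Real.log_le_log (by linarith [h.Y1]) h.prE
  have b2 := Real.log_le_log (by positivity) h.RX
  rw [Real.log_sqrt (Nat.cast_nonneg _), Real.log_mul (by positivity) (by positivity),
    Real.log_pow] at b1
  rw [Real.log_pow] at b2
  push_cast at b1 b2
  have b3 := grow (y := y) (P \ S) p1 fun p hp hy =>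
    dense h hp (hC.Ry.trans (Real.log_le_log (by linarith [hC.y2]) hy))
  have b4 : Real.log (pr ((P \ S).filter fun p : ℕ => ¬ y ≤ p)) ≤ 2 * K * Real.log y := by
    unfold pr
    rw [Nat.cast_prod, Real.log_prod fun p hp => by
      have := p1 p (mem_filter.1 hp).1
      positivity]
    refine (sum_le_card_nsmul _ _ (Real.log y) fun p hp => Real.log_le_log
      (by exact_mod_cast p1 p (mem_filter.1 hp).1) (not_le.1 (mem_filter.1 hp).2).le).trans ?_
    rw [nsmul_eq_mul]
    have : (((P \ S).filter fun p : ℕ => ¬ y ≤ p).card : ℝ) ≤ 2 * K := by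
      exact_mod_cast (card_le_card ((filter_subset _ _).trans sdiff_subset)).trans hc
    gcongr
  by_contra hn
  have b5 : (5 : ℝ) ^ ((P \ S).filter fun p : ℕ => y ≤ p).card ≤ 5 ^ (2 * G) :=
    pow_le_pow_right₀ (by norm_num) (by omega)
  have b6 : Real.log (pr (P \ S)) ≤ 5 ^ (2 * G) * (2 * K * Real.log y) :=
    b3.trans (mul_le_mul b5 b4 (Real.log_nonneg (by
      exact_mod_cast pr_pos fun q hq => p1 q (mem_filter.1 hq).1)) (by positivity))
  linarith [hC.KG]

theorem near (h : Comb.Hy X R P S) (he : e ∈ P \ S) {q : ℕ} (hq : q ∈ P \ S)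
    (hu : up S q = up S e) : (q : ℝ) ≤ R ^ 236 * e := by
  have a1 := h.R1
  have b1 := h.outB he
  have b2 := pow_lt_pow_left₀ (h.outA (mem_sdiff.1 hq).1) (by positivity) two_ne_zero
  rw [mul_pow, mul_pow, Real.sq_sqrt (Nat.cast_nonneg _), Real.sq_sqrt (Nat.cast_nonneg _),
    hu] at b2
  have b3 := h.up1 e
  refine le_of_mul_le_mul_right ?_ (by positivity : (0 : ℝ) < (up S e : ℝ) ^ 2)
  calc (q : ℝ) * (up S e : ℝ) ^ 2 ≤ (R ^ 59) ^ 2 * X := b2.le
    _ ≤ (R ^ 59) ^ 2 * (R ^ 118 * (e * (up S e : ℝ) ^ 2)) := by gcongr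
    _ = _ := by ring

theorem pins (h : Comb.Hy X R P S) (hC : Cnd2 X K G R y) (hc : P.card ≤ 2 * K) :
    (∃ T ⊆ S, G ≤ T.card ∧ ∀ p ∈ T, Pin X R y S p) ∨
      ∃ T ⊆ P \ S, G ≤ T.card ∧ ∀ p ∈ T, Pin X R y (P \ S) p := by
  classical
  have hB := many_big h hC hc
  set B := (P \ S).filter fun p : ℕ => y ≤ p with hBd
  rw [← card_filter_add_card_filter_not (s := B)
    fun e => ∃ q ∈ P \ S, e < q ∧ up S q = up S e] at hB
  by_cases c : G ≤ (B.filter fun e => ∃ q ∈ P \ S, e < q ∧ up S q = up S e).card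
  · refine Or.inr ⟨_, (filter_subset _ _).trans (filter_subset _ _), c, fun p hp => ?_⟩
    obtain ⟨h1, q, h2, h3, h4⟩ := mem_filter.1 hp
    exact Or.inr ⟨(mem_filter.1 h1).2, q, h2, h3, near h (mem_filter.1 h1).1 h2 h4⟩
  · set A := B.filter fun e => ¬ ∃ q ∈ P \ S, e < q ∧ up S q = up S e with hA
    have h1 : ∀ e ∈ A, ∃ p ∈ S, e < p ∧ Tuned X R y S p ∧ ∀ q ∈ S, e < q → p ≤ q := fun e he =>
      h.tuned (mem_filter.1 (mem_filter.1 he).1).1 (mem_filter.1 (mem_filter.1 he).1).2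
    choose! f f1 f2 f3 f4 using h1
    have key : ∀ e ∈ A, ∀ e' ∈ A, f e = f e' → ¬ e < e' := fun e he e' he' hf hl =>
      (mem_filter.1 he).2 ⟨e', (mem_filter.1 (mem_filter.1 he').1).1, hl, by
        unfold up
        congr 1
        exact filter_congr fun q hq => ⟨fun hh => by omega, fun hh => by
          have := f4 e he q hq hh
          have := f2 e' he'
          omega⟩⟩
    have inj : Set.InjOn f (A : Set ℕ) := fun e he e' he' hf => by
      have := key e he e' he' hf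
      have := key e' he' e he hf.symm
      omega
    refine Or.inl ⟨A.image f, image_subset_iff.2 f1, by rw [card_image_of_injOn inj]; omega,
      fun p hp => ?_⟩
    obtain ⟨e, he, rfl⟩ := mem_image.1 hp
    exact Or.inl (f3 e he)

theorem main (hG : S_Gap) {a k l n : ℕ} {W : ℝ} (hP : Par a X l W R) (hc : Cnd2 X K G R y)
    (h : Sol a k X n) (hw : (pw n : ℝ) ≤ R ^ 56) :
    ClT k X W R n ∨ ClM X K R n ∨ ClV X K G R y n := by
  rcases p_Cut hG a k X l n W R hP h hw with h0 | h0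
  · exact Or.inl h0
  refine Or.inr ?_
  have hR := hP.R32
  have hW := hP.W16
  have hWR : W ≤ R := by linarith [hP.WR]
  have r1 : (1 : ℝ) ≤ R := by linarith
  have y1 : 1 ≤ √(X : ℝ) := (one_le_pow₀ r1).trans (sqrt_ge hP.RX)
  obtain ⟨S, hS, g1, g2⟩ := greedy (PP n) y1
  have hi : (n : ℝ) ≤ X := by exact_mod_cast h.hi
  have sq : ∀ p ∈ PP n, (p : ℝ) ^ 2 ≤ R * X := fun p hp => by
    have h1 := le_below hG hP h (PP_subset n hp)
    have h2 : p * below n p ≤ n := by
      have h3 := below_succ (PP_subset n hp)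
      rw [(mem_filter.1 hp).2, pow_one] at h3
      rw [← h3]
      exact (U_le (filter_subset _ _)).trans_eq (U_self h.ne)
    have h3 : (p : ℝ) * below n p ≤ n := by exact_mod_cast h2
    calc (p : ℝ) ^ 2 = p * p := sq _
      _ ≤ p * (W * below n p) := by gcongr
      _ = W * (p * below n p) := by ring
      _ ≤ R * X := by gcongr; exact h3.trans hi
  have big : (X : ℝ) ≤ R ^ 57 * pr (PP n) := by
    have h1 : (X : ℝ) < 2 * (pw n * pr (PP n)) := by
      have := h.lo
      rw [pw_mul_pr h.ne] at this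
      exact_mod_cast this
    calc (X : ℝ) ≤ 2 * (pw n * pr (PP n)) := h1.le
      _ ≤ R * (R ^ 56 * pr (PP n)) := by gcongr; linarith
      _ = _ := by ring
  have hy : Comb.Hy X R (PP n) S := ⟨hR, hP.RX, fun p hp => (PP_prime hp).pos, hS, g1,
    fun q hq => Cut.dens hG hP h hw hq, sq, big, h0⟩
  have b1 := hy.first
  have un1 : Un (pw n * pr S) n := by rw [Cut.pw_pr hS]; exact un_U h.ne sdiff_subset
  have w1 : (1 : ℝ) ≤ pw n := by exact_mod_cast pw_pos n
  have bal1 : Bal X (pw n * pr S) (R ^ 175) := by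
    constructor
    · push_cast
      refine b1.trans ?_
      gcongr
      exact le_mul_of_one_le_left (by positivity) w1
    · push_cast
      gcongr
      exact hw.trans (pow_le_pow_right₀ r1 (by norm_num))
  have e : pw n * pr (PP n \ S) = U n (n.primeFactors \ S) := by
    rw [Cut.pw_pr sdiff_subset, Finset.sdiff_sdiff_eq_self hS]
  have un2 : Un (pw n * pr (PP n \ S)) n := by rw [e]; exact un_U h.ne sdiff_subset
  have bal2 : Bal X (pw n * pr (PP n \ S)) (R ^ 175) := by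
    rw [e]
    refine bal_of h (split_PP h.ne hS) ?_ b1
    have : (2 : ℝ) ≤ R ^ 175 :=
      le_trans (by linarith) (le_self_pow₀ r1 (by norm_num))
    gcongr
  by_cases hk : (PP n).card ≤ 2 * K
  · rcases pins hy hc hk with b2 | b2
    · exact Or.inr ⟨pw n, S, ⟨fun p hp => PP_prime (hS hp), (card_le_card hS).trans hk, b2⟩,
        un1, bal1⟩
    · exact Or.inr ⟨pw n, PP n \ S, ⟨fun p hp => PP_prime (mem_sdiff.1 hp).1,
        (card_le_card sdiff_subset).trans hk, b2⟩, un2, bal2⟩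
  refine Or.inl ?_
  by_cases hk1 : K ≤ S.card
  · exact ⟨pw n, pr S, un1, bal1, by rwa [primeFactors_pr fun p hp => PP_prime (hS hp)]⟩
  refine ⟨pw n, pr (PP n \ S), un2, bal2, ?_⟩
  rw [primeFactors_pr fun p hp => PP_prime (mem_sdiff.1 hp).1]
  have := card_sdiff_add_card_eq_card hS
  omega

end Sharp

end Pool.Agent.P.MP_df609a_nt.Ct
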